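import Pool.Agent.H40.TW.Defs

/-!
# The exact tradeoff between time and memory: targets for paths, automata and the upper bound
-/

namespace Pool.Agent.H40.TW

open Finset Pool.Agent.H80.SH

/-- FAR2: as `T_FAR` of `H80.SH`, for all large `C` (the proof of `far` in `H19/SH/FAR.lean` gives
this: `bad_card` holds for all `C ≥ 6 / ε ^ 2`) -/
def T_FAR2 : Prop :=
  ∀ ε : ℝ, 0 < ε → ∃ C₁ : ℕ, 1 ≤ C₁ ∧ ∀ C : ℕ, C₁ ≤ C → ∀ (X α : Type) [Fintype X]
    [DecidableEq X] [Fintype α] [DecidableEq α] [Nonempty α] (V : α → Finset X) (n w : ℕ),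
    1 ≤ n → Fintype.card X = 2 ^ n →
    (∀ x, (univ.filter (fun c => x ∈ V c)).card * 2 ^ w = Fintype.card α) →
    ∃ B : Finset (Fin (C * n * 2 ^ w) → α),
      4 * B.card ≤ Fintype.card α ^ (C * n * 2 ^ w) ∧
      ∀ F, F ∉ B → ∀ x, (1 - ε) * (C * n : ℝ) ≤
        ((univ.filter (fun j => x ∈ V (F j))).card : ℝ)

/-- PTH: a sequence of configurations is a derivation (lines `0, ..., k`, bags `{t, t + 1}`) -/
def T_PTH : Prop :=
  ∀ (X ι : Type) (V : ι → Finset X) (L : Finset (Finset X)) (k : ℕ) (B : ℕ → Finset X)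
    (j : ℕ → Finset ι), 1 ≤ k → (∀ t, t ≤ k → B t ∈ L) → B 0 = ∅ → (∀ t, (j t).card ≤ 1) →
    (∀ t, t < k → ∀ x ∈ B (t + 1), x ∈ B t ∨ ∃ i ∈ j t, x ∈ V i) →
    ∃ R : Derivation V L k 2 1 0, ∃ i, R.A i = B k

/-- a numbering of the values outside of `U` -/
noncomputable def ordU {n : ℕ} (U : Finset (Fin n)) (x : Fin n → Bool) : ℕ :=
  (Fintype.equivFin ({i : Fin n // i ∉ U} → Bool) (fun i => x i.1)).1

/-- the configurations of the upper bound: all points with smaller values outside of `U` are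
excluded and, for the current values outside of `U`, all points which violate a clause of `S` -/
noncomputable def conf {n w : ℕ} (U : Finset (Fin n)) (a : ℕ) (S : List (Cl n w)) :
    Finset (Fin n → Bool) :=
  univ.filter (fun x => ordU U x < a ∨ (ordU U x = a ∧ ∃ c ∈ S, x ∈ VC c))

/-- the family of the configurations -/
noncomputable def Lup (n w : ℕ) (U : Finset (Fin n)) : ℕ → Finset (Finset (Fin n → Bool))
  | 0 => (range (2 ^ n + 1)).image (fun a => conf (w := w) U a [])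
  | k + 1 => Lup n w U k ∪ (Lup n w U k ×ˢ (range (2 ^ n + 1) ×ˢ (univ : Finset (Cl n w)))).image
      (fun s => s.1 ∪ univ.filter (fun x => ordU U x = s.2.1 ∧ x ∈ VC s.2.2))

/-- the clause is used for the upper bound: at most `u` of its variables are in `U` -/
def Slim {n w : ℕ} (U : Finset (Fin n)) (u : ℕ) (c : Cl n w) : Prop := (c.1.1 ∩ U).card ≤ u

/-- UPR: most random formulas are easy on the cells given by the values outside of `U`: every point
violates a slim clause and every cell meets at most `Q` slim clauses -/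
def T_UPR : Prop :=
  ∀ (n w u C Q : ℕ) (U : Finset (Fin n)), 1 ≤ n → w ≤ n →
    -- a random clause is slim with probability at least `1 - |U| / n * w / (u + 1) ≥ 4 / C`
    n * (u + 1) * 4 + C * (U.card * w) ≤ C * (n * (u + 1)) →
    8 * (C * n) * 2 ^ u ≤ Q → n + 4 ≤ Q →
    ∃ B : Finset (Fin (C * n * 2 ^ w) → Cl n w),
      4 * B.card ≤ Fintype.card (Cl n w) ^ (C * n * 2 ^ w) ∧
      ∀ F, F ∉ B → (∀ x, ∃ j, Slim U u (F j) ∧ x ∈ VC (F j)) ∧
        ∀ x : Fin n → Bool, ({j | Slim U u (F j) ∧ ∀ i ∈ (F j).1.1, i ∉ U → x i = (F j).2 i} :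
          Set (Fin (C * n * 2 ^ w))).ncard ≤ Q

/-- UPC: the construction of the upper bound -/
def T_UPC : Prop :=
  ∀ (n w u r Q : ℕ) (U : Finset (Fin n)) (F : Fin r → Cl n w),
    (∀ x, ∃ j, Slim U u (F j) ∧ x ∈ VC (F j)) →
    (∀ x : Fin n → Bool, ({j | Slim U u (F j) ∧ ∀ i ∈ (F j).1.1, i ∉ U → x i = (F j).2 i} :
      Set (Fin r)).ncard ≤ Q) →
    ∃ (N : ℕ) (R : Derivation (fun j => VC (F j)) (Lup n w U Q) N 2 1 0),
      N ≤ 2 ^ (n - U.card) * (Q + 1) ∧ ∃ i, R.A i = univ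

/-- UPL: the number of the configurations -/
def T_UPL : Prop :=
  ∀ (n w k : ℕ) (U : Finset (Fin n)), 1 ≤ n → w ≤ n → (Lup n w U k).card ≤ 2 ^ (4 * n * (k + 1) + 1)

end Pool.Agent.H40.TW
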