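import Pool.Agent.H40.TW.Targets4

/-!
# From derivations with two lines in each bag to machines without stack (module NFU)
-/

namespace Pool.Agent.H40.TW

open Finset Pool.Agent.H80.SH

/-- three different elements -/
lemma three_card {T : ℕ} {S : Finset (Fin T)} {a b c : Fin T} (ha : a ∈ S) (hb : b ∈ S)
    (hc : c ∈ S) (hab : a ≠ b) (hac : a ≠ c) (hbc : b ≠ c) (h : S.card ≤ 2) : False := by
  classical
  have h1 : ({a, b, c} : Finset (Fin T)) ⊆ S := by
    intro x hx
    simp only [mem_insert, mem_singleton] at hx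
    rcases hx with rfl | rfl | rfl <;> assumption
  have h2 := card_le_card h1
  rw [card_insert_of_notMem (by simp [hab, hac]), card_insert_of_notMem (by simp [hbc]),
    card_singleton] at h2
  omega

lemma exists_dec {X : Type} [DecidableEq X] (L : Finset (Finset X)) (s : ℕ) (hs : L.card ≤ s) :
    ∃ dec : Fin s → Finset X, ∀ A ∈ L, ∃ a, dec a = A := by
  classical
  refine ⟨fun a => if h : a.1 < L.card then (L.equivFin.symm ⟨a.1, h⟩).1 else ∅, ?_⟩
  intro A hA
  refine ⟨⟨(L.equivFin ⟨A, hA⟩).1, lt_of_lt_of_le (L.equivFin ⟨A, hA⟩).2 hs⟩, ?_⟩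
  have h : (L.equivFin ⟨A, hA⟩).1 < L.card := (L.equivFin ⟨A, hA⟩).2
  simp [h]

theorem nfu : T_NFU := by
  classical
  intro X α _ _ V L s hs
  obtain ⟨dec, hdec⟩ := exists_dec (insert ∅ L) s ((card_insert_le _ _).trans hs)
  obtain ⟨st, hst⟩ := hdec ∅ (mem_insert_self _ _)
  let A : Machine α (Fin s) Empty :=
    { start := st
      acc := fun a => dec a = univ
      move := fun a o b => ∀ x ∈ dec b, x ∈ dec a ∨ ∃ c ∈ o, x ∈ V c
      push := fun _ _ _ => False
      pop := fun _ _ _ => False }
  have hcomp : ∀ l q σ, A.Comp l q σ → ∀ x ∈ dec q, ∃ c ∈ l, x ∈ V c := by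
    intro l q σ h
    induction h with
    | start =>
      intro x hx
      change x ∈ dec st at hx
      rw [hst] at hx
      exact absurd hx (notMem_empty _)
    | move o q' h1 h2 ih =>
      intro x hx
      rcases h2 x hx with h3 | ⟨c, hc, h3⟩
      · obtain ⟨c, hc, h4⟩ := ih x h3
        exact ⟨c, List.mem_append.2 (Or.inl hc), h4⟩
      · exact ⟨c, List.mem_append.2 (Or.inr (Option.mem_toList.2 hc)), h3⟩
    | push g q' h1 h2 ih => exact absurd h2 id
    | pop g q' h1 h2 ih => exact absurd h2 id
  refine ⟨A, ?_, ?_⟩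
  · rintro l ⟨q, σ, h1, h2⟩ x
    refine hcomp l q σ h1 x ?_
    change dec q = univ at h2
    rw [h2]
    exact mem_univ x
  intro ι F N R hR
  have hoff : ∀ i : Fin R.T, ∃ o : Option ι, (∀ x ∈ R.A i, (∃ a ∈ R.P i, x ∈ R.A a) ∨
      ∃ j ∈ o, x ∈ V (F j)) := by
    intro i
    have hJ := R.card_J (R.home i)
    have hE := R.card_E (R.home i)
    have hE0 : R.E (R.home i) = ∅ := card_eq_zero.1 (Nat.le_zero.1 hE)
    rcases Nat.le_one_iff_eq_zero_or_eq_one.1 hJ with h | h
    · refine ⟨none, ?_⟩
      intro x hx
      rcases R.sound i x hx with h1 | ⟨j, hj, -⟩ | h1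
      · exact Or.inl h1
      · rw [card_eq_zero.1 h] at hj
        exact absurd hj (notMem_empty _)
      · rw [hE0] at h1
        exact absurd h1 (notMem_empty _)
    · obtain ⟨j, hj⟩ := card_eq_one.1 h
      refine ⟨some j, ?_⟩
      intro x hx
      rcases R.sound i x hx with h1 | ⟨j', hj', h1⟩ | h1
      · exact Or.inl h1
      · rw [hj, mem_singleton] at hj'
        subst hj'
        exact Or.inr ⟨j', rfl, h1⟩
      · rw [hE0] at h1
        exact absurd h1 (notMem_empty _)
  have hmain : ∀ k : ℕ, ∀ i : Fin R.T, i.1 = k → ∃ (l : List α) (a : Fin s), A.Comp l a [] ∧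
      dec a = R.A i ∧ (∀ c ∈ l, ∃ j, F j = c) ∧
      l.length ≤ (univ.filter (fun c => c ≤ i ∧ R.P c ≠ ∅)).card + 1 := by
    intro k
    induction k using Nat.strong_induction_on with
    | _ k ih =>
      intro i hik
      obtain ⟨a, ha⟩ := hdec (R.A i) (mem_insert_of_mem (R.mem i))
      obtain ⟨o, ho⟩ := hoff i
      have hread : ∀ c ∈ (o.map F).toList, ∃ j, F j = c := by
        intro c hc
        rw [Option.mem_toList, Option.map_eq_some_iff] at hc
        obtain ⟨j, -, hj⟩ := hc
        exact ⟨j, hj⟩
      have hlen : (o.map F).toList.length ≤ 1 := by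
        cases o <;> simp
      by_cases hP : R.P i = ∅
      · refine ⟨[] ++ (o.map F).toList, a, Machine.Comp.move (o.map F) a Machine.Comp.start ?_, ha,
          ?_, ?_⟩
        · intro x hx
          right
          rw [ha] at hx
          rcases ho x hx with ⟨b, hb, -⟩ | ⟨j, hj, hx⟩
          · rw [hP] at hb
            exact absurd hb (notMem_empty _)
          · exact ⟨F j, Option.map_eq_some_iff.2 ⟨j, hj, rfl⟩, hx⟩
        · rw [List.nil_append]
          exact hread
        · rw [List.nil_append]
          omega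
      · obtain ⟨b, hb⟩ := nonempty_iff_ne_empty.2 hP
        have hbi : b < i := R.lt i b hb
        obtain ⟨l, a', hl1, hl2, hl3, hl4⟩ := ih b.1 (by rw [← hik]; exact hbi) b rfl
        have hall : ∀ c ∈ R.P i, c = b := by
          intro c hc
          by_contra hcb
          have hci : c < i := R.lt i c hc
          exact three_card (R.home_mem i) (R.prem_mem i hb) (R.prem_mem i hc)
            (ne_of_gt hbi) (ne_of_gt hci) (Ne.symm hcb) (R.card_bag _)
        refine ⟨l ++ (o.map F).toList, a, Machine.Comp.move (o.map F) a hl1 ?_, ha, ?_, ?_⟩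
        · intro x hx
          rw [ha] at hx
          rcases ho x hx with ⟨c, hc, h1⟩ | ⟨j, hj, hx⟩
          · left
            rw [hl2, ← hall c hc]
            exact h1
          · right
            exact ⟨F j, Option.map_eq_some_iff.2 ⟨j, hj, rfl⟩, hx⟩
        · intro c hc
          rcases List.mem_append.1 hc with h | h
          · exact hl3 c h
          · exact hread c h
        · rw [List.length_append]
          have h1 : (univ.filter (fun c => c ≤ b ∧ R.P c ≠ ∅)) ⊂
              (univ.filter (fun c => c ≤ i ∧ R.P c ≠ ∅)) := by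
            refine ssubset_iff_of_subset ?_ |>.2 ⟨i, ?_, ?_⟩
            · intro c hc
              rw [mem_filter] at hc ⊢
              exact ⟨mem_univ _, hc.2.1.trans hbi.le, hc.2.2⟩
            · rw [mem_filter]
              exact ⟨mem_univ _, le_refl _, hP⟩
            · rw [mem_filter]
              rintro ⟨-, h, -⟩
              exact absurd hbi (not_lt.2 h)
          have h2 := card_lt_card h1
          omega
  obtain ⟨i, hi⟩ := hR
  obtain ⟨l, a, hl1, hl2, hl3, hl4⟩ := hmain i.1 i rfl
  refine ⟨l, ⟨a, [], hl1, ?_⟩, hl3, ?_⟩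
  · change dec a = univ
    rw [hl2, hi]
  · have h1 : (univ.filter (fun c => c ≤ i ∧ R.P c ≠ ∅)).card ≤ N := by
      have h2 : (univ.filter (fun c => c ≤ i ∧ R.P c ≠ ∅)).card ≤ (univ : Finset (Fin N)).card := by
        refine card_le_card_of_injOn R.home (fun _ _ => mem_univ _) ?_
        intro c hc d hd hcd
        rw [mem_coe, mem_filter] at hc hd
        by_contra hne
        obtain ⟨x, hx⟩ := nonempty_iff_ne_empty.2 hc.2.2
        obtain ⟨y, hy⟩ := nonempty_iff_ne_empty.2 hd.2.2
        have hxc : x < c := R.lt c x hx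
        have hyd : y < d := R.lt d y hy
        rcases lt_trichotomy c d with h | h | h
        · refine three_card (R.prem_mem c hx) (R.home_mem c) (by rw [hcd]; exact R.home_mem d)
            (ne_of_lt hxc) (ne_of_lt (hxc.trans h)) hne (R.card_bag _)
        · exact hne h
        · refine three_card (R.prem_mem d hy) (R.home_mem d) (by rw [← hcd]; exact R.home_mem c)
            (ne_of_lt hyd) (ne_of_lt (hyd.trans h)) (Ne.symm hne) (R.card_bag _)
      rw [card_univ, Fintype.card_fin] at h2
      exact h2
    omega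

end Pool.Agent.H40.TW
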