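import Pool.Agent.H40.TW.Targets4

/-!
# From pushdown machines to tree-like derivations (module PDT)
-/

namespace Pool.Agent.H40.TW

open Finset

/-- balanced computations -/
inductive Bal {α Q Γ : Type} (A : Machine α Q Γ) : List α → Q → Q → Prop
  | refl (a : Q) : Bal A [] a a
  | move {l a b} (o : Option α) (c : Q) : Bal A l a b → A.move b o c → Bal A (l ++ o.toList) a c
  | pp {l a b l' c} (g : Γ) (b' d : Q) : Bal A l a b → A.push b g b' → Bal A l' b' c →
      A.pop c g d → Bal A (l ++ l') a d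

/-- computations, with the balanced parts -/
inductive Pre {α Q Γ : Type} (A : Machine α Q Γ) : List α → Q → List Γ → Prop
  | nil {l q} : Bal A l A.start q → Pre A l q []
  | cons {l b σ l' q} (g : Γ) (a : Q) : Pre A l b σ → A.push b g a → Bal A l' a q →
      Pre A (l ++ l') q (g :: σ)

section
variable {α Q Γ : Type} {A : Machine α Q Γ}

lemma comp_bal {l' : List α} {b q : Q} (h : Bal A l' b q) :
    ∀ (l : List α) (σ : List Γ), A.Comp l b σ → A.Comp (l ++ l') q σ := by
  induction h with
  | refl a =>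
    intro l σ h
    rw [List.append_nil]
    exact h
  | move o c _ h2 ih =>
    intro l σ h
    rw [← List.append_assoc]
    exact Machine.Comp.move o c (ih l σ h) h2
  | pp g b' d _ h2 _ h4 ih1 ih2 =>
    intro l σ h
    rw [← List.append_assoc]
    exact Machine.Comp.pop g d (ih2 _ _ (Machine.Comp.push g b' (ih1 l σ h) h2)) h4

lemma bal_comp {l : List α} {q : Q} (h : Bal A l A.start q) : A.Comp l q [] := by
  have := comp_bal h [] [] Machine.Comp.start
  rwa [List.nil_append] at this

lemma comp_of_pre {l : List α} {q : Q} {σ : List Γ} (h : Pre A l q σ) : A.Comp l q σ := by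
  induction h with
  | nil h => exact bal_comp h
  | cons g a _ h2 h3 ih => exact comp_bal h3 _ _ (Machine.Comp.push g a ih h2)

lemma pre_of_comp {l : List α} {q : Q} {σ : List Γ} (h : A.Comp l q σ) : Pre A l q σ := by
  induction h with
  | start => exact Pre.nil (Bal.refl _)
  | move o q' _ h2 ih =>
    cases ih with
    | nil h => exact Pre.nil (Bal.move o q' h h2)
    | cons g a h3 h4 h5 =>
      rw [List.append_assoc]
      exact Pre.cons g a h3 h4 (Bal.move o q' h5 h2)
  | push g q' _ h2 ih =>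
    have := Pre.cons g q' ih h2 (Bal.refl q')
    rwa [List.append_nil] at this
  | pop g q' _ h2 ih =>
    cases ih with
    | cons _ a h3 h4 h5 =>
      cases h3 with
      | nil h => exact Pre.nil (Bal.pp g a q' h h4 h5 h2)
      | cons g' a' h6 h7 h8 =>
        rw [List.append_assoc]
        exact Pre.cons g' a' h6 h7 (Bal.pp g a q' h8 h4 h5 h2)

end

open Classical in
/-- the line of a pair of states -/
noncomputable def lineY {X α Q Γ : Type} [Fintype X] (V : α → Finset X) (A : Machine α Q Γ)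
    (a b : Q) : Finset X :=
  univ.filter (fun x => ∀ l, Bal A l a b → ∃ c ∈ l, x ∈ V c)

open Classical in
/-- the line of a state -/
noncomputable def lineZ {X α Q Γ : Type} [Fintype X] (V : α → Finset X) (A : Machine α Q Γ)
    (b : Q) : Finset X :=
  univ.filter (fun x => ∀ l σ, A.Comp l b σ → ∃ c ∈ l, x ∈ V c)

/-- the family of the lines -/
noncomputable def famL {X α Q Γ : Type} [Fintype X] [DecidableEq X] [Fintype Q] (V : α → Finset X)
    (A : Machine α Q Γ) : Finset (Finset X) :=
  (univ : Finset (Q × Q)).image (fun s => lineY V A s.1 s.2) ∪ (univ : Finset Q).image (lineZ V A)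

section
variable {X α Q Γ ι : Type} [Fintype X] {V : α → Finset X} {A : Machine α Q Γ}

lemma mem_lineY {a b : Q} {x : X} :
    x ∈ lineY V A a b ↔ ∀ l, Bal A l a b → ∃ c ∈ l, x ∈ V c := by
  simp [lineY]

lemma mem_lineZ {b : Q} {x : X} :
    x ∈ lineZ V A b ↔ ∀ l σ, A.Comp l b σ → ∃ c ∈ l, x ∈ V c := by
  simp [lineZ]

lemma lineY_empty {l : List α} {a b : Q} (h : Bal A l a b) (hl : l = []) :
    lineY V A a b = ∅ := by
  rw [eq_empty_iff_forall_notMem]
  intro x hx
  obtain ⟨c, hc, -⟩ := mem_lineY.1 hx l h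
  rw [hl] at hc
  exact absurd hc (by simp)

lemma lineZ_empty {l : List α} {b : Q} {σ : List Γ} (h : A.Comp l b σ) (hl : l = []) :
    lineZ V A b = ∅ := by
  rw [eq_empty_iff_forall_notMem]
  intro x hx
  obtain ⟨c, hc, -⟩ := mem_lineZ.1 hx l σ h
  rw [hl] at hc
  exact absurd hc (by simp)

variable [DecidableEq X] [Fintype Q]

lemma lineY_mem (a b : Q) : lineY V A a b ∈ famL V A :=
  mem_union_left _ (mem_image.2 ⟨(a, b), mem_univ _, rfl⟩)

lemma lineZ_mem (b : Q) : lineZ V A b ∈ famL V A :=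
  mem_union_right _ (mem_image.2 ⟨b, mem_univ _, rfl⟩)

/-- one premise -/
lemma step_one {F : ι → α} {W B : Finset X} {l : List α} {o : Option α}
    (ho : ∀ c ∈ o, ∃ j, F j = c) (hW : W ∈ famL V A)
    (hWB : ∀ x ∈ W, x ∈ B ∨ ∃ c ∈ o, x ∈ V c)
    (h0 : l = [] → B = ∅) (hBl : l ++ o.toList ≠ [])
    (hB : l ≠ [] → ∀ W ∈ famL V A, W ⊆ B → ∃ s, s + 1 ≤ 2 * l.length ∧
      TL (fun j => V (F j)) (famL V A) s W) (hBm : B ∈ famL V A) :
    ∃ s, s + 1 ≤ 2 * (l ++ o.toList).length ∧ TL (fun j => V (F j)) (famL V A) s W := by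
  cases o with
  | none =>
    have hl : l ≠ [] := by
      intro h
      apply hBl
      rw [h]
      rfl
    obtain ⟨s, hs, ht⟩ := hB hl W hW (by
      intro x hx
      rcases hWB x hx with h | ⟨c, hc, -⟩
      · exact h
      · exact absurd hc (by simp))
    refine ⟨s, ?_, ht⟩
    simpa using hs
  | some c =>
    obtain ⟨j, hj⟩ := ho c rfl
    by_cases hl : l = []
    · refine ⟨1, ?_, TL.leaf (some j) hW ?_⟩
      · simp
      · intro x hx
        rcases hWB x hx with h | ⟨d, hd, h⟩
        · rw [h0 hl] at h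
          exact absurd h (notMem_empty _)
        · have hdc : d = c := (Option.some.inj hd).symm
          subst hdc
          exact ⟨j, rfl, by rw [hj]; exact h⟩
    · obtain ⟨s, hs, ht⟩ := hB hl B hBm (Subset.refl B)
      refine ⟨s + 1, ?_, TL.one (some j) ht hW ?_⟩
      · rw [List.length_append]
        simp only [Option.toList_some, List.length_singleton]
        omega
      · intro x hx
        rcases hWB x hx with h | ⟨d, hd, h⟩
        · exact Or.inl h
        · have hdc : d = c := (Option.some.inj hd).symm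
          subst hdc
          exact Or.inr ⟨j, rfl, by rw [hj]; exact h⟩

/-- two premises -/
lemma step_two {F : ι → α} {W B C : Finset X} {l l' : List α} (hW : W ∈ famL V A)
    (hWB : ∀ x ∈ W, x ∈ B ∨ x ∈ C)
    (h0 : l = [] → B = ∅) (h0' : l' = [] → C = ∅) (hBl : l ++ l' ≠ [])
    (hB : l ≠ [] → ∀ W ∈ famL V A, W ⊆ B → ∃ s, s + 1 ≤ 2 * l.length ∧
      TL (fun j => V (F j)) (famL V A) s W) (hBm : B ∈ famL V A)
    (hC : l' ≠ [] → ∀ W ∈ famL V A, W ⊆ C → ∃ s, s + 1 ≤ 2 * l'.length ∧
      TL (fun j => V (F j)) (famL V A) s W) (hCm : C ∈ famL V A) :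
    ∃ s, s + 1 ≤ 2 * (l ++ l').length ∧ TL (fun j => V (F j)) (famL V A) s W := by
  rw [List.length_append]
  by_cases hl : l = []
  · have hl' : l' ≠ [] := by
      intro h
      apply hBl
      rw [hl, h]
      rfl
    obtain ⟨s, hs, ht⟩ := hC hl' W hW (by
      intro x hx
      rcases hWB x hx with h | h
      · rw [h0 hl] at h
        exact absurd h (notMem_empty _)
      · exact h)
    exact ⟨s, by omega, ht⟩
  · by_cases hl' : l' = []
    · obtain ⟨s, hs, ht⟩ := hB hl W hW (by
        intro x hx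
        rcases hWB x hx with h | h
        · exact h
        · rw [h0' hl'] at h
          exact absurd h (notMem_empty _))
      exact ⟨s, by omega, ht⟩
    · obtain ⟨s, hs, ht⟩ := hB hl B hBm (Subset.refl B)
      obtain ⟨s', hs', ht'⟩ := hC hl' C hCm (Subset.refl C)
      exact ⟨s + s' + 1, by omega, TL.two ht ht' hW hWB⟩

lemma tl_bal {F : ι → α} {l : List α} {a b : Q} (h : Bal A l a b) :
    (∀ c ∈ l, ∃ j, F j = c) → l ≠ [] → ∀ W ∈ famL V A, W ⊆ lineY V A a b →
      ∃ s, s + 1 ≤ 2 * l.length ∧ TL (fun j => V (F j)) (famL V A) s W := by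
  induction h with
  | refl a =>
    intro _ h
    exact absurd rfl h
  | @move l a b o c h1 h2 ih =>
    intro hF hne W hW hWY
    refine step_one (B := lineY V A a b) (fun c hc => hF c (List.mem_append.2 (Or.inr
      (Option.mem_toList.2 hc)))) hW ?_ (lineY_empty h1) hne
      (fun hl => ih (fun c hc => hF c (List.mem_append.2 (Or.inl hc))) hl) (lineY_mem a b)
    intro x hx
    by_cases ho : ∃ c ∈ o, x ∈ V c
    · exact Or.inr ho
    · left
      rw [mem_lineY]
      intro l' hl'
      obtain ⟨d, hd, hxd⟩ := mem_lineY.1 (hWY hx) _ (Bal.move o c hl' h2)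
      rcases List.mem_append.1 hd with h | h
      · exact ⟨d, h, hxd⟩
      · exact absurd ⟨d, Option.mem_toList.1 h, hxd⟩ ho
  | @pp l a b l' c g b' d h1 h2 h3 h4 ih1 ih2 =>
    intro hF hne W hW hWY
    refine step_two (B := lineY V A a b) (C := lineY V A b' c) hW ?_ (lineY_empty h1)
      (lineY_empty h3) hne (fun hl => ih1 (fun c hc => hF c (List.mem_append.2 (Or.inl hc))) hl)
      (lineY_mem a b) (fun hl => ih2 (fun c hc => hF c (List.mem_append.2 (Or.inr hc))) hl)
      (lineY_mem b' c)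
    intro x hx
    by_contra hcon
    rw [not_or, mem_lineY, mem_lineY] at hcon
    obtain ⟨hc1, hc2⟩ := hcon
    push Not at hc1 hc2
    obtain ⟨l1, hl1, hv1⟩ := hc1
    obtain ⟨l2, hl2, hv2⟩ := hc2
    obtain ⟨e, he, hxe⟩ := mem_lineY.1 (hWY hx) _ (Bal.pp g b' d hl1 h2 hl2 h4)
    rcases List.mem_append.1 he with h | h
    · exact hv1 e h hxe
    · exact hv2 e h hxe

lemma tl_pre {F : ι → α} {l : List α} {q : Q} {σ : List Γ} (h : Pre A l q σ) :
    (∀ c ∈ l, ∃ j, F j = c) → l ≠ [] → ∀ W ∈ famL V A, W ⊆ lineZ V A q →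
      ∃ s, s + 1 ≤ 2 * l.length ∧ TL (fun j => V (F j)) (famL V A) s W := by
  induction h with
  | @nil l q h =>
    intro hF hne W hW hWZ
    refine tl_bal h hF hne W hW (hWZ.trans ?_)
    intro x hx
    rw [mem_lineY]
    intro l' hl'
    exact mem_lineZ.1 hx l' [] (bal_comp hl')
  | @cons l b σ l' q g a h1 h2 h3 ih =>
    intro hF hne W hW hWZ
    refine step_two (B := lineZ V A b) (C := lineY V A a q) hW ?_
      (lineZ_empty (comp_of_pre h1)) (lineY_empty h3) hne
      (fun hl => ih (fun c hc => hF c (List.mem_append.2 (Or.inl hc))) hl) (lineZ_mem b)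
      (fun hl => tl_bal h3 (fun c hc => hF c (List.mem_append.2 (Or.inr hc))) hl)
      (lineY_mem a q)
    intro x hx
    by_contra hcon
    rw [not_or, mem_lineZ, mem_lineY] at hcon
    obtain ⟨hc1, hc2⟩ := hcon
    push Not at hc1 hc2
    obtain ⟨l1, σ1, hl1, hv1⟩ := hc1
    obtain ⟨l2, hl2, hv2⟩ := hc2
    obtain ⟨e, he, hxe⟩ := mem_lineZ.1 (hWZ hx) _ _
      (comp_bal hl2 _ _ (Machine.Comp.push g a hl1 h2))
    rcases List.mem_append.1 he with h | h
    · exact hv1 e h hxe
    · exact hv2 e h hxe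

end

theorem pdt : T_PDT := by
  classical
  intro X α Q Γ _ _ _ _ V A hA
  refine ⟨famL V A, ?_, ?_⟩
  · refine (card_union_le _ _).trans (Nat.add_le_add ?_ ?_)
    · refine card_image_le.trans (le_of_eq ?_)
      rw [card_univ, Fintype.card_prod, sq]
    · exact card_image_le.trans (le_of_eq card_univ)
  · rintro ι F l ⟨q, σ, hc, hq⟩ hF
    have hne : l ≠ [] := by
      intro h
      obtain ⟨x⟩ := ‹Nonempty X›
      obtain ⟨c, hcl, -⟩ := hA l ⟨q, σ, hc, hq⟩ x
      rw [h] at hcl
      exact absurd hcl (by simp)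
    obtain ⟨s, hs, ht⟩ := tl_pre (V := V) (F := F) (pre_of_comp hc) hF hne (lineZ V A q)
      (lineZ_mem q) (Subset.refl _)
    refine ⟨s, by omega, ?_⟩
    have hZ : lineZ V A q = univ := by
      rw [eq_univ_iff_forall]
      intro x
      rw [mem_lineZ]
      intro l' σ' h'
      exact hA l' ⟨q, σ', h', hq⟩ x
    rwa [hZ] at ht

end Pool.Agent.H40.TW
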