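import Pool.Agent.H40.TW.Final5
import Pool.Agent.H40.TW.PDT
import Pool.Agent.H40.TW.NFU
import Pool.Agent.H1.TW.TRE

/-!
# The exact tradeoff between time and memory for CNF-SAT: verifiers and machines
-/

namespace Pool.Agent.H40.TW

theorem main4 : MachineStatement :=
  fin4 Pool.Agent.H1.TW.tre pdt nfu curve2'

theorem main5 : VerifierStatement :=
  fin5 Pool.Agent.H1.TW.tre pdt nfu curve2'

end Pool.Agent.H40.TW
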