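import Pool.Agent.H40.TW.Targets3
import Pool.Agent.H80.SH.Fin
import Pool.Agent.H1.TW.DEN

/-!
# From concrete clauses to clauses (CLA)
-/

namespace Pool.Agent.H40.TW

open Finset Pool.Agent.H80.SH

section
variable {n w : ℕ}

lemma mem_clausesOf {C : Clause n} :
    C ∈ clausesOf n w ↔ C.card = w ∧ (C.image Prod.fst).card = w := by
  unfold clausesOf
  rw [mem_filter]
  simp

lemma toClause_mem (c : Cl n w) : toClause c ∈ clausesOf n w :=
  mem_clausesOf.2 ⟨card_toClause c, card_fst_toClause c⟩

/-- the concrete clauses of a clause -/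
lemma fiber {C : Clause n} (hC : C ∈ clausesOf n w) (hw : w ≤ n) :
    (univ.filter (fun c : Cl n w => toClause c = C)).card = 2 ^ (n - w) := by
  classical
  obtain ⟨h1, h2⟩ := mem_clausesOf.1 hC
  set U : Finset (Fin n) := C.image Prod.fst with hU
  set x : Fin n → Bool := fun i => decide ((i, false) ∈ C) with hx
  have hinj : ∀ i s t, (i, s) ∈ C → (i, t) ∈ C → s = t := by
    intro i s t hs ht
    have h3 : Set.InjOn Prod.fst (C : Set (Fin n × Bool)) := by
      refine card_image_iff.1 ?_
      rw [← hU, h2, h1]
    have := h3 (mem_coe.2 hs) (mem_coe.2 ht) rfl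
    exact (Prod.mk.inj this).2
  have hxi : ∀ i s, (i, s) ∈ C → (!x i) = s := by
    intro i s hs
    cases s with
    | false =>
      have : x i = true := decide_eq_true hs
      rw [this]
      rfl
    | true =>
      have : x i = false := by
        refine decide_eq_false ?_
        intro hcon
        exact absurd (hinj i true false hs hcon) (by simp)
      rw [this]
      rfl
  have key : univ.filter (fun c : Cl n w => toClause c = C) =
      (univ.filter (fun y : Fin n → Bool => ∀ i ∈ U, x i = y i)).image
        (fun y => ((⟨U, h2⟩, y) : Cl n w)) := by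
    ext c
    rw [mem_filter, mem_image]
    constructor
    · rintro ⟨-, hc⟩
      have hcU : c.1.1 = U := by
        rw [hU, ← hc]
        unfold toClause
        rw [image_image]
        have h : (Prod.fst ∘ fun i => (i, !c.2 i)) = (id : Fin n → Fin n) := by
          funext i
          rfl
        rw [h, image_id]
      refine ⟨c.2, mem_filter.2 ⟨mem_univ _, ?_⟩, ?_⟩
      · intro i hi
        have h3 : (i, !c.2 i) ∈ C := by
          rw [← hc]
          unfold toClause
          rw [← hcU] at hi
          exact mem_image.2 ⟨i, hi, rfl⟩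
        have h4 := hxi i _ h3
        cases hxx : x i <;> cases hcc : c.2 i <;> simp_all
      · refine Prod.ext (Subtype.ext hcU.symm) rfl
    · rintro ⟨y, hy, rfl⟩
      rw [mem_filter] at hy
      refine ⟨mem_univ _, ?_⟩
      ext ⟨i, s⟩
      unfold toClause
      rw [mem_image]
      constructor
      · rintro ⟨j, hj, hjs⟩
        obtain ⟨⟨j', t⟩, ht, hjt⟩ := mem_image.1 hj
        have hj' : j' = j := hjt
        subst hj'
        have h3 := hxi j' t ht
        have h4 := hy.2 j' hj
        have h5 : (j', !y j') = (i, s) := hjs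
        rw [← h5, ← h4, h3]
        exact ht
      · intro hs
        have hi : i ∈ U := mem_image.2 ⟨(i, s), hs, rfl⟩
        refine ⟨i, hi, ?_⟩
        change (i, !y i) = (i, s)
        rw [← hy.2 i hi, hxi i s hs]
  rw [key, card_image_of_injective _ (fun a b hab => (Prod.mk.inj hab).2)]
  have h3 := Pool.Agent.H1.TW.card_agree U x
  rw [h2] at h3
  have h4 : 2 ^ n = 2 ^ (n - w) * 2 ^ w := by
    rw [← pow_add]
    congr 1
    omega
  rw [h4] at h3
  exact Nat.eq_of_mul_eq_mul_right (by positivity) h3

lemma card_Cl_eq (hw : w ≤ n) :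
    Fintype.card (Cl n w) = (clausesOf n w).card * 2 ^ (n - w) := by
  classical
  rw [← card_univ, card_eq_sum_card_fiberwise (f := toClause) (t := clausesOf n w)
    (fun c _ => mem_coe.2 (toClause_mem c))]
  rw [sum_congr rfl fun C hC => fiber hC hw, sum_const, smul_eq_mul]

/-- the lifts of a formula -/
lemma card_lifts {r : ℕ} (hw : w ≤ n) (F : Fin r → Clause n) (hF : ∀ j, F j ∈ clausesOf n w) :
    (univ.filter (fun F' : Fin r → Cl n w => ∀ j, toClause (F' j) = F j)).card =
      (2 ^ (n - w)) ^ r := by
  classical
  have h1 : univ.filter (fun F' : Fin r → Cl n w => ∀ j, toClause (F' j) = F j) =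
      Fintype.piFinset (fun j => univ.filter (fun c : Cl n w => toClause c = F j)) := by
    ext F'
    simp [Fintype.mem_piFinset]
  rw [h1, Fintype.card_piFinset, prod_congr rfl fun j _ => fiber (hF j) hw, prod_const, card_univ,
    Fintype.card_fin]

end

theorem cla : T_CLA := by
  classical
  intro n w r c hw B hB
  set B' : Finset (Fin r → Clause n) := univ.filter (fun F => (∀ j, F j ∈ clausesOf n w) ∧
    ∀ F' : Fin r → Cl n w, (∀ j, toClause (F' j) = F j) → F' ∈ B) with hB'
  refine ⟨B', ?_, ?_⟩
  · have h1 : B'.card * (2 ^ (n - w)) ^ r ≤ B.card := by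
      have h2 : (B'.biUnion (fun F => univ.filter
          (fun F' : Fin r → Cl n w => ∀ j, toClause (F' j) = F j))).card =
          B'.card * (2 ^ (n - w)) ^ r := by
        rw [card_biUnion]
        · rw [sum_congr rfl fun F hF => card_lifts hw F (mem_filter.1 hF).2.1, sum_const,
            smul_eq_mul]
        · intro F _ G _ hFG
          rw [Function.onFun, Finset.disjoint_left]
          intro F' h3 h4
          refine hFG (funext fun j => ?_)
          rw [← (mem_filter.1 h3).2 j, ← (mem_filter.1 h4).2 j]
      rw [← h2]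
      refine card_le_card ?_
      intro F' hF'
      obtain ⟨F, hF, hFF'⟩ := mem_biUnion.1 hF'
      exact (mem_filter.1 hF).2.2 F' (mem_filter.1 hFF').2
    have h2 : c * B'.card * (2 ^ (n - w)) ^ r ≤
        (clausesOf n w).card ^ r * (2 ^ (n - w)) ^ r := by
      calc c * B'.card * (2 ^ (n - w)) ^ r = c * (B'.card * (2 ^ (n - w)) ^ r) := by ring
        _ ≤ c * B.card := Nat.mul_le_mul_left _ h1
        _ ≤ Fintype.card (Cl n w) ^ r := hB
        _ = (clausesOf n w).card ^ r * (2 ^ (n - w)) ^ r := by
          rw [card_Cl_eq hw, mul_pow]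
    exact Nat.le_of_mul_le_mul_right h2 (by positivity)
  · intro F hF hFB
    by_contra hcon
    push Not at hcon
    refine hFB (mem_filter.2 ⟨mem_univ _, hF, fun F' hF' => ?_⟩)
    by_contra hno
    obtain ⟨j, hj⟩ := hcon F' hno
    exact hj (hF' j)

end Pool.Agent.H40.TW
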