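import Pool.Agent.H40.TW.Targets

/-!
# The exact tradeoff between time and memory: covering lemmas (COV)
-/

set_option linter.unusedSectionVars false

namespace Pool.Agent.H40.TW

open Finset

section
variable {X ι : Type} [Fintype X] [DecidableEq X] {V : ι → Finset X} {L : Finset (Finset X)}
  {N p q e : ℕ} (R : Derivation V L N p q e)

omit [DecidableEq X] in
lemma mem_LZU {Z U : Finset (Fin N)} {x : X} : x ∈ LZU R Z U ↔
    ∃ i ∈ lines R Z, x ∈ R.A i ∧ (∀ j ∈ lines R Z, j < i → x ∉ R.A j) ∧ R.home i ∈ U := by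
  classical
  unfold LZU
  exact ⟨fun h => (Finset.mem_filter.1 h).2, fun h => Finset.mem_filter.2 ⟨mem_univ _, h⟩⟩

/-- the minimal false line -/
lemma exists_min (W : Finset (Fin R.T)) (x : X) (i : Fin R.T) (hi : i ∈ W) (hx : x ∈ R.A i) :
    ∃ k ∈ W, x ∈ R.A k ∧ (∀ j ∈ W, j < k → x ∉ R.A j) ∧ k ≤ i := by
  classical
  have hne : (W.filter (fun j => x ∈ R.A j)).Nonempty := ⟨i, mem_filter.2 ⟨hi, hx⟩⟩
  obtain ⟨k, hk, hmin⟩ := (W.filter (fun j => x ∈ R.A j)).exists_minimal hne
  rw [mem_filter] at hk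
  refine ⟨k, hk.1, hk.2, ?_, ?_⟩
  · intro j hj hlt hxj
    exact absurd (hmin (mem_filter.2 ⟨hj, hxj⟩) hlt.le) (not_le.2 hlt)
  · rcases le_total k i with h | h
    · exact h
    · exact hmin (mem_filter.2 ⟨hi, hx⟩) h

/-- a line outside of the bags of `Z` is on one side -/
lemma side {Z U : Finset (Fin N)} (hc : Closed R.par Z U) (i : Fin R.T) (hi : i ∉ lines R Z) :
    ∀ t, i ∈ R.bag t → (t ∈ U ↔ R.top i ∈ U) := by
  classical
  have hZ : ∀ t, i ∈ R.bag t → t ∉ Z := by
    intro t ht htZ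
    exact hi (mem_biUnion.2 ⟨t, htZ, ht⟩)
  intro t
  induction t using WellFoundedLT.induction with
  | ind t ih =>
    intro ht
    by_cases htop : t = R.top i
    · rw [htop]
    · obtain ⟨h1, h2⟩ := R.conn t i ht htop
      have hlt : R.par t < t := lt_of_le_of_ne (R.par_le t) h1
      rw [hc.2 t h1 (hZ t ht) (hZ _ h2)]
      exact ih _ hlt h2

/-- from the minimal false line to the child -/
lemma step_min {Z : Finset (Fin N)} {x : X} {k : Fin R.T} (hx : x ∈ R.A k)
    (hmin : ∀ j ∈ lines R Z, j < k → x ∉ R.A j) (hh : R.home k ∈ Z) :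
    (∃ j ∈ R.J (R.home k), x ∈ V j) ∨ x ∈ R.E (R.home k) := by
  rcases R.sound k x hx with ⟨a, ha, hxa⟩ | h
  · exact absurd hxa (hmin a (mem_biUnion.2 ⟨R.home k, hh, R.prem_mem k ha⟩) (R.lt k a ha))
  · exact h

end

theorem cov : T_COV := by
  classical
  intro X ι _ _ V L N p q e R
  refine ⟨?_, ?_, ?_⟩
  · intro Z U c hcl hc x hx
    obtain ⟨i, hi, hxi, hmin, hhome⟩ := (mem_LZU R).1 hx
    have hsub : lines R Z ⊆ lines R (insert c Z) :=
      biUnion_subset_biUnion_of_subset_left _ (subset_insert _ _)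
    obtain ⟨k, hk, hxk, hkmin, hki⟩ := exists_min R (lines R (insert c Z)) x i (hsub hi) hxi
    have hkU : R.home k ∈ U := by
      by_cases hkZ : k ∈ lines R Z
      · have : k = i := by
          rcases lt_or_eq_of_le hki with h | h
          · exact absurd hxk (hmin k hkZ h)
          · exact h
        rw [this]
        exact hhome
      · have hkc : k ∈ R.bag c := by
          unfold lines at hk hkZ
          rw [biUnion_insert, mem_union] at hk
          exact hk.resolve_right hkZ
        have h1 := side R hcl k hkZ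
        exact (h1 _ (R.home_mem k)).2 ((h1 c hkc).1 hc)
    by_cases hkc : R.home k = c
    · right
      have := step_min R hxk hkmin (by rw [hkc]; exact mem_insert_self _ _)
      rw [hkc] at this
      exact this
    · left
      exact (mem_LZU R).2 ⟨k, hk, hxk, hkmin, mem_erase.2 ⟨hkc, hkU⟩⟩
  · intro i x hx
    have hi : i ∈ lines R {R.home i} := mem_biUnion.2 ⟨_, mem_singleton_self _, R.home_mem i⟩
    obtain ⟨k, hk, hxk, hkmin, -⟩ := exists_min R (lines R {R.home i}) x i hi hx
    by_cases hkc : R.home k = R.home i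
    · right
      have := step_min R hxk hkmin (by rw [hkc]; exact mem_singleton_self _)
      rw [hkc] at this
      exact this
    · left
      exact (mem_LZU R).2 ⟨k, hk, hxk, hkmin, mem_erase.2 ⟨hkc, mem_univ _⟩⟩
  · intro Z U₁ U₂
    ext x
    rw [mem_union, mem_LZU, mem_LZU, mem_LZU]
    constructor
    · rintro ⟨i, hi, hx, hm, hh⟩
      rcases mem_union.1 hh with h | h
      · exact Or.inl ⟨i, hi, hx, hm, h⟩
      · exact Or.inr ⟨i, hi, hx, hm, h⟩
    · rintro (⟨i, hi, hx, hm, hh⟩ | ⟨i, hi, hx, hm, hh⟩)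
      · exact ⟨i, hi, hx, hm, mem_union_left _ hh⟩
      · exact ⟨i, hi, hx, hm, mem_union_right _ hh⟩

end Pool.Agent.H40.TW
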