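import Pool.Agent.H40.TW.Targets

/-!
# The exact tradeoff between time and memory: balanced cuts of a forest (CUT)
-/

namespace Pool.Agent.H40.TW

open Finset

/-- the last ancestor reached through `S` -/
def rep {N : ℕ} (par : Fin N → Fin N) (S : Finset (Fin N)) (v : Fin N) : Fin N :=
  if h : par v < v ∧ par v ∈ S then rep par S (par v) else v
termination_by v.val
decreasing_by exact h.1

/-- `v` reaches `u` climbing inside `U` -/
inductive Reach {N : ℕ} (par : Fin N → Fin N) (U : Finset (Fin N)) (u : Fin N) : Fin N → Prop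
  | refl : u ∈ U → Reach par U u u
  | step (v : Fin N) : v ∈ U → par v ≠ v → Reach par U u (par v) → Reach par U u v

section
variable {N : ℕ} {par : Fin N → Fin N}

lemma rep_pos {S : Finset (Fin N)} {v : Fin N} (h1 : par v < v) (h2 : par v ∈ S) :
    rep par S v = rep par S (par v) := by
  rw [rep]
  rw [dif_pos ⟨h1, h2⟩]

lemma rep_neg {S : Finset (Fin N)} {v : Fin N} (h : ¬ (par v < v ∧ par v ∈ S)) :
    rep par S v = v := by
  rw [rep]
  rw [dif_neg h]

lemma rep_spec {S U : Finset (Fin N)} (hSU : S ⊆ U) :
    ∀ v, v ∈ S → rep par S v ∈ S ∧ Reach par U (rep par S v) v := by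
  intro v
  induction v using WellFoundedLT.induction with
  | ind v ih =>
    intro hv
    by_cases h : par v < v ∧ par v ∈ S
    · rw [rep_pos h.1 h.2]
      obtain ⟨h1, h2⟩ := ih _ h.1 h.2
      exact ⟨h1, Reach.step v (hSU hv) h.1.ne h2⟩
    · rw [rep_neg h]
      exact ⟨hv, Reach.refl (hSU hv)⟩

lemma not_reach {U : Finset (Fin N)} {c : Fin N} (hle : ∀ t, par t ≤ t) :
    ∀ v, v ∈ U.erase c → rep par (U.erase c) v < c → ¬ Reach par U c v := by
  intro v
  induction v using WellFoundedLT.induction with
  | ind v ih =>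
    intro hv hlt hr
    cases hr with
    | refl h => exact (mem_erase.1 hv).1 rfl
    | step _ hvU hne hr =>
      have h1 : par v < v := lt_of_le_of_ne (hle v) hne
      have hpU : par v ∈ U := by
        cases hr with
        | refl h => exact h
        | step _ h _ _ => exact h
      by_cases hpc : par v = c
      · rw [rep_neg (by rw [hpc]; simp)] at hlt
        rw [hpc] at h1
        exact lt_asymm h1 hlt
      · have hpS : par v ∈ U.erase c := mem_erase.2 ⟨hpc, hpU⟩
        rw [rep_pos h1 hpS] at hlt
        exact ih _ h1 hpS hlt hr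

end

/-- grouping -/
lemma group {N : ℕ} (S : Finset (Fin N)) (f : Fin N → Fin N) (u : ℕ) (hS : S.card ≤ u)
    (h : ∀ g, 3 * (S.filter (fun v => f v = g)).card ≤ 2 * u) :
    ∃ G : Finset (Fin N), 3 * (S.filter (fun v => f v ∈ G)).card ≤ 2 * u ∧
      3 * (S.filter (fun v => f v ∉ G)).card ≤ 2 * u := by
  classical
  have hadd : ∀ G : Finset (Fin N), (S.filter (fun v => f v ∈ G)).card +
      (S.filter (fun v => f v ∉ G)).card = S.card := fun G =>
    Finset.card_filter_add_card_filter_not _
  have hne : ((univ : Finset (Finset (Fin N))).filter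
      (fun G => 3 * (S.filter (fun v => f v ∈ G)).card ≤ 2 * u)).Nonempty :=
    ⟨∅, by simp⟩
  obtain ⟨G, hG, hmax⟩ := exists_max_image _ (fun G => (S.filter (fun v => f v ∈ G)).card) hne
  rw [mem_filter] at hG
  by_cases hr : 3 * (S.filter (fun v => f v ∉ G)).card ≤ 2 * u
  · exact ⟨G, hG.2, hr⟩
  · have hpos : 0 < (S.filter (fun v => f v ∉ G)).card := by omega
    obtain ⟨v, hv⟩ := card_pos.1 hpos
    rw [mem_filter] at hv
    have h1 := hadd G
    -- adding the group of `v`
    have h2 : (S.filter (fun a => f a ∈ insert (f v) G)).card =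
        (S.filter (fun a => f a ∈ G)).card + (S.filter (fun a => f a = f v)).card := by
      rw [← card_union_of_disjoint]
      · congr 1
        ext a
        simp only [mem_filter, mem_insert, mem_union]
        tauto
      · rw [disjoint_filter]
        intro a _ ha hb
        exact hv.2 (hb ▸ ha)
    have h3 : ¬ 3 * (S.filter (fun a => f a ∈ insert (f v) G)).card ≤ 2 * u := by
      intro hcon
      have := hmax (insert (f v) G) (mem_filter.2 ⟨mem_univ _, hcon⟩)
      have hp : 0 < (S.filter (fun a => f a = f v)).card :=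
        card_pos.2 ⟨v, mem_filter.2 ⟨hv.1, rfl⟩⟩
      omega
    refine ⟨{f v}, ?_, ?_⟩
    · have := h (f v)
      simpa only [mem_singleton] using this
    · have h4 := hadd {f v}
      simp only [mem_singleton] at h4 ⊢
      omega

theorem cut : T_CUT := by
  classical
  intro N par Z U hle hcl hne
  -- the choice of `c`
  obtain ⟨c, hcU, hc⟩ : ∃ c ∈ U, ∀ g ∈ U.erase c,
      3 * ((U.erase c).filter (fun v => rep par (U.erase c) v = g)).card ≤ 2 * U.card := by
    have hD : ∀ (c g : Fin N), 3 * (U.filter (fun v => Reach par U g v)).card ≤ U.card →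
        3 * ((U.erase c).filter (fun v => rep par (U.erase c) v = g)).card ≤ 2 * U.card := by
      intro c g hg
      have : ((U.erase c).filter (fun v => rep par (U.erase c) v = g)).card ≤
          (U.filter (fun v => Reach par U g v)).card := by
        refine card_le_card ?_
        intro v hv
        rw [mem_filter] at hv ⊢
        refine ⟨(mem_erase.1 hv.1).2, ?_⟩
        have := (rep_spec (par := par) (erase_subset c U) v hv.1).2
        rw [hv.2] at this
        exact this
      omega
    by_cases hex : (U.filter (fun u => U.card < 3 * (U.filter (fun v => Reach par U u v)).card)).Nonempty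
    · obtain ⟨c, hc, hmax⟩ := exists_max_image _ (fun u => u) hex
      rw [mem_filter] at hc
      refine ⟨c, hc.1, ?_⟩
      intro g hg
      rw [mem_erase] at hg
      rcases lt_or_gt_of_ne hg.1 with hlt | hgt
      · have hle2 : ((U.erase c).filter (fun v => rep par (U.erase c) v = g)).card +
            (U.filter (fun v => Reach par U c v)).card ≤ U.card := by
          rw [← card_union_of_disjoint]
          · refine card_le_card ?_
            intro v hv
            rcases mem_union.1 hv with h | h
            · exact (mem_erase.1 (mem_filter.1 h).1).2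
            · exact (mem_filter.1 h).1
          · rw [Finset.disjoint_left]
            intro v hv hv2
            rw [mem_filter] at hv hv2
            exact not_reach hle v hv.1 (by rw [hv.2]; exact hlt) hv2.2
        omega
      · refine hD c g ?_
        by_contra hcon
        have := hmax g (mem_filter.2 ⟨hg.2, not_le.1 hcon⟩)
        exact absurd this (not_le.2 hgt)
    · obtain ⟨c, hcU⟩ := hne
      refine ⟨c, hcU, fun g hg => hD c g ?_⟩
      by_contra hcon
      exact hex ⟨g, mem_filter.2 ⟨(mem_erase.1 hg).2, not_le.1 hcon⟩⟩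
  have hall : ∀ g, 3 * ((U.erase c).filter (fun v => rep par (U.erase c) v = g)).card ≤
      2 * U.card := by
    intro g
    by_cases hg : g ∈ U.erase c
    · exact hc g hg
    · have : (U.erase c).filter (fun v => rep par (U.erase c) v = g) = ∅ := by
        rw [filter_eq_empty_iff]
        intro v hv hvg
        exact hg (hvg ▸ (rep_spec (par := par) (erase_subset c U) v hv).1)
      rw [this]
      simp
  obtain ⟨G, hG1, hG2⟩ := group (U.erase c) (rep par (U.erase c)) U.card
    (card_le_card (erase_subset _ _)) hall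
  have hrep : ∀ t, par t ≠ t → t ∈ U.erase c → par t ∈ U.erase c →
      rep par (U.erase c) t = rep par (U.erase c) (par t) := by
    intro t h1 _ h3
    exact rep_pos (lt_of_le_of_ne (hle t) h1) h3
  have hS : ∀ t, par t ≠ t → t ∉ insert c Z → par t ∉ insert c Z →
      (t ∈ U.erase c ↔ par t ∈ U.erase c) := by
    intro t h1 h2 h3
    rw [mem_insert, not_or] at h2 h3
    rw [mem_erase, mem_erase]
    have := hcl.2 t h1 h2.2 h3.2
    constructor
    · rintro ⟨-, h⟩
      exact ⟨h3.1, this.1 h⟩
    · rintro ⟨-, h⟩
      exact ⟨h2.1, this.2 h⟩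
  have hZ : ∀ t ∈ U.erase c, t ∉ insert c Z := by
    intro t ht
    rw [mem_erase] at ht
    rw [mem_insert, not_or]
    exact ⟨ht.1, hcl.1 t ht.2⟩
  refine ⟨c, hcU, (U.erase c).filter (fun v => rep par (U.erase c) v ∈ G),
    (U.erase c).filter (fun v => rep par (U.erase c) v ∉ G), filter_union_filter_not_eq _ _,
    disjoint_filter_filter_not _ _ _, ⟨?_, ?_⟩, ⟨?_, ?_⟩, hG1, hG2⟩
  · intro t ht
    exact hZ t (mem_filter.1 ht).1
  · intro t h1 h2 h3
    rw [mem_filter, mem_filter]
    constructor
    · rintro ⟨h4, h5⟩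
      have h6 := (hS t h1 h2 h3).1 h4
      exact ⟨h6, by rwa [← hrep t h1 h4 h6]⟩
    · rintro ⟨h6, h5⟩
      have h4 := (hS t h1 h2 h3).2 h6
      exact ⟨h4, by rwa [hrep t h1 h4 h6]⟩
  · intro t ht
    exact hZ t (mem_filter.1 ht).1
  · intro t h1 h2 h3
    rw [mem_filter, mem_filter]
    constructor
    · rintro ⟨h4, h5⟩
      have h6 := (hS t h1 h2 h3).1 h4
      exact ⟨h6, by rwa [← hrep t h1 h4 h6]⟩
    · rintro ⟨h6, h5⟩
      have h4 := (hS t h1 h2 h3).2 h6
      exact ⟨h4, by rwa [hrep t h1 h4 h6]⟩

end Pool.Agent.H40.TW
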