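import Pool.Agent.H40.TW.Stmt

/-!
# The exact tradeoff between time and memory for CNF-SAT (MP_c62aed_lc): machines
-/

namespace Pool.Agent.H40.TW

/-- A nondeterministic pushdown machine with states `Q` and stack symbols `Γ`, which reads symbols
from `α`.  The steps are arbitrary relations: `move a o b` is a step from `a` to `b` in which
`o : Option α` is read (nothing is read if `o = none`), `push a g b` and `pop a g b` are steps in
which `g` is pushed or popped. -/
structure Machine (α Q Γ : Type) where
  /-- the initial state -/
  start : Q
  /-- the accepting states -/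
  acc : Q → Prop
  /-- steps without the stack -/
  move : Q → Option α → Q → Prop
  /-- steps in which a stack symbol is pushed -/
  push : Q → Γ → Q → Prop
  /-- steps in which a stack symbol is popped -/
  pop : Q → Γ → Q → Prop

/-- `A.Comp l q σ`: some computation from the initial state and the empty stack, in which the
symbols in `l` are read, ends with the state `q` and the stack `σ`. -/
inductive Machine.Comp {α Q Γ : Type} (A : Machine α Q Γ) : List α → Q → List Γ → Prop
  | start : A.Comp [] A.start []
  | move {l q σ} (o : Option α) (q' : Q) : A.Comp l q σ → A.move q o q' →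
      A.Comp (l ++ o.toList) q' σ
  | push {l q σ} (g : Γ) (q' : Q) : A.Comp l q σ → A.push q g q' → A.Comp l q' (g :: σ)
  | pop {l q σ} (g : Γ) (q' : Q) : A.Comp l q (g :: σ) → A.pop q g q' → A.Comp l q' σ

/-- some computation in which the symbols in `l` are read ends with an accepting state -/
def Machine.Accepts {α Q Γ : Type} (A : Machine α Q Γ) (l : List α) : Prop :=
  ∃ q σ, A.Comp l q σ ∧ A.acc q

/-- the machine is sound: every accepted sequence of clauses is unsatisfiable -/
def Machine.Sound {n : ℕ} {Q Γ : Type} (A : Machine (Pool.Agent.H80.SH.Clause n) Q Γ) : Prop :=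
  ∀ l, A.Accepts l → ∀ x, ∃ c ∈ l, x ∈ c.Viol

end Pool.Agent.H40.TW
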