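import Pool.Agent.H40.TW.Targets3
import Pool.Agent.H40.TW.Stmt4

/-!
# The exact tradeoff between time and memory: targets for pushdown machines
-/

namespace Pool.Agent.H40.TW

open Finset Pool.Agent.H80.SH

/-- tree-like derivations with `s` lines: `TL V L s A` -/
inductive TL {X ι : Type} (V : ι → Finset X) (L : Finset (Finset X)) : ℕ → Finset X → Prop
  | leaf {A : Finset X} (o : Option ι) : A ∈ L → (∀ x ∈ A, ∃ j ∈ o, x ∈ V j) → TL V L 1 A
  | one {s : ℕ} {A B : Finset X} (o : Option ι) : TL V L s B → A ∈ L →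
      (∀ x ∈ A, x ∈ B ∨ ∃ j ∈ o, x ∈ V j) → TL V L (s + 1) A
  | two {s s' : ℕ} {A B C : Finset X} : TL V L s B → TL V L s' C → A ∈ L →
      (∀ x ∈ A, x ∈ B ∨ x ∈ C) → TL V L (s + s' + 1) A

/-- TRE: a tree-like derivation is a derivation (one bag for each line: the line and its at most
two premises; the bag number `t` belongs to the line number `s - 1 - t`) -/
def T_TRE : Prop :=
  ∀ (X ι : Type) (V : ι → Finset X) (L : Finset (Finset X)) (s : ℕ) (A : Finset X),
    TL V L s A → ∃ R : Derivation V L s 3 1 0, ∃ i, R.A i = A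

/-- PDT: from pushdown machines to tree-like derivations.

Balanced computations `Bal l a b` (from `a` to `b`, without changing the stack below): `Bal [] a a`,
append a `move`, or append `push b g b'`, `Bal l' b' c`, `pop c g d`.
Lines: `Y a b = {x | ∀ l, Bal l a b → ∃ c ∈ l, x ∈ V c}` and
`Z b = {x | ∀ l σ, A.Comp l b σ → ∃ c ∈ l, x ∈ V c}`.
By induction on `Bal l a b` with `l ≠ []`: every `W ∈ L` with `W ⊆ Y a b` has a tree-like derivation
with at most `2 * l.length - 1` lines (and `Y a b = ∅` if `Bal [] a b`).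
`A.Comp l q σ` gives `Pre l q σ`, where `Pre l q []` if `Bal l A.start q` and `Pre (l ++ l') q (g :: σ)`
if `Pre l b σ`, `push b g a`, `Bal l' a q`.  By induction on `Pre`, the same for `W ⊆ Z q`. -/
def T_PDT : Prop :=
  ∀ (X α Q Γ : Type) [Fintype X] [DecidableEq X] [Nonempty X] [Fintype Q] (V : α → Finset X)
    (A : Machine α Q Γ), (∀ l, A.Accepts l → ∀ x, ∃ c ∈ l, x ∈ V c) →
    ∃ L : Finset (Finset X), L.card ≤ Fintype.card Q ^ 2 + Fintype.card Q ∧
      ∀ (ι : Type) (F : ι → α) (l : List α), A.Accepts l → (∀ c ∈ l, ∃ j, F j = c) →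
        ∃ s, s ≤ 2 * l.length ∧ TL (fun j => V (F j)) L s univ

/-- NFU: from derivations with two lines and one clause in each bag to machines without stack.

The machine: take `dec : Fin s → Finset X` whose range contains `insert ∅ L`; start: a state with
`dec = ∅`; `move a o b`: `∀ x ∈ dec b, x ∈ dec a ∨ ∃ c ∈ o, x ∈ V c`; accepting: `dec a = univ`.
In `R` every line has at most one premise (it is in the bag `home i` together with `i`) and
`i` is the larger line of the bag `home i` if `P i ≠ ∅`, so at most `N` lines have a premise.  By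
strong induction on `i`: some state `a` with `dec a = R.A i` is reached by reading at most
`#{c ≤ i | P c ≠ ∅} + 1` clauses. -/
def T_NFU : Prop :=
  ∀ (X α : Type) [Fintype X] [DecidableEq X] (V : α → Finset X) (L : Finset (Finset X)) (s : ℕ),
    L.card + 1 ≤ s → ∃ A : Machine α (Fin s) Empty,
      (∀ l, A.Accepts l → ∀ x, ∃ c ∈ l, x ∈ V c) ∧
      ∀ (ι : Type) (F : ι → α) (N : ℕ) (R : Derivation (fun j => V (F j)) L N 2 1 0),
        (∃ i, R.A i = univ) →
        ∃ l : List α, A.Accepts l ∧ (∀ c ∈ l, ∃ j, F j = c) ∧ l.length ≤ N + 1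

/-- The final theorem: machines and derivations. -/
def MachineStatement : Prop :=
  ∀ η : ℝ, 0 < η → η < 1 → ∃ C₀ C : ℕ, 1 ≤ C₀ ∧
    ∀ n w m : ℕ, C ≤ n → n ^ C ≤ 2 ^ w → C * w ≤ n → m = C₀ * n * 2 ^ w →
    ∃ A₁ : ∀ M : ℕ, Machine (Clause n) (Fin (2 ^ M)) Empty, (∀ M, (A₁ M).Sound) ∧
    ∀ (Γ : ℕ → Type) (A : ∀ M : ℕ, Machine (Clause n) (Fin (2 ^ M)) (Γ M))
      (L : ℕ → Finset (Finset (Fin n → Bool))) (p : ℕ → ℕ), (∀ M, (A M).Sound) →
      (∀ M, ((L M).card + 1) ^ p M ≤ 2 ^ M) →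
      ∃ B : Finset (Fin m → Clause n), 2 ^ n * B.card ≤ (clausesOf n w).card ^ m ∧
        ∀ F : Fin m → Clause n, (∀ j, F j ∈ clausesOf n w) → F ∉ B →
          (∀ x, (1 - η) * (m / 2 ^ w) ≤ ((univ.filter (fun j => x ∈ (F j).Viol)).card : ℝ)) ∧
          ∀ M : ℕ, 1 ≤ M → (M : ℝ) ≤ (m : ℝ) ^ (1 - η) →
            (∀ l, (A M).Accepts l → (∀ c ∈ l, ∃ j, F j = c) →
              (2 : ℝ) ^ ((1 - Real.logb m M - η) * n) ≤ l.length) ∧
            ((m : ℝ) ^ η ≤ M → ∃ l, (A₁ M).Accepts l ∧ (∀ c ∈ l, ∃ j, F j = c) ∧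
              (l.length : ℝ) ≤ 2 ^ ((1 - Real.logb m M + η) * n)) ∧
            ∀ (N q e : ℕ) (R : Derivation (fun j => (F j).Viol) (L M) N (p M) q e),
              q ≤ M → (e : ℝ) ≤ 2 ^ (Real.logb m M * n) →
              ∀ i, ((R.A i).card : ℝ) ≤
                max (2 ^ n * (M * (m : ℝ) ^ η / m)) (N * 2 ^ ((Real.logb m M + η) * n))

end Pool.Agent.H40.TW
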