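import Pool.Agent.H40.TW.Main3
import Pool.Agent.H40.TW.Targets4

/-!
# The exact tradeoff between time and memory: all but a `2 ^ (-(n + 1))` fraction of the formulas
-/

namespace Pool.Agent.H40.TW

open Finset Pool.Agent.H80.SH

/-- as CurveStatement, with all but a `2 ^ (-(n + 1))` fraction of the formulas -/
def CurveStatement2 : Prop :=
  ∀ η : ℝ, 0 < η → η < 1 → ∃ C₀ C : ℕ, 1 ≤ C₀ ∧
    ∀ n w m : ℕ, C ≤ n → n ^ C ≤ 2 ^ w → C * w ≤ n → m = C₀ * n * 2 ^ w →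
    ∃ L₁ : ℕ → Finset (Finset (Fin n → Bool)),
      (∀ M : ℕ, (m : ℝ) ^ η ≤ M → (M : ℝ) ≤ (m : ℝ) ^ (1 - η) → ((L₁ M).card + 1) ^ 2 ≤ 2 ^ M) ∧
      ∀ (L : ℕ → Finset (Finset (Fin n → Bool))) (p : ℕ → ℕ),
        (∀ M, ((L M).card + 1) ^ p M ≤ 2 ^ M) →
        ∃ B : Finset (Fin m → Clause n), 2 ^ (n + 1) * B.card ≤ (clausesOf n w).card ^ m ∧
          ∀ F : Fin m → Clause n, (∀ j, F j ∈ clausesOf n w) → F ∉ B →
            (∀ x, (1 - η) * (m / 2 ^ w) ≤ ((univ.filter (fun j => x ∈ (F j).Viol)).card : ℝ)) ∧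
            ∀ M : ℕ, 1 ≤ M → (M : ℝ) ≤ (m : ℝ) ^ (1 - η) →
              (∀ (N q e : ℕ) (R : Derivation (fun j => (F j).Viol) (L M) N (p M) q e),
                q ≤ M → (e : ℝ) ≤ 2 ^ (Real.logb m M * n) →
                ∀ i, ((R.A i).card : ℝ) ≤
                  max (2 ^ n * (M * (m : ℝ) ^ η / m)) (N * 2 ^ ((Real.logb m M + η) * n))) ∧
              ((m : ℝ) ^ η ≤ M →
                ∃ (N : ℕ) (R : Derivation (fun j => (F j).Viol) (L₁ M) N 2 1 0),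
                  (N : ℝ) ≤ 2 ^ ((1 - Real.logb m M + η) * n) ∧ ∃ i, R.A i = univ)

theorem curve2 (hGOO : T_GOO3) (hDEN : T_DEN) (hLOW : T_LOW) (hPSC : T_PSC) (hDLC : T_DLC)
    (hPRS : T_PRS) (hFAR : T_FAR3) (hNUM : T_NUM3) (hUPR : T_UPR3) (hUPC : T_UPC)
    (hUPL : T_UPL) (hCLA : T_CLA) : CurveStatement2 := by
  classical
  intro η h0 hη1
  obtain ⟨C₁, hC₁, hfar⟩ := hFAR η h0
  obtain ⟨C₀, C, hC₀C₁, hC₀, hnum⟩ := hNUM (η / 4) (by positivity) (by linarith) C₁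
  set J : ℕ := ⌈4 / η⌉₊ + 3 with hJ
  refine ⟨C₀, max C (2 * (2 * J + 1)), hC₀, ?_⟩
  intro n w m hn hnw hwn' hm
  have hnC : C ≤ n := (le_max_left _ _).trans hn
  have hnJ : 2 * (2 * J + 1) ≤ n := (le_max_right _ _).trans hn
  have hn1' : 1 ≤ n := by omega
  obtain ⟨hn1, hwn, hm2, hexp⟩ := hnum n w hnC
    ((Nat.pow_le_pow_right hn1' (le_max_left _ _)).trans hnw)
    ((Nat.mul_le_mul_right _ (le_max_left _ _)).trans hwn')
  rw [← hm] at hm2
  have hm1 : 1 ≤ m := by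
    rw [hm]
    exact Nat.mul_pos (Nat.mul_pos hC₀ hn1) (by positivity)
  have hmr : (1 : ℝ) ≤ m := by exact_mod_cast hm1
  have h2m : 2 ≤ m := by
    rw [hm]
    have h1 : n ≤ C₀ * n := Nat.le_mul_of_pos_left _ hC₀
    have h2 : C₀ * n ≤ C₀ * n * 2 ^ w := Nat.le_mul_of_pos_right _ (by positivity)
    omega
  have hm1r : (1 : ℝ) < m := by exact_mod_cast h2m
  -- the families for the exponents of the grid
  have hone : ∀ j : ℕ, ∃ L₁ : Finset (Finset (Fin n → Bool)),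
      (η / 4 < j * (η / 4) → (j * (η / 4) : ℝ) < 1 →
        ∀ M : ℕ, (m : ℝ) ^ ((j * (η / 4) : ℝ) + η / 4) ≤ M → (L₁.card + 1) ^ 2 ≤ 2 ^ M) ∧
      ∀ (L : ℕ → Finset (Finset (Fin n → Bool))) (p : ℕ → ℕ),
        (∀ M, ((L M).card + 1) ^ p M ≤ 2 ^ M) →
        ∃ B : Finset (Fin m → Cl n w), 4 ^ n * B.card ≤ 2 * Fintype.card (Cl n w) ^ m ∧
          ∀ F, F ∉ B → η / 4 < j * (η / 4) → (j * (η / 4) : ℝ) < 1 →
            (∀ M : ℕ, (M : ℝ) ≤ (m : ℝ) ^ ((j * (η / 4) : ℝ) - η / 4) →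
              ∀ (N q e : ℕ) (R : Derivation (fun j => VC (F j)) (L M) N (p M) q e),
                (q : ℝ) ≤ (m : ℝ) ^ ((j * (η / 4) : ℝ) - η / 4) →
                (e : ℝ) ≤ 2 ^ (((j * (η / 4) : ℝ) - η / 4) * n) →
                ∀ i, ((R.A i).card : ℝ) ≤
                  max (2 ^ n / (m : ℝ) ^ (1 - (j * (η / 4) : ℝ)))
                    (N * 2 ^ ((j * (η / 4) : ℝ) * n))) ∧
            ∃ (N : ℕ) (R : Derivation (fun j => VC (F j)) L₁ N 2 1 0),
              (N : ℝ) ≤ 2 ^ ((1 - (j * (η / 4) : ℝ) + η / 4) * n) ∧ ∃ i, R.A i = univ := by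
    intro j
    by_cases hj : η / 4 < j * (η / 4) ∧ (j * (η / 4) : ℝ) < 1
    · have hex := hexp (j * (η / 4)) hj.1 hj.2
      rw [← hm] at hex
      obtain ⟨L₁, hL₁, hrest⟩ := one_exponent hGOO hDEN hLOW hPSC hDLC hPRS hUPR hUPC hUPL
        (η := η / 4) (by positivity) (by linarith) hC₀ hn1 hwn hm hm2 hj.1 hj.2 hex
      refine ⟨L₁, fun _ _ => hL₁, ?_⟩
      intro L p hL
      obtain ⟨B, hB, hB'⟩ := hrest L p hL
      exact ⟨B, hB, fun F hF _ _ => hB' F hF⟩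
    · refine ⟨∅, fun h1 h2 => absurd ⟨h1, h2⟩ hj, ?_⟩
      intro L p _
      exact ⟨∅, by simp, fun F _ h1 h2 => absurd ⟨h1, h2⟩ hj⟩
  choose Lj hLj hLj' using hone
  -- the exponent of `M`
  have hlog : ∀ M : ℕ, 1 ≤ M → (M : ℝ) ≤ (m : ℝ) ^ (1 - η) →
      0 ≤ Real.logb m M ∧ Real.logb m M ≤ 1 - η ∧ (M : ℝ) = (m : ℝ) ^ (Real.logb m M) := by
    intro M hM1 hM
    have hM1r : (1 : ℝ) ≤ M := by exact_mod_cast hM1
    refine ⟨Real.logb_nonneg hm1r hM1r, ?_, ?_⟩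
    · rw [Real.logb_le_iff_le_rpow hm1r (by linarith)]
      exact hM
    · rw [Real.rpow_logb (by linarith) (by linarith) (by linarith)]
  have hup : ∀ M : ℕ, ∃ j : ℕ, (m : ℝ) ^ η ≤ M → (M : ℝ) ≤ (m : ℝ) ^ (1 - η) →
      j < J ∧ η / 4 < j * (η / 4) ∧ (j * (η / 4) : ℝ) < 1 ∧
      (j * (η / 4) : ℝ) + η / 4 ≤ Real.logb m M ∧ Real.logb m M - η / 2 ≤ j * (η / 4) := by
    intro M
    by_cases hM : (m : ℝ) ^ η ≤ M ∧ (M : ℝ) ≤ (m : ℝ) ^ (1 - η)
    · have hMr : (1 : ℝ) ≤ M := (Real.one_le_rpow hmr h0.le).trans hM.1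
      have hM1 : 1 ≤ M := by exact_mod_cast hMr
      obtain ⟨h1, h2, h3⟩ := hlog M hM1 hM.2
      obtain ⟨-, hg⟩ := grid h0 h1 h2
      have h4 : η ≤ Real.logb m M := by
        rw [Real.le_logb_iff_rpow_le hm1r (by linarith)]
        exact hM.1
      obtain ⟨j, hj⟩ := hg h4
      exact ⟨j, fun _ _ => hj⟩
    · exact ⟨0, fun h1 h2 => absurd ⟨h1, h2⟩ hM⟩
  choose jup hjup using hup
  refine ⟨fun M => Lj (jup M), ?_, ?_⟩
  · intro M hM1 hM2
    obtain ⟨-, h1, h2, h3, -⟩ := hjup M hM1 hM2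
    have hMr : (1 : ℝ) ≤ M := (Real.one_le_rpow hmr h0.le).trans hM1
    have hMnat : 1 ≤ M := by exact_mod_cast hMr
    obtain ⟨-, -, h4⟩ := hlog M hMnat hM2
    refine hLj (jup M) h1 h2 M ?_
    calc (m : ℝ) ^ ((jup M * (η / 4) : ℝ) + η / 4) ≤ (m : ℝ) ^ (Real.logb m M) :=
          Real.rpow_le_rpow_of_exponent_le hmr h3
      _ = M := h4.symm
  intro L p hL
  have hB := fun j => hLj' j L p hL
  choose Bj hBj hBj' using hB
  -- the formulas in which some point violates few clauses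
  obtain ⟨hp1, hp2, hp3, hp4⟩ := hPRS n w hwn
  have hclpos : 0 < Fintype.card (Cl n w) := by
    rw [hp1]
    exact Nat.mul_pos (Nat.choose_pos hwn) (by positivity)
  have : Nonempty (Cl n w) := Fintype.card_pos_iff.mp hclpos
  have hcube : Fintype.card (Fin n → Bool) = 2 ^ n := by simp
  obtain ⟨B₀, hB₀, hB₀'⟩ : ∃ B₀ : Finset (Fin m → Cl n w),
      4 ^ n * B₀.card ≤ Fintype.card (Cl n w) ^ m ∧
      ∀ F, F ∉ B₀ → ∀ x, (1 - η) * (C₀ * n : ℝ) ≤
        ((univ.filter (fun j => x ∈ VC (F j))).card : ℝ) := by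
    rw [hm]
    exact hfar C₀ hC₀C₁ (Fin n → Bool) (Cl n w) VC n w hn1 hcube hp3
  have hBcard : 2 ^ (n + 1) * (B₀ ∪ (range J).biUnion Bj).card ≤ Fintype.card (Cl n w) ^ m := by
    have h1 : 4 ^ n * (B₀ ∪ (range J).biUnion Bj).card ≤
        (2 * J + 1) * Fintype.card (Cl n w) ^ m := by
      calc 4 ^ n * (B₀ ∪ (range J).biUnion Bj).card
          ≤ 4 ^ n * (B₀.card + ∑ j ∈ range J, (Bj j).card) :=
            Nat.mul_le_mul_left _ ((card_union_le _ _).trans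
              (Nat.add_le_add_left card_biUnion_le _))
        _ = 4 ^ n * B₀.card + ∑ j ∈ range J, 4 ^ n * (Bj j).card := by
            rw [Nat.mul_add, mul_sum]
        _ ≤ Fintype.card (Cl n w) ^ m + ∑ _j ∈ range J, 2 * Fintype.card (Cl n w) ^ m :=
            Nat.add_le_add hB₀ (sum_le_sum fun j _ => hBj j)
        _ = (2 * J + 1) * Fintype.card (Cl n w) ^ m := by
            rw [sum_const, card_range, smul_eq_mul]
            ring
    have h2 : 2 * (2 * J + 1) ≤ 2 ^ n := hnJ.trans (Nat.lt_two_pow_self).le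
    have h3 : 2 ^ n * (2 ^ (n + 1) * (B₀ ∪ (range J).biUnion Bj).card) ≤
        2 ^ n * Fintype.card (Cl n w) ^ m := by
      calc 2 ^ n * (2 ^ (n + 1) * (B₀ ∪ (range J).biUnion Bj).card)
          = 2 * (4 ^ n * (B₀ ∪ (range J).biUnion Bj).card) := by
            have h4 : (4 : ℕ) ^ n = 2 ^ n * 2 ^ n := by
              rw [← mul_pow]
              norm_num
            rw [h4, pow_succ]
            ring
        _ ≤ 2 * ((2 * J + 1) * Fintype.card (Cl n w) ^ m) := Nat.mul_le_mul_left _ h1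
        _ = 2 * (2 * J + 1) * Fintype.card (Cl n w) ^ m := by ring
        _ ≤ 2 ^ n * Fintype.card (Cl n w) ^ m := Nat.mul_le_mul_right _ h2
    exact Nat.le_of_mul_le_mul_left h3 (by positivity)
  obtain ⟨B', hB', hlift⟩ := hCLA n w m (2 ^ (n + 1)) hwn (B₀ ∪ (range J).biUnion Bj) hBcard
  refine ⟨B', hB', ?_⟩
  intro F hF hFB
  obtain ⟨F', hF', hFF'⟩ := hlift F hF hFB
  have hFeq : F = fun j => toClause (F' j) := by
    funext j
    exact (hFF' j).symm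
  subst hFeq
  clear hF hFB hFF'
  rw [mem_union, not_or] at hF'
  obtain ⟨hF0, hFj⟩ := hF'
  have hFj' : ∀ j, j < J → F' ∉ Bj j := by
    intro j hj hmem
    exact hFj (mem_biUnion.2 ⟨j, mem_range.2 hj, hmem⟩)
  refine ⟨?_, ?_⟩
  · intro x
    have h := hB₀' F' hF0 x
    have e1 : ((m : ℝ) / 2 ^ w) = (C₀ * n : ℝ) := by
      rw [hm]
      push_cast
      field_simp
    rw [e1]
    simpa only [viol_toClause] using h
  · intro M hM1 hM2
    obtain ⟨hl0, hl1, hl2⟩ := hlog M hM1 hM2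
    rw [viol_eq]
    refine ⟨?_, ?_⟩
    · intro N q e R hq he i
      obtain ⟨⟨j, hjJ, hj1, hj2, hj3, hj4⟩, -⟩ := grid h0 hl0 hl1
      have hMj : (M : ℝ) ≤ (m : ℝ) ^ ((j * (η / 4) : ℝ) - η / 4) := by
        calc (M : ℝ) = (m : ℝ) ^ (Real.logb m M) := hl2
          _ ≤ _ := Real.rpow_le_rpow_of_exponent_le hmr (by linarith)
      have hqr : (q : ℝ) ≤ M := by exact_mod_cast hq
      have hmain := (hBj' j F' (hFj' j hjJ) hj1 hj2).1 M hMj N q e R (hqr.trans hMj) (by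
        refine he.trans (two_hpow ?_)
        exact mul_le_mul_of_nonneg_right (by linarith) (Nat.cast_nonneg n)) i
      refine hmain.trans (max_le_max ?_ ?_)
      · have h1 : (M * (m : ℝ) ^ η / m) = (m : ℝ) ^ (Real.logb m M + η - 1) := by
          rw [Real.rpow_sub (by linarith), Real.rpow_add (by linarith), Real.rpow_one, ← hl2]
        rw [h1, div_eq_mul_inv, ← Real.rpow_neg (by linarith)]
        refine mul_le_mul_of_nonneg_left ?_ (by positivity)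
        exact Real.rpow_le_rpow_of_exponent_le hmr (by linarith)
      · refine mul_le_mul_of_nonneg_left (two_hpow ?_) (Nat.cast_nonneg N)
        exact mul_le_mul_of_nonneg_right (by linarith) (Nat.cast_nonneg n)
    · intro hMη
      obtain ⟨hjJ, hj1, hj2, hj3, hj4⟩ := hjup M hMη hM2
      obtain ⟨N, R, hN, i, hi⟩ := (hBj' (jup M) F' (hFj' _ hjJ) hj1 hj2).2
      refine ⟨N, R, hN.trans (two_hpow ?_), i, hi⟩
      exact mul_le_mul_of_nonneg_right (by linarith) (Nat.cast_nonneg n)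

theorem curve2' : CurveStatement2 := by
  have hPRS := Pool.Agent.H13.SH.pf_PRS
  have hPSC := Pool.Agent.H71.SH.psc
  have hDEN : T_DEN := Pool.Agent.H1.TW.den
    (Pool.Agent.H1.TW.rec_ ent one Pool.Agent.H1.TW.dbl) hPRS
  have hLOW : T_LOW := low (pot' Pool.Agent.H59.SH.stp Pool.Agent.H50.SH.unb hPSC)
    (src dlc cov cut) dlc hPSC
  exact curve2 (goo3 Pool.Agent.H59.TW.pf_TAI) hDEN hLOW hPSC dlc hPRS far3 num3
    (upr3 Pool.Agent.H59.TW.pf_TAI hPRS) (Pool.Agent.H1.TW.upc Pool.Agent.H1.TW.pth)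
    (Pool.Agent.H1.TW.upl hPRS) cla

end Pool.Agent.H40.TW
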