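import Pool.Agent.H40.TW.Targets

/-!
# The exact tradeoff between time and memory: decision lists (DLC)
-/

namespace Pool.Agent.H40.TW

open Finset

section
variable {X : Type} [DecidableEq X] (L : Finset (Finset X))

lemma dlf_succ (k : ℕ) : DLF L (k + 1) = DLF L k ∪ (L ×ˢ (univ : Finset Bool) ×ˢ DLF L k).image
    (fun s => (if s.2.1 then s.1 else ∅) ∪ (s.2.2 \ s.1)) := rfl

lemma dlf_sub (k : ℕ) : DLF L k ⊆ DLF L (k + 1) := by
  rw [dlf_succ]
  exact subset_union_left

lemma dlf_mono {k l : ℕ} (h : k ≤ l) : DLF L k ⊆ DLF L l := by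
  induction l, h using Nat.le_induction with
  | base => exact Subset.refl _
  | succ l _ ih => exact ih.trans (dlf_sub L l)

lemma dlf_card (k : ℕ) : (DLF L k).card ≤ (2 * L.card + 1) ^ k := by
  induction k with
  | zero => simp [DLF]
  | succ k ih =>
    rw [dlf_succ, pow_succ]
    refine (card_union_le _ _).trans ?_
    have h1 : ((L ×ˢ (univ : Finset Bool) ×ˢ DLF L k).image
        (fun s => (if s.2.1 then s.1 else ∅) ∪ (s.2.2 \ s.1))).card ≤
        L.card * (2 * (DLF L k).card) := by
      refine card_image_le.trans ?_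
      rw [card_product, card_product]
      simp
    calc (DLF L k).card + _ ≤ (DLF L k).card + L.card * (2 * (DLF L k).card) :=
          Nat.add_le_add_left h1 _
      _ = (DLF L k).card * (2 * L.card + 1) := by ring
      _ ≤ _ := Nat.mul_le_mul_right _ ih

lemma dlf_step {k : ℕ} {A D : Finset X} (b : Bool) (hA : A ∈ L) (hD : D ∈ DLF L k) :
    (if b then A else ∅) ∪ (D \ A) ∈ DLF L (k + 1) := by
  rw [dlf_succ]
  exact mem_union_right _ (mem_image.2 ⟨(A, b, D),
    mem_product.2 ⟨hA, mem_product.2 ⟨mem_univ _, hD⟩⟩, rfl⟩)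

lemma dlf_mem {T : ℕ} (A : Fin T → Finset X) (hA : ∀ i, A i ∈ L) (h : Fin T → Prop) :
    ∀ (k : ℕ) (W : Finset (Fin T)) (B : Finset X), W.card = k →
      (∀ x, x ∈ B ↔ ∃ i ∈ W, x ∈ A i ∧ (∀ j ∈ W, j < i → x ∉ A j) ∧ h i) →
      B ∈ DLF L k := by
  classical
  intro k
  induction k with
  | zero =>
    intro W B hW hB
    rw [card_eq_zero] at hW
    subst hW
    have : B = ∅ := by
      ext x
      rw [hB x]
      simp
    rw [this]
    simp [DLF]
  | succ k ih =>
    intro W B hW hB
    have hne : W.Nonempty := card_pos.1 (by omega)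
    obtain ⟨m, hm, hmin⟩ := exists_min_image W (fun i => i) hne
    -- the rest
    set W' := W.erase m with hW'
    have hcard : W'.card = k := by
      rw [hW', card_erase_of_mem hm]
      omega
    set D : Finset X := (W'.biUnion A).filter
      (fun x => ∃ i ∈ W', x ∈ A i ∧ (∀ j ∈ W', j < i → x ∉ A j) ∧ h i) with hD
    have hDm : ∀ x, x ∈ D ↔ ∃ i ∈ W', x ∈ A i ∧ (∀ j ∈ W', j < i → x ∉ A j) ∧ h i := by
      intro x
      rw [hD, mem_filter]
      constructor
      · exact fun h => h.2
      · rintro ⟨i, hi, hx, h1⟩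
        exact ⟨mem_biUnion.2 ⟨i, hi, hx⟩, i, hi, hx, h1⟩
    have hDL := ih W' D hcard hDm
    have hBe : B = (if decide (h m) then A m else ∅) ∪ (D \ A m) := by
      ext x
      rw [mem_union, mem_sdiff, hB x, hDm x]
      by_cases hxm : x ∈ A m
      · -- the first false line is `m`
        have h1 : (∃ i ∈ W, x ∈ A i ∧ (∀ j ∈ W, j < i → x ∉ A j) ∧ h i) ↔ h m := by
          constructor
          · rintro ⟨i, hi, hx, hmn, hh⟩
            rcases lt_or_eq_of_le (hmin i hi) with hlt | heq
            · exact absurd hxm (hmn m hm hlt)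
            · have : m = i := heq
              rw [this]
              exact hh
          · intro hh
            exact ⟨m, hm, hxm, fun j hj hlt => absurd (hmin j hj) (not_le.2 hlt), hh⟩
        rw [h1]
        by_cases hh : h m
        · simp [hh, hxm]
        · simp [hh, hxm]
      · have h1 : (∃ i ∈ W, x ∈ A i ∧ (∀ j ∈ W, j < i → x ∉ A j) ∧ h i) ↔
            ∃ i ∈ W', x ∈ A i ∧ (∀ j ∈ W', j < i → x ∉ A j) ∧ h i := by
          constructor
          · rintro ⟨i, hi, hx, hmn, hh⟩
            have him : i ≠ m := fun he => hxm (he ▸ hx)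
            exact ⟨i, mem_erase.2 ⟨him, hi⟩, hx, fun j hj hlt => hmn j (mem_erase.1 hj).2 hlt, hh⟩
          · rintro ⟨i, hi, hx, hmn, hh⟩
            refine ⟨i, (mem_erase.1 hi).2, hx, fun j hj hlt => ?_, hh⟩
            by_cases hjm : j = m
            · rw [hjm]
              exact hxm
            · exact hmn j (mem_erase.2 ⟨hjm, hj⟩) hlt
        rw [h1]
        have h2 : x ∉ (if decide (h m) then A m else ∅) := by
          split_ifs
          · exact hxm
          · exact notMem_empty x
        tauto
    rw [hBe]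
    exact dlf_step L _ (hA m) hDL

end

theorem dlc : T_DLC := by
  classical
  intro X _ _ L
  refine ⟨dlf_card L, fun k l h => dlf_mono L h, ?_, ?_, ?_⟩
  · intro k
    exact dlf_mono L (Nat.zero_le k) (by simp [DLF])
  · intro A hA
    have := dlf_step L (k := 0) (D := ∅) true hA (by simp [DLF])
    simpa using this
  · intro T A W h B hA hB
    exact dlf_mem L A hA h W.card W B rfl hB

end Pool.Agent.H40.TW
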