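import Pool.Agent.H40.TW.Stmt
import Pool.Agent.H80.SH.Defs

/-!
# The exact tradeoff between time and memory: definitions for the modules
-/

namespace Pool.Agent.H40.TW

open Finset Pool.Agent.H80.SH

/-- Search trees: `STree V L q e d l A` says that the points of `A` can be eliminated by a binary
tree of depth at most `d` with `l` nodes whose lines are in `L`; at a node one may use `q` clauses
and `e` arbitrary points. -/
inductive STree {X ι : Type} (V : ι → Finset X) (L : Finset (Finset X)) (q e : ℕ) :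
    ℕ → ℕ → Finset X → Prop
  | leaf (d : ℕ) (A : Finset X) (J : Finset ι) (E : Finset X) : J.card ≤ q → E.card ≤ e →
      (∀ x ∈ A, (∃ j ∈ J, x ∈ V j) ∨ x ∈ E) → STree V L q e d 1 A
  | node (d l₁ l₂ : ℕ) (A A₁ A₂ : Finset X) (J : Finset ι) (E : Finset X) : J.card ≤ q →
      E.card ≤ e → A₁ ∈ L → A₂ ∈ L → STree V L q e d l₁ A₁ → STree V L q e d l₂ A₂ →
      (∀ x ∈ A, x ∈ A₁ ∨ x ∈ A₂ ∨ (∃ j ∈ J, x ∈ V j) ∨ x ∈ E) →
      STree V L q e (d + 1) (l₁ + l₂ + 1) A

/-- decision lists of length at most `k` over `L` -/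
def DLF {X : Type} [DecidableEq X] (L : Finset (Finset X)) : ℕ → Finset (Finset X)
  | 0 => {∅}
  | k + 1 => DLF L k ∪ (L ×ˢ (univ : Finset Bool) ×ˢ DLF L k).image
      (fun s => (if s.2.1 then s.1 else ∅) ∪ (s.2.2 \ s.1))

section
variable {X ι : Type} {V : ι → Finset X} {L : Finset (Finset X)} {N p q e : ℕ}

/-- the lines in the bags of `Z` -/
def lines (R : Derivation V L N p q e) (Z : Finset (Fin N)) : Finset (Fin R.T) :=
  Z.biUnion R.bag

open Classical in
/-- the points for which the first false line in the bags of `Z` exists and has its home in `U` -/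
noncomputable def LZU [Fintype X] (R : Derivation V L N p q e) (Z U : Finset (Fin N)) : Finset X :=
  univ.filter (fun x => ∃ i ∈ lines R Z, x ∈ R.A i ∧ (∀ j ∈ lines R Z, j < i → x ∉ R.A j) ∧
    R.home i ∈ U)

end

/-- `U` is a union of components of the forest `par` without `Z` -/
def Closed {N : ℕ} (par : Fin N → Fin N) (Z U : Finset (Fin N)) : Prop :=
  (∀ t ∈ U, t ∉ Z) ∧ ∀ t, par t ≠ t → t ∉ Z → par t ∉ Z → (t ∈ U ↔ par t ∈ U)

/-- the fraction of the points of `P` with `x i = true` -/
noncomputable def frac {n : ℕ} (P : Finset (Fin n → Bool)) (i : Fin n) : ℝ :=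
  ((P.filter (fun x => x i = true)).card : ℝ) / P.card

/-- the points of `P` which agree with `x` on `U` -/
def cls {n : ℕ} (P : Finset (Fin n → Bool)) (U : Finset (Fin n)) (x : Fin n → Bool) :
    Finset (Fin n → Bool) :=
  P.filter (fun y => ∀ i ∈ U, y i = x i)

/-- the moment of `P`, over the `w`-subsets of `I` -/
noncomputable def mom {n : ℕ} (t : ℝ) (w : ℕ) (I : Finset (Fin n)) (P : Finset (Fin n → Bool)) :
    ℝ :=
  ∑ U ∈ I.powersetCard w, ∑ x ∈ P, ((cls P U x).card : ℝ) ^ t

end Pool.Agent.H40.TW
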