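import Pool.Agent.H40.TW.Targets

/-!
# The exact tradeoff between time and memory: subadditivity of the entropy (ENT)
-/

namespace Pool.Agent.H40.TW

open Finset

section
variable {n : ℕ}

lemma frac_nonneg (P : Finset (Fin n → Bool)) (i : Fin n) : 0 ≤ frac P i := by
  unfold frac
  positivity

lemma frac_le_one (P : Finset (Fin n → Bool)) (i : Fin n) : frac P i ≤ 1 := by
  unfold frac
  refine div_le_one_of_le₀ ?_ (Nat.cast_nonneg _)
  exact_mod_cast card_filter_le _ _

lemma ent_nonneg (P : Finset (Fin n → Bool)) (i : Fin n) : 0 ≤ Real.binEntropy (frac P i) :=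
  Real.binEntropy_nonneg (frac_nonneg P i) (frac_le_one P i)

lemma filter_false_eq (P : Finset (Fin n → Bool)) (a : Fin n) :
    P.filter (fun x => x a = false) = P.filter (fun x => ¬ x a = true) := by
  ext x
  simp

lemma card_split (P : Finset (Fin n → Bool)) (a : Fin n) :
    (P.filter (fun x => x a = true)).card + (P.filter (fun x => x a = false)).card = P.card := by
  rw [filter_false_eq]
  exact card_filter_add_card_filter_not _

/-- mixture -/
lemma frac_mix (P : Finset (Fin n → Bool)) (a i : Fin n)
    (h1 : (P.filter (fun x => x a = true)).Nonempty)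
    (h0 : (P.filter (fun x => x a = false)).Nonempty) :
    frac P i = frac P a * frac (P.filter (fun x => x a = true)) i +
      (1 - frac P a) * frac (P.filter (fun x => x a = false)) i := by
  have hs := card_split P a
  have hs2 := card_split (P.filter (fun x => x i = true)) a
  have c1 : 0 < (P.filter (fun x => x a = true)).card := card_pos.2 h1
  have c0 : 0 < (P.filter (fun x => x a = false)).card := card_pos.2 h0
  have e1 : (P.filter (fun x => x a = true)).filter (fun x => x i = true) =
      (P.filter (fun x => x i = true)).filter (fun x => x a = true) := filter_comm _ _ _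
  have e0 : (P.filter (fun x => x a = false)).filter (fun x => x i = true) =
      (P.filter (fun x => x i = true)).filter (fun x => x a = false) := filter_comm _ _ _
  unfold frac
  rw [e1, e0]
  set A := (P.filter (fun x => x a = true)).card
  set B := (P.filter (fun x => x a = false)).card
  set A' := ((P.filter (fun x => x i = true)).filter (fun x => x a = true)).card
  set B' := ((P.filter (fun x => x i = true)).filter (fun x => x a = false)).card
  rw [← hs, ← hs2]
  have hA : (0 : ℝ) < A := by exact_mod_cast c1
  have hB : (0 : ℝ) < B := by exact_mod_cast c0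
  push_cast
  have hAB : (A : ℝ) + B ≠ 0 := by positivity
  field_simp
  ring

lemma ent_gen (I : Finset (Fin n)) : ∀ P : Finset (Fin n → Bool), P.Nonempty →
    (∀ x ∈ P, ∀ y ∈ P, ∀ i, i ∉ I → x i = y i) →
    Real.log P.card ≤ ∑ i ∈ I, Real.binEntropy (frac P i) := by
  classical
  induction I using Finset.induction_on with
  | empty =>
    intro P hP hagree
    have h1 : P.card ≤ 1 := by
      refine card_le_one.2 ?_
      intro x hx y hy
      funext i
      exact hagree x hx y hy i (notMem_empty i)
    have h2 : P.card = 1 := le_antisymm h1 (card_pos.2 hP)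
    rw [h2]
    simp
  | insert a I ha ih =>
    intro P hP hagree
    rw [sum_insert ha]
    have hcase : ∀ b : Bool, (P.filter (fun x => x a = b)) = P →
        Real.log P.card ≤ Real.binEntropy (frac P a) + ∑ i ∈ I, Real.binEntropy (frac P i) := by
      intro b hb
      have h1 := ih P hP (by
        intro x hx y hy i hi
        by_cases hia : i = a
        · rw [hia]
          rw [← hb] at hx hy
          rw [(mem_filter.1 hx).2, (mem_filter.1 hy).2]
        · exact hagree x hx y hy i (by
            rw [mem_insert, not_or]
            exact ⟨hia, hi⟩))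
      have := ent_nonneg P a
      linarith
    rcases (P.filter (fun x => x a = true)).eq_empty_or_nonempty with hE1 | hN1
    · refine hcase false ?_
      rw [filter_false_eq]
      rw [filter_eq_empty_iff] at hE1
      rw [filter_eq_self]
      intro x hx
      exact hE1 hx
    rcases (P.filter (fun x => x a = false)).eq_empty_or_nonempty with hE0 | hN0
    · refine hcase true ?_
      rw [filter_eq_empty_iff] at hE0
      rw [filter_eq_self]
      intro x hx
      have := hE0 hx
      simpa using this
    -- both parts are nonempty
    have hsub : ∀ b : Bool, ∀ x ∈ P.filter (fun x => x a = b), ∀ y ∈ P.filter (fun x => x a = b),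
        ∀ i, i ∉ I → x i = y i := by
      intro b x hx y hy i hi
      by_cases hia : i = a
      · rw [hia, (mem_filter.1 hx).2, (mem_filter.1 hy).2]
      · exact hagree x (mem_filter.1 hx).1 y (mem_filter.1 hy).1 i (by
          rw [mem_insert, not_or]
          exact ⟨hia, hi⟩)
    have ih1 := ih _ hN1 (hsub true)
    have ih0 := ih _ hN0 (hsub false)
    have c1 : 0 < (P.filter (fun x => x a = true)).card := card_pos.2 hN1
    have c0 : 0 < (P.filter (fun x => x a = false)).card := card_pos.2 hN0
    have hs := card_split P a
    have hP0 : 0 < P.card := card_pos.2 hP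
    have hPr : (0 : ℝ) < P.card := by exact_mod_cast hP0
    set α : ℝ := frac P a with hα
    have hα1 : ((P.filter (fun x => x a = true)).card : ℝ) = α * P.card := by
      rw [hα]
      unfold frac
      field_simp
    have hα0 : ((P.filter (fun x => x a = false)).card : ℝ) = (1 - α) * P.card := by
      have : ((P.filter (fun x => x a = true)).card : ℝ) +
          (P.filter (fun x => x a = false)).card = P.card := by exact_mod_cast hs
      linarith
    have c1r : (0 : ℝ) < (P.filter (fun x => x a = true)).card := by exact_mod_cast c1
    have c0r : (0 : ℝ) < (P.filter (fun x => x a = false)).card := by exact_mod_cast c0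
    have hαpos : 0 < α := by
      rw [hα1] at c1r
      exact (pos_iff_pos_of_mul_pos c1r).2 hPr
    have hαlt : 0 < 1 - α := by
      rw [hα0] at c0r
      exact (pos_iff_pos_of_mul_pos c0r).2 hPr
    rw [hα1, Real.log_mul hαpos.ne' hPr.ne'] at ih1
    rw [hα0, Real.log_mul hαlt.ne' hPr.ne'] at ih0
    have hconc : ∀ i, α * Real.binEntropy (frac (P.filter (fun x => x a = true)) i) +
        (1 - α) * Real.binEntropy (frac (P.filter (fun x => x a = false)) i) ≤
        Real.binEntropy (frac P i) := by
      intro i
      have h1 := Real.strictConcave_binEntropy.concaveOn.2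
        (x := frac (P.filter (fun x => x a = true)) i)
        (y := frac (P.filter (fun x => x a = false)) i)
        ⟨frac_nonneg _ _, frac_le_one _ _⟩ ⟨frac_nonneg _ _, frac_le_one _ _⟩ hαpos.le hαlt.le
        (by ring)
      rw [smul_eq_mul, smul_eq_mul, smul_eq_mul, smul_eq_mul] at h1
      rw [frac_mix P a i hN1 hN0]
      exact h1
    have hsum : α * ∑ i ∈ I, Real.binEntropy (frac (P.filter (fun x => x a = true)) i) +
        (1 - α) * ∑ i ∈ I, Real.binEntropy (frac (P.filter (fun x => x a = false)) i) ≤
        ∑ i ∈ I, Real.binEntropy (frac P i) := by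
      rw [mul_sum, mul_sum, ← sum_add_distrib]
      exact sum_le_sum fun i _ => hconc i
    have hent : Real.binEntropy α = -(α * Real.log α) - (1 - α) * Real.log (1 - α) := by
      rw [Real.binEntropy_eq_negMulLog_add_negMulLog_one_sub, Real.negMulLog, Real.negMulLog]
      ring
    rw [hent]
    have h1 := mul_le_mul_of_nonneg_left ih1 hαpos.le
    have h0 := mul_le_mul_of_nonneg_left ih0 hαlt.le
    have hid : α * (Real.log α + Real.log P.card) + (1 - α) * (Real.log (1 - α) + Real.log P.card) =
        Real.log P.card + (α * Real.log α + (1 - α) * Real.log (1 - α)) := by ring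
    linarith

end

theorem ent : T_ENT := by
  intro n P hP
  exact ent_gen univ P hP (fun x _ y _ i hi => absurd (mem_univ i) hi)

end Pool.Agent.H40.TW
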