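import Pool.Agent.H40.TW.Targets2

/-!
# The exact tradeoff between time and memory: targets for the average case and for all memory sizes
at once
-/

namespace Pool.Agent.H40.TW

open Finset Pool.Agent.H80.SH

/-- FAR3: as FAR2, with all but a `4 ^ (-n)` fraction of the formulas -/
def T_FAR3 : Prop :=
  ∀ ε : ℝ, 0 < ε → ∃ C₁ : ℕ, 1 ≤ C₁ ∧ ∀ C : ℕ, C₁ ≤ C → ∀ (X α : Type) [Fintype X]
    [DecidableEq X] [Fintype α] [DecidableEq α] [Nonempty α] (V : α → Finset X) (n w : ℕ),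
    1 ≤ n → Fintype.card X = 2 ^ n →
    (∀ x, (univ.filter (fun c => x ∈ V c)).card * 2 ^ w = Fintype.card α) →
    ∃ B : Finset (Fin (C * n * 2 ^ w) → α),
      4 ^ n * B.card ≤ Fintype.card α ^ (C * n * 2 ^ w) ∧
      ∀ F, F ∉ B → ∀ x, (1 - ε) * (C * n : ℝ) ≤
        ((univ.filter (fun j => x ∈ V (F j))).card : ℝ)

/-- GOO3: as GOO, for any family `Q` of sets -/
def T_GOO3 : Prop :=
  ∀ (X α : Type) [Fintype X] [DecidableEq X] [Fintype α] [DecidableEq α] (V : α → Finset X)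
    (Q : Finset (Finset X)) (r g H T K c : ℕ), 1 ≤ T →
    (∀ P : Finset X, 2 ^ g ≤ P.card → K * (dense V H P).card ≤ Fintype.card α) →
    8 * r ≤ K * T → c * Q.card ≤ 2 ^ T →
    ∃ B : Finset (Fin r → α), c * B.card ≤ Fintype.card α ^ r ∧
      ∀ F, F ∉ B → ∀ P ∈ Q, 2 ^ g ≤ P.card → (dense (fun j => V (F j)) H P).card ≤ T

/-- UPR3: as UPR, with all but a `4 ^ (-n)` fraction of the formulas -/
def T_UPR3 : Prop :=
  ∀ (n w u C Q : ℕ) (U : Finset (Fin n)), 1 ≤ n → w ≤ n →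
    n * (u + 1) * 4 + C * (U.card * w) ≤ C * (n * (u + 1)) →
    8 * (C * n) * 2 ^ u ≤ Q → 3 * n + 4 ≤ Q →
    ∃ B : Finset (Fin (C * n * 2 ^ w) → Cl n w),
      4 ^ n * B.card ≤ Fintype.card (Cl n w) ^ (C * n * 2 ^ w) ∧
      ∀ F, F ∉ B → (∀ x, ∃ j, Slim U u (F j) ∧ x ∈ VC (F j)) ∧
        ∀ x : Fin n → Bool, ({j | Slim U u (F j) ∧ ∀ i ∈ (F j).1.1, i ∉ U → x i = (F j).2 i} :
          Set (Fin (C * n * 2 ^ w))).ncard ≤ Q

/-- CLA: from the concrete clauses (a set of variables and a full pattern) to the clauses as sets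
of literals: every clause with exactly `w` variables is `toClause c` for exactly `2 ^ (n - w)`
concrete clauses `c` -/
def T_CLA : Prop :=
  ∀ (n w r c : ℕ), w ≤ n → ∀ B : Finset (Fin r → Cl n w),
    c * B.card ≤ Fintype.card (Cl n w) ^ r →
    ∃ B' : Finset (Fin r → Clause n), c * B'.card ≤ (clausesOf n w).card ^ r ∧
      ∀ F : Fin r → Clause n, (∀ j, F j ∈ clausesOf n w) → F ∉ B' →
        ∃ F' : Fin r → Cl n w, F' ∉ B ∧ ∀ j, toClause (F' j) = F j

end Pool.Agent.H40.TW
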