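import Pool.Agent.H40.TW.Targets
import Pool.Agent.H40.TW.Targets3
import Pool.Agent.H19.SH.FAR

/-!
# In almost all formulas every point violates many clauses (FAR3)
-/

namespace Pool.Agent.H40.TW

open Finset Pool.Agent.H80.SH Pool.Agent.H19.SH

theorem far3 : T_FAR3 := by
  classical
  intro ε h0
  rcases le_or_gt 1 ε with h1 | h1
  · refine ⟨1, le_refl 1, fun C _ X α _ _ _ _ _ V n w _ _ _ => ⟨∅, by simp, fun F _ x => ?_⟩⟩
    refine le_trans (mul_nonpos_of_nonpos_of_nonneg (by linarith) (by positivity)) ?_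
    positivity
  · obtain ⟨C₁, hC₁⟩ := exists_nat_ge (6 / ε ^ 2)
    have hC1 : 1 ≤ C₁ := by
      have h2 : (0 : ℝ) < C₁ := lt_of_lt_of_le (by positivity) hC₁
      exact_mod_cast h2
    refine ⟨C₁, hC1, fun C hCC X α _ _ _ _ _ V n w hn hX hV => ?_⟩
    have hC : 6 / ε ^ 2 ≤ (C : ℝ) := hC₁.trans (by exact_mod_cast hCC)
    let Bx : X → Finset (Fin (C * n * 2 ^ w) → α) := fun x =>
      univ.filter fun F => ((univ.filter (fun j => x ∈ V (F j))).card : ℝ) <
        (1 - ε) * (C * n : ℝ)
    refine ⟨univ.biUnion Bx, ?_, fun F hF x => ?_⟩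
    · have h2 : ((univ.biUnion Bx).card : ℝ) ≤ 2 ^ n *
          ((Fintype.card α : ℝ) ^ (C * n * 2 ^ w) * Real.exp (-(3 * n))) := by
        have h3 : ((univ.biUnion Bx).card : ℝ) ≤ ∑ x, ((Bx x).card : ℝ) := by
          exact_mod_cast card_biUnion_le
        refine h3.trans ?_
        refine (sum_le_sum fun x _ => bad_card V C n w ε h0 hC x (hV x) (Bx x)
          fun F hF => (mem_filter.1 hF).2).trans ?_
        rw [sum_const, card_univ, hX, nsmul_eq_mul]
        push_cast
        exact le_refl _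
      have h3 : 4 ^ n * (2 : ℝ) ^ n * Real.exp (-(3 * n)) ≤ 1 := by
        rw [Real.exp_neg, ← div_eq_mul_inv, div_le_one (Real.exp_pos _)]
        have h4 : (8 : ℝ) ≤ Real.exp 3 := by
          have h5 := Real.exp_one_gt_d9
          have h6 : Real.exp 3 = Real.exp 1 ^ 3 := by
            rw [← Real.exp_nat_mul]
            norm_num
          rw [h6]
          calc (8 : ℝ) ≤ (2.7182818283 : ℝ) ^ 3 := by norm_num
            _ ≤ _ := pow_le_pow_left₀ (by norm_num) h5.le 3
        calc 4 ^ n * (2 : ℝ) ^ n = 8 ^ n := by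
              rw [← mul_pow]
              norm_num
          _ ≤ Real.exp 3 ^ n := pow_le_pow_left₀ (by norm_num) h4 n
          _ = Real.exp (3 * n) := by
              rw [← Real.exp_nat_mul]
              congr 1
              ring
      have h4 : (4 ^ n * (univ.biUnion Bx).card : ℝ) ≤
          (Fintype.card α : ℝ) ^ (C * n * 2 ^ w) := by
        calc (4 ^ n * (univ.biUnion Bx).card : ℝ)
            ≤ 4 ^ n * (2 ^ n * ((Fintype.card α : ℝ) ^ (C * n * 2 ^ w) *
              Real.exp (-(3 * n)))) := mul_le_mul_of_nonneg_left h2 (by positivity)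
          _ = (Fintype.card α : ℝ) ^ (C * n * 2 ^ w) *
              (4 ^ n * (2 : ℝ) ^ n * Real.exp (-(3 * n))) := by ring
          _ ≤ (Fintype.card α : ℝ) ^ (C * n * 2 ^ w) * 1 :=
              mul_le_mul_of_nonneg_left h3 (by positivity)
          _ = _ := mul_one _
      exact_mod_cast h4
    · by_contra hcon
      exact hF (mem_biUnion.2 ⟨x, mem_univ _, mem_filter.2 ⟨mem_univ _, not_le.1 hcon⟩⟩)

/-- GOO3 -/
theorem goo3 (hTAI : T_TAI) : T_GOO3 := by
  classical
  intro X α _ _ _ _ V Q r g H T K c hT hden hr hPS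
  have h1 : ∀ P : Finset X, ∃ B : Finset (Fin r → α), 2 ^ g ≤ P.card →
      2 ^ T * B.card ≤ Fintype.card α ^ r ∧
      ∀ F, F ∉ B → (univ.filter (fun j => F j ∈ dense V H P)).card < T := by
    intro P
    by_cases hP : 2 ^ g ≤ P.card
    · obtain ⟨B, hB⟩ := hTAI α r T K (dense V H P) hT (hden P hP) hr
      exact ⟨B, fun _ => hB⟩
    · exact ⟨∅, fun h => absurd h hP⟩
  choose B hB using h1
  refine ⟨(Q.filter (fun P => 2 ^ g ≤ P.card)).biUnion B, ?_, fun F hF P hP hg => ?_⟩
  · have h2 : 2 ^ T * ((Q.filter (fun P => 2 ^ g ≤ P.card)).biUnion B).card ≤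
        Q.card * Fintype.card α ^ r := by
      calc 2 ^ T * ((Q.filter (fun P => 2 ^ g ≤ P.card)).biUnion B).card
          ≤ 2 ^ T * ∑ P ∈ Q.filter (fun P => 2 ^ g ≤ P.card), (B P).card :=
            Nat.mul_le_mul_left _ card_biUnion_le
        _ = ∑ P ∈ Q.filter (fun P => 2 ^ g ≤ P.card), 2 ^ T * (B P).card := by
            rw [mul_sum]
        _ ≤ ∑ _P ∈ Q.filter (fun P => 2 ^ g ≤ P.card), Fintype.card α ^ r :=
            sum_le_sum fun P hP => (hB P (mem_filter.1 hP).2).1
        _ ≤ Q.card * Fintype.card α ^ r := by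
            rw [sum_const, smul_eq_mul]
            exact Nat.mul_le_mul_right _ (card_le_card (filter_subset _ _))
    have h3 : 2 ^ T * (c * ((Q.filter (fun P => 2 ^ g ≤ P.card)).biUnion B).card) ≤
        2 ^ T * Fintype.card α ^ r := by
      calc 2 ^ T * (c * ((Q.filter (fun P => 2 ^ g ≤ P.card)).biUnion B).card)
          = c * (2 ^ T * ((Q.filter (fun P => 2 ^ g ≤ P.card)).biUnion B).card) := by ring
        _ ≤ c * (Q.card * Fintype.card α ^ r) := Nat.mul_le_mul_left _ h2
        _ = (c * Q.card) * Fintype.card α ^ r := by ring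
        _ ≤ 2 ^ T * Fintype.card α ^ r := Nat.mul_le_mul_right _ hPS
    exact Nat.le_of_mul_le_mul_left h3 (by positivity)
  · have h4 : F ∉ B P := fun h => hF (mem_biUnion.2 ⟨P, mem_filter.2 ⟨hP, hg⟩, h⟩)
    have h5 := (hB P hg).2 F h4
    have h6 : dense (fun j => V (F j)) H P = univ.filter (fun j => F j ∈ dense V H P) := by
      ext j
      simp only [dense, mem_filter, mem_univ, true_and]
    rw [h6]
    exact h5.le

end Pool.Agent.H40.TW
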