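import Pool.Agent.H40.TW.Targets
import Pool.Agent.H40.TW.Targets2
import Pool.Agent.H40.TW.NumT
import Pool.Agent.H80.SH.Targets
import Pool.Agent.H80.SH.Fin

/-!
# The exact tradeoff between time and memory: assembly (FIN)
-/

namespace Pool.Agent.H40.TW

open Finset Pool.Agent.H80.SH

/-- The tradeoff: lower bound and upper bound for the same formula. -/
def TradeoffStatement : Prop :=
  ∀ μ η : ℝ, 0 < η → η < μ → μ < 1 → ∃ C : ℕ, ∀ n m : ℕ, C ≤ n → n ^ C ≤ m → m ^ C ≤ 2 ^ n →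
    ∃ L₁ : Finset (Finset (Fin n → Bool)), (L₁.card : ℝ) ≤ 2 ^ ((m : ℝ) ^ (μ + η)) ∧
      ∀ (M p : ℕ) (L : Finset (Finset (Fin n → Bool))), (L.card + 1) ^ p ≤ 2 ^ M →
        (M : ℝ) ≤ (m : ℝ) ^ (μ - η) →
        ∃ (w r : ℕ) (F : Fin r → Clause n), 1 ≤ r ∧ r ≤ m ∧ 2 ^ w ≤ m ∧
          (∀ i, (F i).card = w ∧ ((F i).image Prod.fst).card = w) ∧
          (∀ x, (1 - η) * (r / 2 ^ w) ≤ ((univ.filter (fun i => x ∈ (F i).Viol)).card : ℝ)) ∧
          (∀ (N q e : ℕ) (R : Derivation (fun i => (F i).Viol) L N p q e),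
            (q : ℝ) ≤ (m : ℝ) ^ (μ - η) → (e : ℝ) ≤ 2 ^ ((μ - η) * n) →
            ∀ i, ((R.A i).card : ℝ) ≤ max (2 ^ n / (m : ℝ) ^ (1 - μ)) (N * 2 ^ (μ * n))) ∧
          ∃ (N : ℕ) (R : Derivation (fun i => (F i).Viol) L₁ N 2 1 0),
            (N : ℝ) ≤ 2 ^ ((1 - μ + η) * n) ∧ ∃ i, R.A i = univ

/-- change of the violated sets -/
lemma viol_eq {n w r : ℕ} (F : Fin r → Cl n w) :
    (fun i => (toClause (F i)).Viol) = fun i => VC (F i) := by
  funext i
  exact viol_toClause (F i)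

/-- the number of the path sets -/
lemma count_ps (hPSC : T_PSC) (hDLC : T_DLC) {X : Type} [Fintype X] [DecidableEq X]
    (L : Finset (Finset X)) (n p M T : ℕ) (hL : (L.card + 1) ^ p ≤ 2 ^ M)
    (hT : 2 + (2 * M * (2 * n + 1) + 2) * (4 * n + 3) ≤ T) :
    4 * (PS (DLF L (p * (2 * n + 1))) (4 * n + 3)).card ≤ 2 ^ T := by
  obtain ⟨hcard, -, -, -, -⟩ := hDLC X L
  obtain ⟨hps, -, -, -⟩ := hPSC X (DLF L (p * (2 * n + 1)))
  have h1 : (2 * L.card + 1) ^ p ≤ 4 ^ M := by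
    rcases Nat.eq_zero_or_pos L.card with h0 | h0
    · rw [h0]
      simp only [mul_zero, zero_add, one_pow]
      exact Nat.one_le_pow _ _ (by norm_num)
    · calc (2 * L.card + 1) ^ p ≤ ((L.card + 1) * (L.card + 1)) ^ p := by
            refine Nat.pow_le_pow_left ?_ p
            nlinarith
        _ = (L.card + 1) ^ p * (L.card + 1) ^ p := mul_pow _ _ _
        _ ≤ 2 ^ M * 2 ^ M := Nat.mul_le_mul hL hL
        _ = 4 ^ M := by
          rw [← mul_pow]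
          norm_num
  have h2 : (DLF L (p * (2 * n + 1))).card ≤ 2 ^ (2 * M * (2 * n + 1)) := by
    calc (DLF L (p * (2 * n + 1))).card ≤ (2 * L.card + 1) ^ (p * (2 * n + 1)) := hcard _
      _ = ((2 * L.card + 1) ^ p) ^ (2 * n + 1) := pow_mul _ _ _
      _ ≤ (4 ^ M) ^ (2 * n + 1) := Nat.pow_le_pow_left h1 _
      _ = 2 ^ (2 * M * (2 * n + 1)) := by
        rw [show (4 : ℕ) = 2 ^ 2 by norm_num, ← pow_mul, ← pow_mul]
        congr 1
        ring
  have h3 : 2 * (DLF L (p * (2 * n + 1))).card + 1 ≤ 2 ^ (2 * M * (2 * n + 1) + 2) := by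
    have h4 : 0 < 2 ^ (2 * M * (2 * n + 1)) := by positivity
    rw [pow_add]
    omega
  calc 4 * (PS (DLF L (p * (2 * n + 1))) (4 * n + 3)).card
      ≤ 4 * (2 * (DLF L (p * (2 * n + 1))).card + 1) ^ (4 * n + 3) :=
        Nat.mul_le_mul_left _ (hps _)
    _ ≤ 4 * (2 ^ (2 * M * (2 * n + 1) + 2)) ^ (4 * n + 3) :=
        Nat.mul_le_mul_left _ (Nat.pow_le_pow_left h3 _)
    _ = 2 ^ (2 + (2 * M * (2 * n + 1) + 2) * (4 * n + 3)) := by
        rw [← pow_mul, pow_add]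
        norm_num
    _ ≤ 2 ^ T := Nat.pow_le_pow_right (by norm_num) hT

theorem tradeoff (hGOO : T_GOO) (hDEN : T_DEN) (hLOW : T_LOW) (hPSC : T_PSC) (hDLC : T_DLC)
    (hPRS : T_PRS) (hFAR : T_FAR2) (hNUM : T_NUM) (hUPR : T_UPR) (hUPC : T_UPC) (hUPL : T_UPL) :
    TradeoffStatement := by
  classical
  intro μ η h0 hημ hμ
  have hη1 : η < 1 := hημ.trans hμ
  obtain ⟨C₁, hC₁, hfar⟩ := hFAR η h0
  obtain ⟨C₀, C, hC₀C₁, hC₀, hnum⟩ := hNUM μ η h0 hημ hμ C₁
  refine ⟨C, ?_⟩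
  intro n m hn hnm hmn
  obtain ⟨w, h, T, g, K, u, k, G, hn1, hwn, hr, h2w, hT1, ⟨hg1, hg2⟩, hqT, hroot, hMT, hKT,
    ⟨hG1, hG2⟩, hmain, hkn, hmark, hmem, htime⟩ := hnum n m hn hnm hmn
  have hnr : (1 : ℝ) ≤ n := by exact_mod_cast hn1
  have hC₀r : (1 : ℝ) ≤ C₀ := by exact_mod_cast hC₀
  have hmpos : 1 ≤ m := (Nat.one_le_two_pow).trans h2w
  have hmr : (1 : ℝ) ≤ m := by exact_mod_cast hmpos
  obtain ⟨hp1, hp2, hp3, hp4⟩ := hPRS n w hwn
  have hclpos : 0 < Fintype.card (Cl n w) := by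
    rw [hp1]
    exact Nat.mul_pos (Nat.choose_pos hwn) (by positivity)
  have : Nonempty (Cl n w) := Fintype.card_pos_iff.mp hclpos
  have hcube : Fintype.card (Fin n → Bool) = 2 ^ n := by simp
  -- the set of the free variables of the upper bound
  obtain ⟨U, -, hU⟩ := Finset.exists_subset_card_eq (s := (univ : Finset (Fin n))) (n := k)
    (by rw [card_univ, Fintype.card_fin]; exact hkn)
  set Q : ℕ := 8 * (C₀ * n) * 2 ^ u with hQ
  set r : ℕ := C₀ * n * 2 ^ w with hrdef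
  refine ⟨Lup n w U Q, ?_, ?_⟩
  · have h1 := hUPL n w Q U hn1 hwn
    have h2 : ((Lup n w U Q).card : ℝ) ≤ (2 : ℝ) ^ ((4 * n * (Q + 1) + 1 : ℕ) : ℝ) := by
      rw [Real.rpow_natCast]
      exact_mod_cast h1
    refine h2.trans (Real.rpow_le_rpow_of_exponent_le (by norm_num) ?_)
    refine le_trans (le_of_eq ?_) hmem
    rw [hQ]
    push_cast
    ring
  intro M p L hL hM
  -- few dense clauses
  have hdense : ∀ P : Finset (Fin n → Bool), 2 ^ g ≤ P.card →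
      K * (dense (VC : Cl n w → _) (2 ^ h) P).card ≤ Fintype.card (Cl n w) := by
    intro P hP
    have hPne : P.Nonempty := card_pos.1 (lt_of_lt_of_le (by positivity) hP)
    have h1 := hDEN n w (2 ^ h) (η / 8) G P hwn (Nat.one_le_two_pow) (by linarith)
      (by linarith) hG1 hG2 hPne
    have hPr : (2 : ℝ) ^ g ≤ P.card := by exact_mod_cast hP
    have hGpos : 0 < G := by linarith
    have h2 : (G / P.card) ^ (1 + η / 8) ≤ (G / 2 ^ g) ^ (1 + η / 8) := by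
      refine Real.rpow_le_rpow (by positivity) ?_ (by linarith)
      exact div_le_div_of_nonneg_left hGpos.le (by positivity) hPr
    set b : ℝ := (1 + (η / 8) ^ 2 - η / 8 * Real.log G / n) ^ w with hb
    have hbn : 0 ≤ b := pow_nonneg hG2 w
    have h3 : (K : ℝ) * (((dense (VC : Cl n w → _) (2 ^ h) P).card : ℝ) * 2 ^ w) ≤
        Fintype.card (Cl n w) * 2 ^ w := by
      calc (K : ℝ) * (((dense (VC : Cl n w → _) (2 ^ h) P).card : ℝ) * 2 ^ w)
          ≤ K * (Fintype.card (Cl n w) * ((((2 ^ h : ℕ) : ℝ)) ^ (1 + η / 8) *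
            (b + 2 ^ w * (G / P.card) ^ (1 + η / 8)))) :=
            mul_le_mul_of_nonneg_left h1 (Nat.cast_nonneg _)
        _ ≤ K * (Fintype.card (Cl n w) * ((((2 ^ h : ℕ) : ℝ)) ^ (1 + η / 8) *
            (b + 2 ^ w * (G / 2 ^ g) ^ (1 + η / 8)))) := by
            gcongr
        _ = Fintype.card (Cl n w) * (K * (((2 : ℝ) ^ h) ^ (1 + η / 8) *
            (b + 2 ^ w * (G / 2 ^ g) ^ (1 + η / 8)))) := by
            push_cast
            ring
        _ ≤ Fintype.card (Cl n w) * 2 ^ w :=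
            mul_le_mul_of_nonneg_left hmain (Nat.cast_nonneg _)
    have h4 : (K : ℝ) * ((dense (VC : Cl n w → _) (2 ^ h) P).card : ℝ) ≤
        Fintype.card (Cl n w) := by
      have h5 : (0 : ℝ) < 2 ^ w := by positivity
      refine le_of_mul_le_mul_right ?_ h5
      calc (K : ℝ) * ((dense (VC : Cl n w → _) (2 ^ h) P).card : ℝ) * 2 ^ w
          = K * (((dense (VC : Cl n w → _) (2 ^ h) P).card : ℝ) * 2 ^ w) := by ring
        _ ≤ _ := h3
    exact_mod_cast h4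
  -- the bad formulas
  obtain ⟨B₁, hB₁, hB₁'⟩ := hGOO (Fin n → Bool) (Cl n w) VC (DLF L (p * (2 * n + 1))) r g (2 ^ h)
    T (4 * n + 3) K hT1 hdense hKT (count_ps hPSC hDLC L n p M T hL (hMT M hM))
  obtain ⟨B₂, hB₂, hB₂'⟩ := hfar C₀ hC₀C₁ (Fin n → Bool) (Cl n w) VC n w hn1 hcube hp3
  obtain ⟨B₃, hB₃, hB₃'⟩ := hUPR n w u C₀ Q U hn1 hwn (by rw [hU]; exact hmark) (le_refl _) (by
    rw [hQ]
    have h1 : 1 ≤ 2 ^ u := Nat.one_le_two_pow
    have h2 : n ≤ C₀ * n * 2 ^ u := by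
      calc n = 1 * n * 1 := by ring
        _ ≤ C₀ * n * 2 ^ u := Nat.mul_le_mul (Nat.mul_le_mul_right _ hC₀) h1
    have h3 : 8 * (C₀ * n) * 2 ^ u = 8 * (C₀ * n * 2 ^ u) := by ring
    omega)
  have hex : ∃ F : Fin r → Cl n w, F ∉ B₁ ∪ (B₂ ∪ B₃) := by
    by_contra hno
    push Not at hno
    have hall : B₁ ∪ (B₂ ∪ B₃) = univ := by
      ext F
      simp only [mem_univ, iff_true]
      exact hno F
    have hc : (B₁ ∪ (B₂ ∪ B₃)).card = Fintype.card (Cl n w) ^ r := by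
      rw [hall, card_univ]
      simp
    have hle1 := card_union_le B₁ (B₂ ∪ B₃)
    have hle2 := card_union_le B₂ B₃
    have hpos : 0 < Fintype.card (Cl n w) ^ r := pow_pos hclpos _
    have hB₂r : 4 * B₂.card ≤ Fintype.card (Cl n w) ^ r := hB₂
    have hB₃r : 4 * B₃.card ≤ Fintype.card (Cl n w) ^ r := hB₃
    omega
  obtain ⟨F, hF⟩ := hex
  rw [mem_union, not_or, mem_union, not_or] at hF
  have hgood := hB₁' F hF.1
  have hfarF := hB₂' F hF.2.1
  obtain ⟨hup1, hup2⟩ := hB₃' F hF.2.2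
  refine ⟨w, r, fun j => toClause (F j), ?_, hr, h2w, ?_, ?_, ?_, ?_⟩
  · exact Nat.mul_pos (Nat.mul_pos hC₀ hn1) (by positivity)
  · intro i
    exact ⟨card_toClause _, card_fst_toClause _⟩
  · intro x
    have h := hfarF x
    have e1 : (((r : ℕ) : ℝ) / 2 ^ w) = (C₀ * n : ℝ) := by
      rw [hrdef]
      push_cast
      field_simp
    rw [e1]
    simpa only [viol_toClause] using h
  · -- the lower bound
    intro N q e R hq he
    revert R
    rw [viol_eq]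
    intro R i
    by_contra hcon
    rw [not_le, max_lt_iff] at hcon
    obtain ⟨hc1, hc2⟩ := hcon
    have hA : (R.A i).card ≤ 2 ^ n := by
      rw [← hcube]
      exact card_le_univ _
    have hAr : ((R.A i).card : ℝ) ≤ 2 ^ n := by exact_mod_cast hA
    have hμn : (1 : ℝ) ≤ 2 ^ (μ * n) :=
      Real.one_le_rpow (by norm_num) (mul_nonneg (by linarith) (by linarith))
    have hN2 : N ≤ 2 ^ n := by
      have h1 : (N : ℝ) * 1 ≤ N * 2 ^ (μ * n) := mul_le_mul_of_nonneg_left hμn (Nat.cast_nonneg _)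
      have h2 : (N : ℝ) ≤ 2 ^ n := by linarith
      exact_mod_cast h2
    have hN1 : 1 ≤ N := Nat.succ_le_of_lt (lt_of_le_of_lt (Nat.zero_le _) (R.home i).2)
    have hmm : (0 : ℝ) < (m : ℝ) ^ (1 - μ) := Real.rpow_pos_of_pos (by linarith) _
    have hlow := hLOW (Fin n → Bool) (Fin r) (fun j => VC (F j)) L N p q e g (2 ^ h) T n R hgood
      hN2 Nat.one_le_two_pow (hg2 e he) (hqT q hq) i (by
        intro j
        have h1 := hp4 (F j)
        have h2 : ((VC (F j)).card : ℝ) * 2 ^ w = 2 ^ n := by exact_mod_cast h1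
        have h3 : ((2 : ℝ) ^ h * (VC (F j)).card) * (m : ℝ) ^ (1 - μ) ≤ 2 ^ n := by
          calc ((2 : ℝ) ^ h * (VC (F j)).card) * (m : ℝ) ^ (1 - μ)
              = (VC (F j)).card * ((2 : ℝ) ^ h * (m : ℝ) ^ (1 - μ)) := by ring
            _ ≤ (VC (F j)).card * 2 ^ w := mul_le_mul_of_nonneg_left hroot (Nat.cast_nonneg _)
            _ = 2 ^ n := h2
        have h4 : (2 : ℝ) ^ h * (VC (F j)).card ≤ 2 ^ n / (m : ℝ) ^ (1 - μ) := by
          rw [le_div_iff₀ hmm]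
          exact h3
        have h5 : (2 : ℝ) ^ h * (VC (F j)).card < (R.A i).card := lt_of_le_of_lt h4 hc1
        exact_mod_cast h5)
    have h1 : ((R.A i).card : ℝ) ≤ 4 * (2 * N + 1) * 2 ^ g := by exact_mod_cast hlow
    have hN1r : (1 : ℝ) ≤ N := by exact_mod_cast hN1
    have h2 : (4 * (2 * N + 1) * 2 ^ g : ℝ) ≤ N * (12 * 2 ^ g) := by
      have h3 : (0 : ℝ) < 2 ^ g := by positivity
      nlinarith
    have h3 : (N : ℝ) * (12 * 2 ^ g) ≤ N * 2 ^ (μ * n) :=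
      mul_le_mul_of_nonneg_left hg1 (Nat.cast_nonneg _)
    linarith
  · -- the upper bound
    obtain ⟨N, R, hN, i, hi⟩ := hUPC n w u r Q U F hup1 hup2
    rw [viol_eq]
    refine ⟨N, R, ?_, i, hi⟩
    refine le_trans ?_ htime
    rw [hU, hQ] at hN
    have h1 : ((N : ℕ) : ℝ) ≤ ((2 ^ (n - k) * (8 * (C₀ * n) * 2 ^ u + 1) : ℕ) : ℝ) := by
      exact_mod_cast hN
    refine h1.trans (le_of_eq ?_)
    push_cast
    ring

end Pool.Agent.H40.TW
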