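import Pool.Agent.H40.TW.NumT

/-!
# The exact tradeoff between time and memory: parameters (NUM)
-/

namespace Pool.Agent.H40.TW

/-- the choice of `w` -/
lemma num_w (η : ℝ) (h0 : 0 < η) (h1 : η < 1) (C₀ : ℕ) (hC₀ : 1 ≤ C₀) :
    ∃ C : ℕ, ∀ n m : ℕ, C ≤ n → n ^ C ≤ m → m ^ C ≤ 2 ^ n →
      ∃ w : ℕ, C₀ * n * 2 ^ w ≤ m ∧ m < 2 * (C₀ * n) * 2 ^ w ∧
        (2 : ℝ) ^ 20 * C₀ * n ^ 5 ≤ 2 ^ (η ^ 2 / 160 * w) ∧ (64 / η * w : ℝ) ≤ n ∧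
        (64 / η : ℝ) ≤ n ∧ (64 / η : ℝ) * Real.logb 2 m ≤ n := by
  obtain ⟨C, hC⟩ := exists_nat_ge (160 * 30 / η ^ 2 + 64 / η + 2 * C₀ + 4)
  have hη2 : 0 < 160 * 30 / η ^ 2 := by positivity
  have hη1 : 0 < 64 / η := by positivity
  have hC0r : (1 : ℝ) ≤ C₀ := by exact_mod_cast hC₀
  refine ⟨C, ?_⟩
  intro n m hn hnm hmn
  have hCn : (C : ℝ) ≤ n := by exact_mod_cast hn
  have hC4 : (2 * C₀ + 4 : ℝ) ≤ C := by linarith
  have hC4' : 2 * C₀ + 4 ≤ C := by exact_mod_cast hC4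
  have hn1 : 1 ≤ n := by omega
  have hnr : (1 : ℝ) ≤ n := by exact_mod_cast hn1
  have hpos : 0 < C₀ * n := by positivity
  have hnn : C₀ * n ≤ m := by
    calc C₀ * n ≤ n * n := Nat.mul_le_mul_right _ (by omega)
      _ = n ^ 2 := by ring
      _ ≤ n ^ C := Nat.pow_le_pow_right hn1 (by omega)
      _ ≤ m := hnm
  have hm1 : 1 ≤ m := by omega
  have hq : m / (C₀ * n) ≠ 0 := by
    have := Nat.div_pos hnn hpos
    omega
  refine ⟨Nat.log 2 (m / (C₀ * n)), ?_, ?_, ?_, ?_, ?_, ?_⟩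
  · have := Nat.pow_log_le_self 2 hq
    calc C₀ * n * 2 ^ Nat.log 2 (m / (C₀ * n)) ≤ C₀ * n * (m / (C₀ * n)) :=
          Nat.mul_le_mul_left _ this
      _ ≤ m := Nat.mul_div_le _ _
  · have h2 := Nat.lt_pow_succ_log_self (b := 2) (by norm_num) (m / (C₀ * n))
    rw [Nat.div_lt_iff_lt_mul hpos, Nat.succ_eq_add_one, pow_succ] at h2
    calc m < 2 ^ Nat.log 2 (m / (C₀ * n)) * 2 * (C₀ * n) := h2
      _ = _ := by ring
  · set w := Nat.log 2 (m / (C₀ * n)) with hw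
    have h2 := Nat.lt_pow_succ_log_self (b := 2) (by norm_num) (m / (C₀ * n))
    rw [Nat.div_lt_iff_lt_mul hpos, Nat.succ_eq_add_one, pow_succ, ← hw] at h2
    -- `n ^ (C - 2) ≤ 2 ^ w`
    have h3 : n ^ (C - 2) ≤ 2 ^ w := by
      have h4 : n ^ (C - 2) * n ^ 2 < 2 ^ w * n ^ 2 := by
        calc n ^ (C - 2) * n ^ 2 = n ^ C := by
              rw [← pow_add]
              congr 1
              omega
          _ ≤ m := hnm
          _ < 2 ^ w * 2 * (C₀ * n) := h2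
          _ = 2 ^ w * (2 * C₀ * n) := by ring
          _ ≤ 2 ^ w * (n * n) := Nat.mul_le_mul_left _ (Nat.mul_le_mul_right _ (by omega))
          _ = 2 ^ w * n ^ 2 := by ring
      exact (lt_of_mul_lt_mul_right h4 (Nat.zero_le _)).le
    have h5 : ((n : ℝ) ^ (C - 2)) ≤ (2 : ℝ) ^ (w : ℝ) := by
      rw [Real.rpow_natCast]
      exact_mod_cast h3
    have h6 : ((n : ℝ) ^ (C - 2)) ^ (η ^ 2 / 160) ≤ (2 : ℝ) ^ (η ^ 2 / 160 * w) := by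
      rw [mul_comm, Real.rpow_mul (by norm_num)]
      exact Real.rpow_le_rpow (by positivity) h5 (by positivity)
    refine le_trans ?_ h6
    have h7 : ((n : ℝ) ^ (C - 2)) ^ (η ^ 2 / 160) = (n : ℝ) ^ (((C - 2 : ℕ) : ℝ) * (η ^ 2 / 160)) := by
      rw [← Real.rpow_natCast, ← Real.rpow_mul (by positivity)]
    rw [h7]
    have h8 : ((26 : ℕ) : ℝ) ≤ ((C - 2 : ℕ) : ℝ) * (η ^ 2 / 160) := by
      rw [Nat.cast_sub (by omega)]
      have h9 : 160 * 30 / η ^ 2 + 2 ≤ (C : ℝ) := by linarith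
      have h10 : 160 * 30 / η ^ 2 * (η ^ 2 / 160) = 30 := by field_simp
      have h11 : 160 * 30 / η ^ 2 ≤ (C : ℝ) - 2 := by linarith
      have h12 : 160 * 30 / η ^ 2 * (η ^ 2 / 160) ≤ ((C : ℝ) - 2) * (η ^ 2 / 160) :=
        mul_le_mul_of_nonneg_right h11 (by positivity)
      push_cast
      linarith
    calc (2 : ℝ) ^ 20 * C₀ * n ^ 5 ≤ (n : ℝ) ^ 20 * n * n ^ 5 := by
          have h9 : (2 : ℝ) ≤ n := by linarith
          have h10 : (C₀ : ℝ) ≤ n := by linarith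
          gcongr
      _ = (n : ℝ) ^ 26 := by ring
      _ = (n : ℝ) ^ ((26 : ℕ) : ℝ) := (Real.rpow_natCast _ _).symm
      _ ≤ _ := Real.rpow_le_rpow_of_exponent_le hnr h8
  · set w := Nat.log 2 (m / (C₀ * n)) with hw
    have h2 : 2 ^ w ≤ m := by
      have := Nat.pow_log_le_self 2 hq
      exact this.trans (Nat.div_le_self _ _)
    have h3 : 2 ^ (w * C) ≤ 2 ^ n := by
      rw [pow_mul]
      exact (Nat.pow_le_pow_left h2 C).trans hmn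
    have h4 : w * C ≤ n := (Nat.pow_le_pow_iff_right (by norm_num)).1 h3
    have h5 : (w : ℝ) * C ≤ n := by exact_mod_cast h4
    have h6 : 64 / η ≤ (C : ℝ) := by linarith
    have h7 : 64 / η * (w : ℝ) ≤ C * w := mul_le_mul_of_nonneg_right h6 (by positivity)
    linarith
  · linarith
  · have hmr : (1 : ℝ) ≤ m := by exact_mod_cast hm1
    have hl : 0 ≤ Real.logb 2 m := Real.logb_nonneg (by norm_num) hmr
    have h3 : (C : ℝ) * Real.logb 2 m ≤ n := by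
      have h4 : ((m : ℝ) ^ C) ≤ 2 ^ n := by exact_mod_cast hmn
      have h5 := Real.logb_le_logb_of_le (b := 2) (by norm_num) (by positivity) h4
      rw [Real.logb_pow, Real.logb_pow, Real.logb_self_eq_one (by norm_num)] at h5
      linarith
    have h6 : 64 / η ≤ (C : ℝ) := by linarith
    exact (mul_le_mul_of_nonneg_right h6 hl).trans h3

section
variable {μ η S Z : ℝ} {C₀ n m w h : ℕ}

/-- powers of `m` -/
lemma num_pow (hC₀ : 1 ≤ C₀) (hn : 1 ≤ n) (hm : m < 2 * (C₀ * n) * 2 ^ w) {a : ℝ} (ha : 0 ≤ a)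
    (ha1 : a ≤ 1) : (m : ℝ) ^ a ≤ 2 * (C₀ * n) * (2 : ℝ) ^ (a * w) := by
  have hC : (1 : ℝ) ≤ C₀ := by exact_mod_cast hC₀
  have hn' : (1 : ℝ) ≤ n := by exact_mod_cast hn
  have h1 : (m : ℝ) ≤ 2 * (C₀ * n) * 2 ^ w := by exact_mod_cast hm.le
  have h2 : (1 : ℝ) ≤ 2 * (C₀ * n) := by nlinarith
  calc (m : ℝ) ^ a ≤ (2 * (C₀ * n) * 2 ^ w : ℝ) ^ a := Real.rpow_le_rpow (by positivity) h1 ha
    _ = (2 * (C₀ * n) : ℝ) ^ a * ((2 : ℝ) ^ w) ^ a := Real.mul_rpow (by positivity) (by positivity)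
    _ ≤ (2 * (C₀ * n) : ℝ) ^ (1 : ℝ) * (2 : ℝ) ^ (a * w) := by
        refine mul_le_mul (Real.rpow_le_rpow_of_exponent_le h2 ha1) (le_of_eq ?_) (by positivity)
          (by positivity)
        rw [← Real.rpow_natCast, ← Real.rpow_mul (by norm_num), mul_comm]
    _ = _ := by rw [Real.rpow_one]

/-- the bound for the number of the dense clauses -/
lemma num_T (hC₀ : 1 ≤ C₀) (hn : 1 ≤ n) (hS : (2 : ℝ) ^ 20 * C₀ * n ^ 5 ≤ S) (hSZ : S ≤ Z)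
    (hZ1 : (2 : ℝ) ^ h ≤ Z) (hZ2 : Z < 2 * 2 ^ h) :
    (∀ q : ℕ, (q : ℝ) * S ≤ 2 * (C₀ * n) * Z →
      4 * (2 * n + 2) ^ 2 * (q + 2 ^ h / (8 * (2 * n + 2) ^ 2)) ≤ 2 ^ h) ∧
    (∀ M : ℕ, (M : ℝ) * S ≤ 2 * (C₀ * n) * Z →
      2 + (2 * M * (2 * n + 1) + 2) * (4 * n + 3) ≤ 2 ^ h / (8 * (2 * n + 2) ^ 2)) ∧
    Z ≤ 512 * (n ^ 2 * ((2 ^ h / (8 * (2 * n + 2) ^ 2) : ℕ) : ℝ)) := by
  have hC : (1 : ℝ) ≤ C₀ := by exact_mod_cast hC₀
  have hn' : (1 : ℝ) ≤ n := by exact_mod_cast hn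
  set T : ℕ := 2 ^ h / (8 * (2 * n + 2) ^ 2) with hT
  have hS5 : (2 : ℝ) ^ 20 * n ^ 5 ≤ S := by
    refine le_trans ?_ hS
    have : (0 : ℝ) ≤ 2 ^ 20 * n ^ 5 := by positivity
    nlinarith
  have hSpos : 0 < S := lt_of_lt_of_le (by positivity) hS5
  have hZpos : 0 < Z := hSpos.trans_le hSZ
  have hdpos : 0 < 8 * (2 * n + 2) ^ 2 := by positivity
  have hT1 : 8 * (2 * n + 2) ^ 2 * T ≤ 2 ^ h := Nat.mul_div_le _ _
  have hT2 : 2 ^ h < 8 * (2 * n + 2) ^ 2 * (T + 1) := by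
    have := Nat.lt_succ_self (2 ^ h / (8 * (2 * n + 2) ^ 2))
    rw [Nat.div_lt_iff_lt_mul hdpos] at this
    rw [mul_comm]
    exact this
  have hT3 : Z < 256 * (n ^ 2 * ((T : ℝ) + 1)) := by
    have h1 : ((2 : ℝ) ^ h) < 8 * (2 * n + 2) ^ 2 * (T + 1) := by exact_mod_cast hT2
    have h2 : (8 * (2 * n + 2) ^ 2 : ℝ) ≤ 128 * n ^ 2 := by nlinarith
    have h3 : (8 * (2 * n + 2) ^ 2 * (T + 1) : ℝ) ≤ 128 * n ^ 2 * (T + 1) :=
      mul_le_mul_of_nonneg_right h2 (by positivity)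
    nlinarith
  have hkey : ∀ q : ℕ, (q : ℝ) * S ≤ 2 * (C₀ * n) * Z → (q : ℝ) * (2 ^ 19 * n ^ 4) ≤ Z := by
    intro q hq
    have h1 : (q : ℝ) * (2 ^ 20 * C₀ * n ^ 5) ≤ 2 * (C₀ * n) * Z :=
      (mul_le_mul_of_nonneg_left hS (by positivity)).trans hq
    have h2 : (2 * (C₀ * n) : ℝ) * ((q : ℝ) * (2 ^ 19 * n ^ 4)) ≤ 2 * (C₀ * n) * Z := by
      calc (2 * (C₀ * n) : ℝ) * ((q : ℝ) * (2 ^ 19 * n ^ 4)) = q * (2 ^ 20 * C₀ * n ^ 5) := by ring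
        _ ≤ _ := h1
    exact le_of_mul_le_mul_left h2 (by positivity)
  have hn24 : (n : ℝ) ^ 2 ≤ n ^ 4 := pow_le_pow_right₀ hn' (by norm_num)
  have hn35 : (n : ℝ) ^ 3 ≤ n ^ 5 := pow_le_pow_right₀ hn' (by norm_num)
  have hn25 : (n : ℝ) ^ 2 ≤ n ^ 5 := pow_le_pow_right₀ hn' (by norm_num)
  refine ⟨?_, ?_, ?_⟩
  · intro q hq
    have h1 := hkey q hq
    have h2 : (q : ℝ) * n ^ 2 ≤ q * n ^ 4 := mul_le_mul_of_nonneg_left hn24 (by positivity)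
    have h3 : (8 * (2 * n + 2) ^ 2 : ℝ) ≤ 128 * n ^ 2 := by nlinarith
    have h4 : (8 * (2 * n + 2) ^ 2 * q : ℝ) ≤ 128 * n ^ 2 * q :=
      mul_le_mul_of_nonneg_right h3 (by positivity)
    have h5 : (8 * (2 * n + 2) ^ 2 * q : ℝ) ≤ 2 ^ h := by nlinarith
    have h6 : 8 * (2 * n + 2) ^ 2 * q ≤ 2 ^ h := by exact_mod_cast h5
    have h7 : 2 * (4 * (2 * n + 2) ^ 2 * (q + T)) =
      8 * (2 * n + 2) ^ 2 * q + 8 * (2 * n + 2) ^ 2 * T := by ring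
    omega
  · intro M hM
    have h1 := hkey M hM
    have h2 : (M : ℝ) * n ^ 4 ≤ Z / 2 ^ 19 := by
      rw [le_div_iff₀ (by positivity)]
      linarith
    have h3 : (n : ℝ) ^ 3 ≤ Z / 2 ^ 20 := by
      rw [le_div_iff₀ (by positivity)]
      nlinarith
    have h4 : ((2 + (2 * M * (2 * n + 1) + 2) * (4 * n + 3) : ℕ) : ℝ) + 1 ≤
        42 * (M * n ^ 2) + 17 * n := by
      push_cast
      have h5 : (2 * n + 1 : ℝ) ≤ 3 * n := by linarith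
      have h6 : (4 * n + 3 : ℝ) ≤ 7 * n := by linarith
      have h7 : (2 * M * (2 * n + 1) + 2 : ℝ) ≤ 6 * (M * n) + 2 := by nlinarith
      have h8 : ((2 * M * (2 * n + 1) + 2) * (4 * n + 3) : ℝ) ≤ (6 * (M * n) + 2) * (7 * n) :=
        mul_le_mul h7 h6 (by positivity) (by positivity)
      nlinarith
    have h5 : (((2 + (2 * M * (2 * n + 1) + 2) * (4 * n + 3) : ℕ) : ℝ) + 1) * n ^ 2 <
        (T + 1) * n ^ 2 := by
      calc (((2 + (2 * M * (2 * n + 1) + 2) * (4 * n + 3) : ℕ) : ℝ) + 1) * n ^ 2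
          ≤ (42 * (M * n ^ 2) + 17 * n) * n ^ 2 := mul_le_mul_of_nonneg_right h4 (by positivity)
        _ = 42 * (M * n ^ 4) + 17 * n ^ 3 := by ring
        _ ≤ 42 * (Z / 2 ^ 19) + 17 * (Z / 2 ^ 20) := by linarith
        _ ≤ Z / 256 := by linarith
        _ < (T + 1) * n ^ 2 := by
          rw [div_lt_iff₀ (by norm_num)]
          linarith
    have h6 := lt_of_mul_lt_mul_right h5 (by positivity)
    have h7 : ((2 + (2 * M * (2 * n + 1) + 2) * (4 * n + 3) : ℕ) : ℝ) < T := by linarith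
    exact_mod_cast h7.le
  · have h2 : (512 * n ^ 2 : ℝ) ≤ Z := by nlinarith
    nlinarith

end

/-- the base of the moment bound -/
lemma num_rho {μ' η' : ℝ} (hη : 0 < η') (hη1 : η' < μ') (hμ : μ' < 1) (w : ℕ) :
    0 ≤ 1 + (η' / 8) ^ 2 - η' / 8 * ((μ' - η' / 4) * Real.log 2) ∧
    (1 + (η' / 8) ^ 2 - η' / 8 * ((μ' - η' / 4) * Real.log 2)) ^ w ≤
      (2 : ℝ) ^ (-(w * (η' / 8) * (μ' - 9 * η' / 20))) := by
  have hl1 := Real.log_two_gt_d9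
  have hl2 := Real.log_two_lt_d9
  have h0 : 0 ≤ 1 + (η' / 8) ^ 2 - η' / 8 * ((μ' - η' / 4) * Real.log 2) := by
    have h1 : (μ' - η' / 4) * Real.log 2 ≤ 1 := by nlinarith
    nlinarith [sq_nonneg (η' / 8)]
  refine ⟨h0, ?_⟩
  have h1 : 1 + (η' / 8) ^ 2 - η' / 8 * ((μ' - η' / 4) * Real.log 2) ≤
      Real.exp ((η' / 8) ^ 2 - η' / 8 * ((μ' - η' / 4) * Real.log 2)) := by
    have := Real.add_one_le_exp ((η' / 8) ^ 2 - η' / 8 * ((μ' - η' / 4) * Real.log 2))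
    linarith
  refine (pow_le_pow_left₀ h0 h1 w).trans ?_
  rw [← Real.exp_nat_mul, Real.rpow_def_of_pos (by norm_num)]
  refine Real.exp_le_exp.2 ?_
  have h2 : (η' / 8) ^ 2 ≤ η' / 8 * (η' / 5 * Real.log 2) := by nlinarith
  have h3 : (w : ℝ) * ((η' / 8) ^ 2 - η' / 8 * ((μ' - η' / 4) * Real.log 2)) ≤
      w * (η' / 8 * (η' / 5 * Real.log 2) - η' / 8 * ((μ' - η' / 4) * Real.log 2)) :=
    mul_le_mul_of_nonneg_left (by linarith) (Nat.cast_nonneg w)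
  refine h3.trans (le_of_eq ?_)
  ring

lemma two_hpow {x y : ℝ} (hxy : x ≤ y) : (2 : ℝ) ^ x ≤ 2 ^ y :=
  Real.rpow_le_rpow_of_exponent_le (by norm_num) hxy

lemma two_hadd (x y : ℝ) : (2 : ℝ) ^ x * 2 ^ y = 2 ^ (x + y) :=
  (Real.rpow_add (by norm_num) x y).symm

lemma two_h2h (k : ℕ) : (2 : ℝ) ^ k = 2 ^ (k : ℝ) := (Real.rpow_natCast _ _).symm

/-- the size of the small sets -/
lemma num_g {μ η : ℝ} {n g : ℕ} (h0 : 0 < η) (hηn : 64 ≤ η * n)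
    (hg1 : (g : ℝ) ≤ (μ - η / 8) * n) (hg2 : (μ - η / 8) * (n : ℝ) < g + 1) :
    ((12 * 2 ^ g : ℝ) ≤ 2 ^ (μ * n) ∧ ∀ e : ℕ, (e : ℝ) ≤ 2 ^ ((μ - η) * n) → e ≤ 2 ^ g) := by
  refine ⟨?_, ?_⟩
  · calc (12 * 2 ^ g : ℝ) ≤ (2 : ℝ) ^ (4 : ℝ) * 2 ^ ((μ - η / 8) * (n : ℝ)) := by
          refine mul_le_mul ?_ ?_ (by positivity) (by positivity)
          · have : (2 : ℝ) ^ (4 : ℝ) = 16 := by
              rw [show (4 : ℝ) = ((4 : ℕ) : ℝ) by norm_num, Real.rpow_natCast]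
              norm_num
            rw [this]
            norm_num
          · rw [two_h2h]
            exact two_hpow hg1
      _ = 2 ^ (4 + (μ - η / 8) * (n : ℝ)) := two_hadd _ _
      _ ≤ _ := two_hpow (by linarith)
  · intro e he
    have h1 : (e : ℝ) ≤ 2 ^ g := by
      refine he.trans ?_
      rw [two_h2h]
      exact two_hpow (by linarith)
    exact_mod_cast h1

/-- the root -/
lemma num_root {μ η S Z : ℝ} {C₀ n m w h : ℕ} (h0 : 0 < η) (hμ0 : 0 ≤ μ) (hμ : μ ≤ 1)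
    (hη1 : η < 1) (hC₀ : 1 ≤ C₀) (hn1 : 1 ≤ n) (hw2 : m < 2 * (C₀ * n) * 2 ^ w)
    (hw3 : (2 : ℝ) ^ 20 * C₀ * n ^ 5 ≤ S) (hS : S = 2 ^ (η ^ 2 / 160 * (w : ℝ)))
    (hZ : Z = 2 ^ ((μ - η / 2) * (w : ℝ))) (hZ1 : (2 : ℝ) ^ h ≤ Z) :
    (2 : ℝ) ^ h * (m : ℝ) ^ (1 - μ) ≤ 2 ^ w := by
  have hnr : (1 : ℝ) ≤ n := by exact_mod_cast hn1
  have hwr : (0 : ℝ) ≤ w := Nat.cast_nonneg w
  have hZpos : 0 < Z := by rw [hZ]; positivity
  have h1 := num_pow hC₀ hn1 hw2 (a := 1 - μ) (by linarith) (by linarith)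
  have h5 : η ^ 2 / 160 * (w : ℝ) ≤ η / 2 * w := by
    refine mul_le_mul_of_nonneg_right ?_ hwr
    nlinarith
  calc (2 : ℝ) ^ h * (m : ℝ) ^ (1 - μ) ≤ Z * (2 * (C₀ * n) * (2 : ℝ) ^ ((1 - μ) * (w : ℝ))) :=
        mul_le_mul hZ1 h1 (by positivity) hZpos.le
    _ = 2 * (C₀ * n) * (Z * (2 : ℝ) ^ ((1 - μ) * (w : ℝ))) := by ring
    _ ≤ S * (Z * (2 : ℝ) ^ ((1 - μ) * (w : ℝ))) := by
        refine mul_le_mul_of_nonneg_right ?_ (by positivity)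
        refine le_trans ?_ hw3
        have h2 : (n : ℝ) ≤ n ^ 5 := by
          calc (n : ℝ) = n ^ 1 := (pow_one _).symm
            _ ≤ n ^ 5 := pow_le_pow_right₀ hnr (by norm_num)
        have h3 : (0 : ℝ) ≤ C₀ * n ^ 5 := by positivity
        have h4 : (C₀ * n : ℝ) ≤ C₀ * n ^ 5 := mul_le_mul_of_nonneg_left h2 (by positivity)
        linarith
    _ = 2 ^ (η ^ 2 / 160 * (w : ℝ) + ((μ - η / 2) * w + (1 - μ) * w)) := by
        rw [hS, hZ, two_hadd, two_hadd]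
    _ ≤ 2 ^ (w : ℝ) := two_hpow (by linarith)
    _ = 2 ^ w := (two_h2h w).symm

/-- `8 r ≤ K T` -/
lemma num_KT {S Z R K T : ℝ} {C₀ n w h : ℕ} (hn1 : 1 ≤ n)
    (hw3 : (2 : ℝ) ^ 20 * C₀ * n ^ 5 ≤ S) (hZ1 : (2 : ℝ) ^ h ≤ Z)
    (hT5 : Z ≤ 512 * (n ^ 2 * T)) (hR : R = 2 ^ w * S / (2 * 2 ^ h)) (hR2 : 2 ≤ R)
    (hK2 : R < K + 1) : (8 * (C₀ * n * 2 ^ w) : ℝ) ≤ K * T := by
  have hnr : (1 : ℝ) ≤ n := by exact_mod_cast hn1
  have hZpos : 0 < Z := lt_of_lt_of_le (by positivity) hZ1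
  have hKR : R / 2 ≤ K := by linarith
  have hTn : Z / 512 ≤ n ^ 2 * (T : ℝ) := by linarith
  have h1 : R / 2 * (Z / 512) ≤ K * (n ^ 2 * (T : ℝ)) :=
    mul_le_mul hKR hTn (by positivity) (by linarith)
  have h2 : (2 : ℝ) ^ w * S / 2048 ≤ R / 2 * (Z / 512) := by
    have h3 : R * 2 ^ h = 2 ^ w * S / 2 := by
      rw [hR]
      field_simp
    have h4 : R * 2 ^ h ≤ R * Z := mul_le_mul_of_nonneg_left hZ1 (by linarith)
    linarith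
  have h4 : (2 : ℝ) ^ w * (2 ^ 20 * C₀ * n ^ 5) ≤ 2 ^ w * S :=
    mul_le_mul_of_nonneg_left hw3 (by positivity)
  have h5 : (n : ℝ) ^ 3 ≤ n ^ 5 := pow_le_pow_right₀ hnr (by norm_num)
  have h6 : (2 : ℝ) ^ w * (C₀ * n ^ 3) ≤ 2 ^ w * (C₀ * n ^ 5) :=
    mul_le_mul_of_nonneg_left (mul_le_mul_of_nonneg_left h5 (by positivity)) (by positivity)
  have h7 : (0 : ℝ) ≤ 2 ^ w * (C₀ * (n : ℝ) ^ 3) := by positivity
  have h8 : (8 * (C₀ * n * 2 ^ w) : ℝ) * (n : ℝ) ^ 2 = 8 * (2 ^ w * (C₀ * (n : ℝ) ^ 3)) := by ring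
  have h9 : (2 : ℝ) ^ w * (2 ^ 20 * C₀ * (n : ℝ) ^ 5) / 2048 =
      512 * (2 ^ w * (C₀ * (n : ℝ) ^ 5)) := by ring
  have h10 : (8 * (C₀ * n * 2 ^ w) : ℝ) * (n : ℝ) ^ 2 ≤ K * T * (n : ℝ) ^ 2 := by
    have h11 : K * T * (n : ℝ) ^ 2 = K * (n ^ 2 * (T : ℝ)) := by ring
    linarith
  exact le_of_mul_le_mul_right h10 (by positivity)

/-- the main inequality -/
lemma num_main {μ η S G R K : ℝ} {n w h g : ℕ} (h0 : 0 < η) (hημ : η < μ) (hμ : μ < 1)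
    (hηn : 64 ≤ η * n) (hηw : 64 * (w : ℝ) ≤ η * n)
    (hS : S = 2 ^ (η ^ 2 / 160 * (w : ℝ))) (hh1 : (h : ℝ) ≤ (μ - η / 2) * w)
    (hG : G = 2 ^ ((μ - η / 4) * (n : ℝ))) (hg2 : (μ - η / 8) * (n : ℝ) < g + 1)
    (hR : R = 2 ^ w * S / (2 * 2 ^ h)) (hK0 : 0 ≤ K) (hK1 : K ≤ R) :
    K * (((2 : ℝ) ^ h) ^ (1 + η / 8) *
      ((1 + (η / 8) ^ 2 - η / 8 * ((μ - η / 4) * Real.log 2)) ^ w +
        2 ^ w * (G / 2 ^ g) ^ (1 + η / 8))) ≤ 2 ^ w := by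
  obtain ⟨hr0, hr1⟩ := num_rho h0 hημ hμ w
  have hwr : (0 : ℝ) ≤ w := Nat.cast_nonneg w
  have hGpos : 0 < G := by rw [hG]; positivity
  have e1 : ((2 : ℝ) ^ h) ^ (1 + η / 8) ≤ 2 ^ h * 2 ^ ((μ - η / 2) * w * (η / 8)) := by
    rw [Real.rpow_add (by positivity), Real.rpow_one]
    refine mul_le_mul_of_nonneg_left ?_ (by positivity)
    rw [two_h2h, ← Real.rpow_mul (by norm_num)]
    exact two_hpow (mul_le_mul_of_nonneg_right hh1 (by positivity))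
  have e2 : (2 : ℝ) ^ w * (G / 2 ^ g) ^ (1 + η / 8) ≤
      2 ^ (-(w * (η / 8) * (μ - 9 * η / 20))) := by
    have h1 : G / 2 ^ g ≤ 2 ^ (1 - η / 8 * n) := by
      rw [div_le_iff₀ (by positivity), hG, two_h2h g, two_hadd]
      exact two_hpow (by linarith)
    have h2 : G / 2 ^ g ≤ 1 := by
      refine h1.trans ?_
      rw [← Real.rpow_zero 2]
      exact two_hpow (by linarith)
    have h3 : (G / 2 ^ g) ^ (1 + η / 8) ≤ (G / 2 ^ g) ^ (1 : ℝ) :=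
      Real.rpow_le_rpow_of_exponent_ge (by positivity) h2 (by linarith)
    rw [Real.rpow_one] at h3
    calc (2 : ℝ) ^ w * (G / 2 ^ g) ^ (1 + η / 8) ≤ 2 ^ (w : ℝ) * 2 ^ (1 - η / 8 * n) := by
          rw [two_h2h w]
          exact mul_le_mul_of_nonneg_left (h3.trans h1) (by positivity)
      _ = 2 ^ ((w : ℝ) + (1 - η / 8 * n)) := two_hadd _ _
      _ ≤ _ := by
        refine two_hpow ?_
        have h5 : (η / 8) * (μ - 9 * η / 20) ≤ 1 := by nlinarith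
        have h6 : (w : ℝ) * ((η / 8) * (μ - 9 * η / 20)) ≤ w * 1 :=
          mul_le_mul_of_nonneg_left h5 hwr
        linarith
  have e3 : (1 + (η / 8) ^ 2 - η / 8 * ((μ - η / 4) * Real.log 2)) ^ w +
      2 ^ w * (G / 2 ^ g) ^ (1 + η / 8) ≤ 2 * 2 ^ (-(w * (η / 8) * (μ - 9 * η / 20))) := by
    linarith
  have e4 : (0 : ℝ) ≤ (1 + (η / 8) ^ 2 - η / 8 * ((μ - η / 4) * Real.log 2)) ^ w +
      2 ^ w * (G / 2 ^ g) ^ (1 + η / 8) := by positivity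
  calc K * (((2 : ℝ) ^ h) ^ (1 + η / 8) *
        ((1 + (η / 8) ^ 2 - η / 8 * ((μ - η / 4) * Real.log 2)) ^ w +
        2 ^ w * (G / 2 ^ g) ^ (1 + η / 8)))
      ≤ R * ((2 ^ h * 2 ^ ((μ - η / 2) * w * (η / 8))) *
        (2 * 2 ^ (-(w * (η / 8) * (μ - 9 * η / 20))))) := by
        refine mul_le_mul hK1 ?_ (by positivity) (hK0.trans hK1)
        exact mul_le_mul e1 e3 e4 (by positivity)
    _ = (R * (2 * 2 ^ h)) * (2 ^ ((μ - η / 2) * w * (η / 8)) *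
        2 ^ (-(w * (η / 8) * (μ - 9 * η / 20)))) := by ring
    _ = (2 ^ w * S) * 2 ^ ((μ - η / 2) * w * (η / 8) +
        -(w * (η / 8) * (μ - 9 * η / 20))) := by
        rw [two_hadd, hR]
        congr 1
        field_simp
    _ = 2 ^ w * 2 ^ (η ^ 2 / 160 * w + ((μ - η / 2) * w * (η / 8) +
        -(w * (η / 8) * (μ - 9 * η / 20)))) := by
        rw [mul_assoc, hS, two_hadd]
    _ = 2 ^ w := by
        have : η ^ 2 / 160 * (w : ℝ) + ((μ - η / 2) * w * (η / 8) +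
          -(w * (η / 8) * (μ - 9 * η / 20))) = 0 := by ring
        rw [this, Real.rpow_zero, mul_one]
    _ ≤ 2 ^ w := le_refl _

/-- Markov -/
lemma num_markov {μ η : ℝ} {C₀ n w u k : ℕ} (h0 : 0 < η) (hη1 : η < 1) (hμ0 : 0 ≤ μ)
    (hμ : μ < 1) (hC₀η : 16 / η ≤ (C₀ : ℝ)) (hk1 : (k : ℝ) ≤ μ * n)
    (hu2 : (μ + η / 2) * (w : ℝ) < u + 1) :
    n * (u + 1) * 4 + C₀ * (k * w) ≤ C₀ * (n * (u + 1)) := by
  have hnpos : (0 : ℝ) ≤ n := Nat.cast_nonneg n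
  have hwr : (0 : ℝ) ≤ w := Nat.cast_nonneg w
  have h2 : (4 : ℝ) ≤ C₀ * (η / 4) := by
    rw [div_le_iff₀ h0] at hC₀η
    linarith
  have h3 : (n * (u + 1) * 4 : ℝ) ≤ n * (u + 1) * (C₀ * (η / 4)) :=
    mul_le_mul_of_nonneg_left h2 (by positivity)
  have h7 : μ ≤ (μ + η / 2) * (1 - η / 4) := by nlinarith
  have h6 : μ * (w : ℝ) ≤ (u + 1) * (1 - η / 4) := by
    calc μ * (w : ℝ) ≤ (μ + η / 2) * (1 - η / 4) * w := mul_le_mul_of_nonneg_right h7 hwr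
      _ = (μ + η / 2) * w * (1 - η / 4) := by ring
      _ ≤ (u + 1) * (1 - η / 4) := mul_le_mul_of_nonneg_right hu2.le (by linarith)
  have h4 : (k * w : ℝ) ≤ (u + 1) * (1 - η / 4) * n := by
    have h5 : (k * w : ℝ) ≤ μ * n * w := mul_le_mul_of_nonneg_right hk1 hwr
    have h8 : μ * (w : ℝ) * n ≤ (u + 1) * (1 - η / 4) * n :=
      mul_le_mul_of_nonneg_right h6 hnpos
    linarith
  have h9 : (C₀ * (k * w) : ℝ) ≤ C₀ * ((u + 1) * (1 - η / 4) * n) :=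
    mul_le_mul_of_nonneg_left h4 (by positivity)
  have h1 : (n * (u + 1) * 4 + C₀ * (k * w) : ℝ) ≤ C₀ * (n * (u + 1)) := by linarith
  exact_mod_cast h1

/-- the memory of the upper bound -/
lemma num_mem {μ η S : ℝ} {C₀ n m w u : ℕ} (h0 : 0 < η) (hη1 : η < 1) (hμ0 : 0 ≤ μ)
    (hC₀ : 1 ≤ C₀) (hn1 : 1 ≤ n)
    (hw3 : (2 : ℝ) ^ 20 * C₀ * n ^ 5 ≤ S) (hS : S = 2 ^ (η ^ 2 / 160 * (w : ℝ)))
    (h2wmr : (2 : ℝ) ^ w ≤ m) (hu1 : (u : ℝ) ≤ (μ + η / 2) * w) :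
    (4 * n * (8 * (C₀ * n) * 2 ^ u + 1) + 1 : ℝ) ≤ (m : ℝ) ^ (μ + η) := by
  have hnr : (1 : ℝ) ≤ n := by exact_mod_cast hn1
  have hC₀r : (1 : ℝ) ≤ C₀ := by exact_mod_cast hC₀
  have hwr : (0 : ℝ) ≤ w := Nat.cast_nonneg w
  have h5' : η ^ 2 / 160 * (w : ℝ) ≤ η / 2 * w := by
    refine mul_le_mul_of_nonneg_right ?_ hwr
    nlinarith
  have h1 : (2 : ℝ) ^ u * S ≤ 2 ^ ((μ + η) * (w : ℝ)) := by
    rw [two_h2h, hS, two_hadd]
    exact two_hpow (by linarith)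
  have h2 : (2 : ℝ) ^ ((μ + η) * (w : ℝ)) ≤ (m : ℝ) ^ (μ + η) := by
    calc (2 : ℝ) ^ ((μ + η) * (w : ℝ)) = ((2 : ℝ) ^ w) ^ (μ + η) := by
          rw [two_h2h w, ← Real.rpow_mul (by norm_num), mul_comm]
      _ ≤ _ := Real.rpow_le_rpow (by positivity) h2wmr (by linarith)
  refine le_trans ?_ (h1.trans h2)
  have h3 : (2 : ℝ) ^ u * (2 ^ 20 * C₀ * n ^ 5) ≤ 2 ^ u * S :=
    mul_le_mul_of_nonneg_left hw3 (by positivity)
  refine le_trans ?_ h3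
  have h4 : (1 : ℝ) ≤ 2 ^ u := one_le_pow₀ (by norm_num)
  have h5 : (n : ℝ) ^ 2 ≤ n ^ 5 := pow_le_pow_right₀ hnr (by norm_num)
  have h6 : (2 : ℝ) ^ u * (C₀ * (n : ℝ) ^ 2) ≤ 2 ^ u * (C₀ * (n : ℝ) ^ 5) :=
    mul_le_mul_of_nonneg_left (mul_le_mul_of_nonneg_left h5 (by positivity)) (by positivity)
  have h9 : (1 : ℝ) ≤ 2 ^ u * C₀ := by nlinarith
  have h10 : (n : ℝ) ≤ n ^ 2 := by
    calc (n : ℝ) = n ^ 1 := (pow_one _).symm
      _ ≤ n ^ 2 := pow_le_pow_right₀ hnr (by norm_num)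
  have h7 : (n : ℝ) ≤ 2 ^ u * (C₀ * (n : ℝ) ^ 2) := by
    calc (n : ℝ) ≤ 1 * n ^ 2 := by rw [one_mul]; exact h10
      _ ≤ (2 ^ u * C₀) * n ^ 2 := mul_le_mul_of_nonneg_right h9 (by positivity)
      _ = _ := by ring
  have h8 : (4 * n * (8 * (C₀ * n) * 2 ^ u + 1) + 1 : ℝ) =
      32 * (2 ^ u * (C₀ * (n : ℝ) ^ 2)) + 4 * n + 1 := by ring
  have h11 : (2 : ℝ) ^ u * (2 ^ 20 * C₀ * (n : ℝ) ^ 5) =
      2 ^ 20 * (2 ^ u * (C₀ * (n : ℝ) ^ 5)) := by ring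
  rw [h8, h11]
  linarith

/-- the time of the upper bound -/
lemma num_time {μ η : ℝ} {C₀ n m w u k : ℕ} (h0 : 0 < η) (hη1 : η < 1) (hμ : μ < 1)
    (hm1 : 1 ≤ m) (hw1 : C₀ * n * 2 ^ w ≤ m)
    (hηn : 64 ≤ η * n) (hm64 : 64 / η * Real.logb 2 m ≤ (n : ℝ))
    (h2wmr : (2 : ℝ) ^ w ≤ m) (hu1 : (u : ℝ) ≤ (μ + η / 2) * w)
    (hkn : k ≤ n) (hk2 : μ * (n : ℝ) < k + 1) :
    (2 ^ (n - k) * (8 * (C₀ * n) * 2 ^ u + 1) : ℝ) ≤ 2 ^ ((1 - μ + η) * n) := by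
  have hmr : (1 : ℝ) ≤ m := by exact_mod_cast hm1
  have hwr : (0 : ℝ) ≤ w := Nat.cast_nonneg w
  have h1 : ((n - k : ℕ) : ℝ) ≤ (1 - μ) * n + 1 := by
    rw [Nat.cast_sub hkn]
    linarith
  have h2 : (2 : ℝ) ^ u ≤ 2 ^ w * 2 ^ w := by
    rw [two_h2h u, two_h2h w, two_hadd]
    refine two_hpow ?_
    have h7 : (μ + η / 2) * (w : ℝ) ≤ 2 * w := mul_le_mul_of_nonneg_right (by linarith) hwr
    linarith
  have h3 : (8 * (C₀ * n) * 2 ^ u + 1 : ℝ) ≤ 9 * (m * m) := by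
    have h4 : (C₀ * n * 2 ^ w : ℝ) ≤ m := by exact_mod_cast hw1
    have h5 : (C₀ * n * 2 ^ u : ℝ) ≤ m * m := by
      calc (C₀ * n * 2 ^ u : ℝ) ≤ C₀ * n * (2 ^ w * 2 ^ w) :=
            mul_le_mul_of_nonneg_left h2 (by positivity)
        _ = (C₀ * n * 2 ^ w) * 2 ^ w := by ring
        _ ≤ m * m := mul_le_mul h4 h2wmr (by positivity) (by positivity)
    have h6 : (1 : ℝ) ≤ m * m := by nlinarith
    linarith
  have h4 : (m : ℝ) = 2 ^ (Real.logb 2 m) :=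
    (Real.rpow_logb (by norm_num) (by norm_num) (by linarith)).symm
  have h5 : (9 * (m * m) : ℝ) ≤ 2 ^ (4 + 2 * Real.logb 2 m) := by
    have h6 : (2 : ℝ) ^ (4 + 2 * Real.logb 2 m) = 16 * (m * m) := by
      rw [Real.rpow_add (by norm_num), two_mul, Real.rpow_add (by norm_num), ← h4]
      congr 1
      rw [show (4 : ℝ) = ((4 : ℕ) : ℝ) by norm_num, Real.rpow_natCast]
      norm_num
    rw [h6]
    have : (0 : ℝ) ≤ m * m := by positivity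
    linarith
  have h6 : 64 * Real.logb 2 m ≤ η * n := by
    have h7 : 64 / η * Real.logb 2 m * η ≤ n * η := mul_le_mul_of_nonneg_right hm64 h0.le
    have h8 : 64 / η * Real.logb 2 m * η = 64 * Real.logb 2 m := by field_simp
    linarith
  calc (2 ^ (n - k) * (8 * (C₀ * n) * 2 ^ u + 1) : ℝ)
      ≤ 2 ^ ((1 - μ) * n + 1) * 2 ^ (4 + 2 * Real.logb 2 m) := by
        refine mul_le_mul ?_ (h3.trans h5) (by positivity) (by positivity)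
        rw [two_h2h]
        exact two_hpow h1
    _ = 2 ^ ((1 - μ) * n + 1 + (4 + 2 * Real.logb 2 m)) := two_hadd _ _
    _ ≤ _ := two_hpow (by linarith)

theorem num : T_NUM := by
  intro μ η h0 hημ hμ C₁
  have hη1 : η < 1 := hημ.trans hμ
  obtain ⟨C₂, hC₂⟩ := exists_nat_ge (16 / η)
  set C₀ : ℕ := max (max C₁ C₂) 1 with hC₀def
  have hC₀ : 1 ≤ C₀ := le_max_right _ _
  have hC₀r : (1 : ℝ) ≤ C₀ := by exact_mod_cast hC₀
  have hC₀η : 16 / η ≤ (C₀ : ℝ) := by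
    refine hC₂.trans ?_
    have : C₂ ≤ C₀ := (le_max_right _ _).trans (le_max_left _ _)
    exact_mod_cast this
  obtain ⟨C, hC⟩ := num_w η h0 hη1 C₀ hC₀
  refine ⟨C₀, max C 1, (le_max_left _ _).trans (le_max_left _ _), hC₀, ?_⟩
  clear_value C₀
  intro n m hn hnm hmn
  have hn1 : 1 ≤ n := (le_max_right _ _).trans hn
  have hm1 : 1 ≤ m := (Nat.one_le_pow _ _ hn1).trans hnm
  obtain ⟨w, hw1, hw2, hw3, hw4, hn64, hm64⟩ := hC n m ((le_max_left _ _).trans hn)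
    ((Nat.pow_le_pow_right hn1 (le_max_left _ _)).trans hnm)
    ((Nat.pow_le_pow_right hm1 (le_max_left _ _)).trans hmn)
  clear hC hn hnm hmn
  have hnr : (1 : ℝ) ≤ n := by exact_mod_cast hn1
  have hnpos : (0 : ℝ) < n := by linarith
  have hwr : (0 : ℝ) ≤ w := Nat.cast_nonneg w
  set S : ℝ := 2 ^ (η ^ 2 / 160 * (w : ℝ)) with hS
  set Z : ℝ := 2 ^ ((μ - η / 2) * (w : ℝ)) with hZ
  have hηn : 64 ≤ η * n := by
    rw [div_le_iff₀ h0] at hn64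
    linarith
  have hηw : 64 * (w : ℝ) ≤ η * n := by
    have h1 : 64 / η * (w : ℝ) * η ≤ n * η := mul_le_mul_of_nonneg_right hw4 h0.le
    have h2 : 64 / η * (w : ℝ) * η = 64 * w := by field_simp
    linarith
  have hwn : w ≤ n := by
    have h1 : η * (n : ℝ) ≤ 1 * n := mul_le_mul_of_nonneg_right hη1.le hnpos.le
    have h2 : (w : ℝ) ≤ n := by linarith
    exact_mod_cast h2
  have hηsq : η ^ 2 / 160 ≤ η / 2 := by nlinarith
  have hηsqw : η ^ 2 / 160 * (w : ℝ) ≤ η / 2 * w := mul_le_mul_of_nonneg_right hηsq hwr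
  have hSZ : S ≤ Z := two_hpow (hηsqw.trans (mul_le_mul_of_nonneg_right (by linarith) hwr))
  have hS20 : (2 : ℝ) ^ 20 ≤ S := by
    refine le_trans ?_ hw3
    have hn5 : (1 : ℝ) ≤ (n : ℝ) ^ 5 := one_le_pow₀ hnr
    nlinarith
  have hSpos : 0 < S := by positivity
  have hZpos : 0 < Z := by positivity
  set h : ℕ := ⌊(μ - η / 2) * (w : ℝ)⌋₊ with hh
  have hexp0 : 0 ≤ (μ - η / 2) * (w : ℝ) := mul_nonneg (by linarith) hwr
  have hh1 : (h : ℝ) ≤ (μ - η / 2) * w := Nat.floor_le hexp0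
  have hh2 : (μ - η / 2) * (w : ℝ) < h + 1 := Nat.lt_floor_add_one _
  have hZ1 : (2 : ℝ) ^ h ≤ Z := by
    rw [two_h2h]
    exact two_hpow hh1
  have hZ2 : Z < 2 * 2 ^ h := by
    have h1 : Z < 2 ^ ((h : ℝ) + 1) := Real.rpow_lt_rpow_of_exponent_lt (by norm_num) hh2
    rw [Real.rpow_add (by norm_num), Real.rpow_one, ← two_h2h] at h1
    linarith
  clear_value h
  obtain ⟨hq, hM, hT5⟩ := num_T (C₀ := C₀) (n := n) (h := h) hC₀ hn1 hw3 hSZ hZ1 hZ2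
  set T : ℕ := 2 ^ h / (8 * (2 * n + 2) ^ 2) with hT
  clear_value T
  -- powers of `m`
  have hmu : (m : ℝ) ^ (μ - η) * S ≤ 2 * (C₀ * n) * Z := by
    have h1 := num_pow hC₀ hn1 hw2 (a := μ - η) (by linarith) (by linarith)
    calc (m : ℝ) ^ (μ - η) * S ≤ (2 * (C₀ * n) * (2 : ℝ) ^ ((μ - η) * w)) * S :=
          mul_le_mul_of_nonneg_right h1 hSpos.le
      _ = 2 * (C₀ * n) * ((2 : ℝ) ^ ((μ - η) * (w : ℝ)) * S) := by ring
      _ ≤ 2 * (C₀ * n) * Z := by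
        refine mul_le_mul_of_nonneg_left ?_ (by positivity)
        rw [hS, two_hadd]
        exact two_hpow (by linarith)
  have hmul : ∀ q : ℕ, (q : ℝ) ≤ (m : ℝ) ^ (μ - η) → (q : ℝ) * S ≤ 2 * (C₀ * n) * Z :=
    fun q hq => (mul_le_mul_of_nonneg_right hq hSpos.le).trans hmu
  have hT1 : 1 ≤ T := by
    have h1 := hM 0 (hmul 0 (by rw [Nat.cast_zero]; positivity))
    omega
  have h2wm : 2 ^ w ≤ m := by
    refine le_trans ?_ hw1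
    exact Nat.le_mul_of_pos_left _ (by positivity)
  have h2wmr : (2 : ℝ) ^ w ≤ m := by exact_mod_cast h2wm
  set R : ℝ := 2 ^ w * S / (2 * 2 ^ h) with hR
  have hR2 : 2 ≤ R := by
    have hhw : (2 : ℝ) ^ h ≤ 2 ^ w := by
      have h1 : (h : ℝ) ≤ w := by
        have : (μ - η / 2) * (w : ℝ) ≤ 1 * w := mul_le_mul_of_nonneg_right (by linarith) hwr
        linarith
      have h2 : h ≤ w := by exact_mod_cast h1
      exact pow_le_pow_right₀ (by norm_num) h2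
    rw [hR, le_div_iff₀ (by positivity)]
    have h1 : (0 : ℝ) < 2 ^ h := by positivity
    have h4 : (4 : ℝ) ≤ S := by linarith
    calc 2 * (2 * (2 : ℝ) ^ h) = 2 ^ h * 4 := by ring
      _ ≤ 2 ^ w * S := mul_le_mul hhw h4 (by norm_num) (by positivity)
  have hkn : ⌊μ * (n : ℝ)⌋₊ ≤ n := by
    have h1 : (⌊μ * (n : ℝ)⌋₊ : ℝ) ≤ μ * n :=
      Nat.floor_le (mul_nonneg (by linarith) hnpos.le)
    have h2 : μ * (n : ℝ) ≤ 1 * n := mul_le_mul_of_nonneg_right hμ.le hnpos.le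
    have h3 : (⌊μ * (n : ℝ)⌋₊ : ℝ) ≤ n := by linarith
    exact_mod_cast h3
  have hlogG : Real.log ((2 : ℝ) ^ ((μ - η / 4) * (n : ℝ))) / n = (μ - η / 4) * Real.log 2 := by
    rw [Real.log_rpow (by norm_num)]
    field_simp
  have hbase : 1 + (η / 8) ^ 2 - η / 8 * Real.log ((2 : ℝ) ^ ((μ - η / 4) * (n : ℝ))) / n =
      1 + (η / 8) ^ 2 - η / 8 * ((μ - η / 4) * Real.log 2) := by
    rw [← hlogG]
    ring
  refine ⟨w, h, T, ⌊(μ - η / 8) * (n : ℝ)⌋₊, ⌊R⌋₊, ⌊(μ + η / 2) * (w : ℝ)⌋₊, ⌊μ * (n : ℝ)⌋₊,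
    2 ^ ((μ - η / 4) * (n : ℝ)), hn1, hwn, hw1, h2wm, hT1, ?_, ?_, ?_, ?_, ?_, ⟨?_, ?_⟩,
    ?_, hkn, ?_, ?_, ?_⟩
  · exact num_g h0 hηn (Nat.floor_le (mul_nonneg (by linarith) hnpos.le))
      (Nat.lt_floor_add_one _)
  · intro q hq'
    exact hq q (hmul q hq')
  · exact num_root h0 (by linarith) hμ.le hη1 hC₀ hn1 hw2 hw3 hS hZ hZ1
  · intro M hM'
    exact hM M (hmul M hM')
  · have h1 := num_KT (K := (⌊R⌋₊ : ℝ)) hn1 hw3 hZ1 hT5 hR hR2 (Nat.lt_floor_add_one _)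
    exact_mod_cast h1
  · exact Real.one_le_rpow (by norm_num) (mul_nonneg (by linarith) hnpos.le)
  · rw [hbase]
    exact (num_rho h0 hημ hμ w).1
  · rw [hbase]
    exact num_main h0 hημ hμ hηn hηw hS hh1 rfl (Nat.lt_floor_add_one _) hR
      (Nat.cast_nonneg _) (Nat.floor_le (by linarith))
  · exact num_markov h0 hη1 (by linarith) hμ hC₀η
      (Nat.floor_le (mul_nonneg (by linarith) hnpos.le)) (Nat.lt_floor_add_one _)
  · exact num_mem h0 hη1 (by linarith) hC₀ hn1 hw3 hS h2wmr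
      (Nat.floor_le (mul_nonneg (by linarith) hwr))
  · exact num_time h0 hη1 hμ hm1 hw1 hηn hm64 h2wmr
      (Nat.floor_le (mul_nonneg (by linarith) hwr)) hkn (Nat.lt_floor_add_one _)

end Pool.Agent.H40.TW
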