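import Mathlib

/-!
# The exact tradeoff between time and memory: parameters (target), all exponents at once
-/

namespace Pool.Agent.H40.TW

/-- NUM3: choice of the parameters, `m = C₀ n 2 ^ w` -/
def T_NUM3 : Prop :=
  ∀ η : ℝ, 0 < η → η < 1 → ∀ C₁ : ℕ, ∃ C₀ C : ℕ, C₁ ≤ C₀ ∧ 1 ≤ C₀ ∧
    ∀ n w : ℕ, C ≤ n → n ^ C ≤ 2 ^ w → C * w ≤ n →
    1 ≤ n ∧ w ≤ n ∧ C₀ * n * 2 ^ w ≤ 2 ^ n ∧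
    ∀ μ : ℝ, η < μ → μ < 1 → ∃ h T g K u k : ℕ, ∃ G : ℝ, 1 ≤ T ∧
      -- lower bound
      ((12 * 2 ^ g : ℝ) ≤ 2 ^ (μ * n) ∧ ∀ e : ℕ, (e : ℝ) ≤ 2 ^ ((μ - η) * n) → e ≤ 2 ^ g) ∧
      (∀ q : ℕ, (q : ℝ) ≤ ((C₀ * n * 2 ^ w : ℕ) : ℝ) ^ (μ - η) →
        4 * (2 * n + 2) ^ 2 * (q + T) ≤ 2 ^ h) ∧
      (2 : ℝ) ^ h * ((C₀ * n * 2 ^ w : ℕ) : ℝ) ^ (1 - μ) ≤ 2 ^ w ∧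
      (∀ M : ℕ, (M : ℝ) ≤ ((C₀ * n * 2 ^ w : ℕ) : ℝ) ^ (μ - η) →
        4 * n + 2 + (2 * M * (2 * n + 1) + 2) * (4 * n + 3) ≤ T) ∧
      8 * (C₀ * n * 2 ^ w) ≤ K * T ∧
      (1 ≤ G ∧ 0 ≤ 1 + (η / 8) ^ 2 - η / 8 * Real.log G / n) ∧
      (K : ℝ) * (((2 : ℝ) ^ h) ^ (1 + η / 8) * ((1 + (η / 8) ^ 2 - η / 8 * Real.log G / n) ^ w +
        2 ^ w * (G / 2 ^ g) ^ (1 + η / 8))) ≤ 2 ^ w ∧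
      -- upper bound
      k ≤ n ∧ n * (u + 1) * 4 + C₀ * (k * w) ≤ C₀ * (n * (u + 1)) ∧
      3 * n + 4 ≤ 8 * (C₀ * n) * 2 ^ u ∧
      (2 * (4 * n * (8 * (C₀ * n) * 2 ^ u + 1) + 1) + 2 : ℝ) ≤
        ((C₀ * n * 2 ^ w : ℕ) : ℝ) ^ (μ + η) ∧
      (2 ^ (n - k) * (8 * (C₀ * n) * 2 ^ u + 1) : ℝ) ≤ 2 ^ ((1 - μ + η) * n)

end Pool.Agent.H40.TW
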