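import Pool.Agent.H40.TW.Final
import Pool.Agent.H40.TW.Targets3
import Pool.Agent.H40.TW.NumT3
import Pool.Agent.H40.TW.NUM

/-!
# The exact tradeoff between time and memory: assembly (FIN3)
-/

namespace Pool.Agent.H40.TW

open Finset Pool.Agent.H80.SH

/-- The tradeoff for all memory sizes and almost all formulas at once. -/
def CurveStatement : Prop :=
  ∀ η : ℝ, 0 < η → η < 1 → ∃ C₀ C : ℕ, 1 ≤ C₀ ∧
    ∀ n w m : ℕ, C ≤ n → n ^ C ≤ 2 ^ w → C * w ≤ n → m = C₀ * n * 2 ^ w →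
    ∃ L₁ : ℕ → Finset (Finset (Fin n → Bool)),
      (∀ M : ℕ, (m : ℝ) ^ η ≤ M → (M : ℝ) ≤ (m : ℝ) ^ (1 - η) → ((L₁ M).card + 1) ^ 2 ≤ 2 ^ M) ∧
      ∀ (L : ℕ → Finset (Finset (Fin n → Bool))) (p : ℕ → ℕ),
        (∀ M, ((L M).card + 1) ^ p M ≤ 2 ^ M) →
        ∃ B : Finset (Fin m → Clause n), 2 ^ n * B.card ≤ (clausesOf n w).card ^ m ∧
          ∀ F : Fin m → Clause n, (∀ j, F j ∈ clausesOf n w) → F ∉ B →
            (∀ x, (1 - η) * (m / 2 ^ w) ≤ ((univ.filter (fun j => x ∈ (F j).Viol)).card : ℝ)) ∧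
            ∀ M : ℕ, 1 ≤ M → (M : ℝ) ≤ (m : ℝ) ^ (1 - η) →
              (∀ (N q e : ℕ) (R : Derivation (fun j => (F j).Viol) (L M) N (p M) q e),
                q ≤ M → (e : ℝ) ≤ 2 ^ (Real.logb m M * n) →
                ∀ i, ((R.A i).card : ℝ) ≤
                  max (2 ^ n * (M * (m : ℝ) ^ η / m)) (N * 2 ^ ((Real.logb m M + η) * n))) ∧
              ((m : ℝ) ^ η ≤ M →
                ∃ (N : ℕ) (R : Derivation (fun j => (F j).Viol) (L₁ M) N 2 1 0),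
                  (N : ℝ) ≤ 2 ^ ((1 - Real.logb m M + η) * n) ∧ ∃ i, R.A i = univ)

/-- few dense clauses -/
lemma few_dense (hDEN : T_DEN) {n w h g K : ℕ} {η G : ℝ} (hη : 0 < η) (hη1 : η < 1) (hwn : w ≤ n)
    (hG1 : 1 ≤ G) (hG2 : 0 ≤ 1 + (η / 8) ^ 2 - η / 8 * Real.log G / n)
    (hmain : (K : ℝ) * (((2 : ℝ) ^ h) ^ (1 + η / 8) *
      ((1 + (η / 8) ^ 2 - η / 8 * Real.log G / n) ^ w +
        2 ^ w * (G / 2 ^ g) ^ (1 + η / 8))) ≤ 2 ^ w) :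
    ∀ P : Finset (Fin n → Bool), 2 ^ g ≤ P.card →
      K * (dense (VC : Cl n w → _) (2 ^ h) P).card ≤ Fintype.card (Cl n w) := by
  intro P hP
  have hPne : P.Nonempty := card_pos.1 (lt_of_lt_of_le (by positivity) hP)
  have h1 := hDEN n w (2 ^ h) (η / 8) G P hwn (Nat.one_le_two_pow) (by linarith)
    (by linarith) hG1 hG2 hPne
  have hPr : (2 : ℝ) ^ g ≤ P.card := by exact_mod_cast hP
  have hGpos : 0 < G := by linarith
  have h2 : (G / P.card) ^ (1 + η / 8) ≤ (G / 2 ^ g) ^ (1 + η / 8) := by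
    refine Real.rpow_le_rpow (by positivity) ?_ (by linarith)
    exact div_le_div_of_nonneg_left hGpos.le (by positivity) hPr
  set b : ℝ := (1 + (η / 8) ^ 2 - η / 8 * Real.log G / n) ^ w with hb
  have hbn : 0 ≤ b := pow_nonneg hG2 w
  have h3 : (K : ℝ) * (((dense (VC : Cl n w → _) (2 ^ h) P).card : ℝ) * 2 ^ w) ≤
      Fintype.card (Cl n w) * 2 ^ w := by
    calc (K : ℝ) * (((dense (VC : Cl n w → _) (2 ^ h) P).card : ℝ) * 2 ^ w)
        ≤ K * (Fintype.card (Cl n w) * ((((2 ^ h : ℕ) : ℝ)) ^ (1 + η / 8) *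
          (b + 2 ^ w * (G / P.card) ^ (1 + η / 8)))) :=
          mul_le_mul_of_nonneg_left h1 (Nat.cast_nonneg _)
      _ ≤ K * (Fintype.card (Cl n w) * ((((2 ^ h : ℕ) : ℝ)) ^ (1 + η / 8) *
          (b + 2 ^ w * (G / 2 ^ g) ^ (1 + η / 8)))) := by
          gcongr
      _ = Fintype.card (Cl n w) * (K * (((2 : ℝ) ^ h) ^ (1 + η / 8) *
          (b + 2 ^ w * (G / 2 ^ g) ^ (1 + η / 8)))) := by
          push_cast
          ring
      _ ≤ Fintype.card (Cl n w) * 2 ^ w :=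
          mul_le_mul_of_nonneg_left hmain (Nat.cast_nonneg _)
  have h4 : (K : ℝ) * ((dense (VC : Cl n w → _) (2 ^ h) P).card : ℝ) ≤
      Fintype.card (Cl n w) := by
    have h5 : (0 : ℝ) < 2 ^ w := by positivity
    refine le_of_mul_le_mul_right ?_ h5
    calc (K : ℝ) * ((dense (VC : Cl n w → _) (2 ^ h) P).card : ℝ) * 2 ^ w
        = K * (((dense (VC : Cl n w → _) (2 ^ h) P).card : ℝ) * 2 ^ w) := by ring
      _ ≤ _ := h3
  exact_mod_cast h4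

/-- the number of the path sets, for all memory sizes at once -/
lemma count_all (hPSC : T_PSC) (hDLC : T_DLC) {X : Type} [Fintype X] [DecidableEq X]
    (L : ℕ → Finset (Finset X)) (p : ℕ → ℕ) (n M₀ T : ℕ)
    (hL : ∀ M, ((L M).card + 1) ^ p M ≤ 2 ^ M) (hM₀ : M₀ ≤ 2 ^ n)
    (hT : 4 * n + 2 + (2 * M₀ * (2 * n + 1) + 2) * (4 * n + 3) ≤ T) :
    4 ^ n * ((range (M₀ + 1)).biUnion
      (fun M => PS (DLF (L M) (p M * (2 * n + 1))) (4 * n + 3))).card ≤ 2 ^ T := by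
  have h1 : ∀ M ∈ range (M₀ + 1), 4 * (PS (DLF (L M) (p M * (2 * n + 1))) (4 * n + 3)).card ≤
      2 ^ (2 + (2 * M₀ * (2 * n + 1) + 2) * (4 * n + 3)) := by
    intro M hM
    refine count_ps hPSC hDLC (L M) n (p M) M _ (hL M) ?_
    have h2 : M ≤ M₀ := Nat.lt_succ_iff.1 (mem_range.1 hM)
    gcongr
  have h2 : 4 * ((range (M₀ + 1)).biUnion
      (fun M => PS (DLF (L M) (p M * (2 * n + 1))) (4 * n + 3))).card ≤
      (M₀ + 1) * 2 ^ (2 + (2 * M₀ * (2 * n + 1) + 2) * (4 * n + 3)) := by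
    calc 4 * ((range (M₀ + 1)).biUnion
        (fun M => PS (DLF (L M) (p M * (2 * n + 1))) (4 * n + 3))).card
        ≤ 4 * ∑ M ∈ range (M₀ + 1), (PS (DLF (L M) (p M * (2 * n + 1))) (4 * n + 3)).card :=
          Nat.mul_le_mul_left _ card_biUnion_le
      _ = ∑ M ∈ range (M₀ + 1), 4 * (PS (DLF (L M) (p M * (2 * n + 1))) (4 * n + 3)).card :=
          mul_sum _ _ _
      _ ≤ ∑ _M ∈ range (M₀ + 1), 2 ^ (2 + (2 * M₀ * (2 * n + 1) + 2) * (4 * n + 3)) :=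
          sum_le_sum h1
      _ = _ := by rw [sum_const, card_range, smul_eq_mul]
  have h3 : M₀ + 1 ≤ 2 ^ (n + 1) := by
    have : 1 ≤ 2 ^ n := Nat.one_le_two_pow
    rw [pow_succ]
    omega
  set E : ℕ := (2 * M₀ * (2 * n + 1) + 2) * (4 * n + 3) with hE
  have h4 : (4 : ℕ) ^ n = 2 ^ (2 * n) := by
    rw [pow_mul]
    norm_num
  have h5 : ((range (M₀ + 1)).biUnion
      (fun M => PS (DLF (L M) (p M * (2 * n + 1))) (4 * n + 3))).card ≤ 2 ^ (n + 1) * 2 ^ E := by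
    have h6 : (M₀ + 1) * 2 ^ (2 + E) ≤ 4 * (2 ^ (n + 1) * 2 ^ E) := by
      calc (M₀ + 1) * 2 ^ (2 + E) ≤ 2 ^ (n + 1) * 2 ^ (2 + E) := Nat.mul_le_mul_right _ h3
        _ = 4 * (2 ^ (n + 1) * 2 ^ E) := by rw [pow_add 2 2 E]; ring
    omega
  calc 4 ^ n * _ ≤ 2 ^ (2 * n) * (2 ^ (n + 1) * 2 ^ E) := by
        rw [h4]
        exact Nat.mul_le_mul_left _ h5
    _ = 2 ^ (2 * n + (n + 1) + E) := by rw [pow_add, pow_add]; ring
    _ ≤ 2 ^ T := Nat.pow_le_pow_right (by norm_num) (by omega)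

/-- the bound for the derivations from a formula with few dense clauses -/
lemma low_bound (hLOW : T_LOW) {n w m h g T N p q e : ℕ} {μ : ℝ} (hμ0 : 0 ≤ μ)
    (hm1 : 1 ≤ m) (hp4 : ∀ c : Cl n w, (VC c).card * 2 ^ w = 2 ^ n)
    {r : ℕ} (F : Fin r → Cl n w) (L : Finset (Finset (Fin n → Bool)))
    (hgood : ∀ P ∈ PS (DLF L (p * (2 * n + 1))) (4 * n + 3), 2 ^ g ≤ P.card →
      (dense (fun j => VC (F j)) (2 ^ h) P).card ≤ T)
    (hg1 : (12 * 2 ^ g : ℝ) ≤ 2 ^ (μ * n)) (he : e ≤ 2 ^ g)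
    (hqT : 4 * (2 * n + 2) ^ 2 * (q + T) ≤ 2 ^ h)
    (hroot : (2 : ℝ) ^ h * (m : ℝ) ^ (1 - μ) ≤ 2 ^ w)
    (R : Derivation (fun j => VC (F j)) L N p q e) (i : Fin R.T) :
    ((R.A i).card : ℝ) ≤ max (2 ^ n / (m : ℝ) ^ (1 - μ)) (N * 2 ^ (μ * n)) := by
  have hmr : (1 : ℝ) ≤ m := by exact_mod_cast hm1
  by_contra hcon
  rw [not_le, max_lt_iff] at hcon
  obtain ⟨hc1, hc2⟩ := hcon
  have hA : (R.A i).card ≤ 2 ^ n := by
    refine (card_le_univ _).trans (le_of_eq ?_)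
    simp
  have hAr : ((R.A i).card : ℝ) ≤ 2 ^ n := by exact_mod_cast hA
  have hμn : (1 : ℝ) ≤ 2 ^ (μ * n) :=
    Real.one_le_rpow (by norm_num) (mul_nonneg hμ0 (Nat.cast_nonneg _))
  have hN2 : N ≤ 2 ^ n := by
    have h1 : (N : ℝ) * 1 ≤ N * 2 ^ (μ * n) := mul_le_mul_of_nonneg_left hμn (Nat.cast_nonneg _)
    have h2 : (N : ℝ) ≤ 2 ^ n := by linarith
    exact_mod_cast h2
  have hN1 : 1 ≤ N := Nat.succ_le_of_lt (lt_of_le_of_lt (Nat.zero_le _) (R.home i).2)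
  have hmm : (0 : ℝ) < (m : ℝ) ^ (1 - μ) := Real.rpow_pos_of_pos (by linarith) _
  have hlow := hLOW (Fin n → Bool) (Fin r) (fun j => VC (F j)) L N p q e g (2 ^ h) T n R hgood
    hN2 Nat.one_le_two_pow he hqT i (by
      intro j
      have h1 := hp4 (F j)
      have h2 : ((VC (F j)).card : ℝ) * 2 ^ w = 2 ^ n := by exact_mod_cast h1
      have h3 : ((2 : ℝ) ^ h * (VC (F j)).card) * (m : ℝ) ^ (1 - μ) ≤ 2 ^ n := by
        calc ((2 : ℝ) ^ h * (VC (F j)).card) * (m : ℝ) ^ (1 - μ)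
            = (VC (F j)).card * ((2 : ℝ) ^ h * (m : ℝ) ^ (1 - μ)) := by ring
          _ ≤ (VC (F j)).card * 2 ^ w := mul_le_mul_of_nonneg_left hroot (Nat.cast_nonneg _)
          _ = 2 ^ n := h2
      have h4 : (2 : ℝ) ^ h * (VC (F j)).card ≤ 2 ^ n / (m : ℝ) ^ (1 - μ) := by
        rw [le_div_iff₀ hmm]
        exact h3
      have h5 : (2 : ℝ) ^ h * (VC (F j)).card < (R.A i).card := lt_of_le_of_lt h4 hc1
      exact_mod_cast h5)
  have h1 : ((R.A i).card : ℝ) ≤ 4 * (2 * N + 1) * 2 ^ g := by exact_mod_cast hlow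
  have hN1r : (1 : ℝ) ≤ N := by exact_mod_cast hN1
  have h2 : (4 * (2 * N + 1) * 2 ^ g : ℝ) ≤ N * (12 * 2 ^ g) := by
    have h3 : (0 : ℝ) < 2 ^ g := by positivity
    nlinarith
  have h3 : (N : ℝ) * (12 * 2 ^ g) ≤ N * 2 ^ (μ * n) :=
    mul_le_mul_of_nonneg_left hg1 (Nat.cast_nonneg _)
  linarith

/-- one exponent -/
lemma one_exponent (hGOO : T_GOO3) (hDEN : T_DEN) (hLOW : T_LOW) (hPSC : T_PSC) (hDLC : T_DLC)
    (hPRS : T_PRS) (hUPR : T_UPR3) (hUPC : T_UPC) (hUPL : T_UPL) {η : ℝ} (h0 : 0 < η)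
    (hη1 : η < 1) {C₀ n w m : ℕ} (hC₀ : 1 ≤ C₀) (hn1 : 1 ≤ n) (hwn : w ≤ n)
    (hm : m = C₀ * n * 2 ^ w) (hm2 : m ≤ 2 ^ n) {μ : ℝ} (hημ : η < μ) (hμ : μ < 1)
    (hnum : ∃ h T g K u k : ℕ, ∃ G : ℝ, 1 ≤ T ∧
      ((12 * 2 ^ g : ℝ) ≤ 2 ^ (μ * n) ∧ ∀ e : ℕ, (e : ℝ) ≤ 2 ^ ((μ - η) * n) → e ≤ 2 ^ g) ∧
      (∀ q : ℕ, (q : ℝ) ≤ (m : ℝ) ^ (μ - η) → 4 * (2 * n + 2) ^ 2 * (q + T) ≤ 2 ^ h) ∧
      (2 : ℝ) ^ h * (m : ℝ) ^ (1 - μ) ≤ 2 ^ w ∧
      (∀ M : ℕ, (M : ℝ) ≤ (m : ℝ) ^ (μ - η) →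
        4 * n + 2 + (2 * M * (2 * n + 1) + 2) * (4 * n + 3) ≤ T) ∧
      8 * m ≤ K * T ∧
      (1 ≤ G ∧ 0 ≤ 1 + (η / 8) ^ 2 - η / 8 * Real.log G / n) ∧
      (K : ℝ) * (((2 : ℝ) ^ h) ^ (1 + η / 8) * ((1 + (η / 8) ^ 2 - η / 8 * Real.log G / n) ^ w +
        2 ^ w * (G / 2 ^ g) ^ (1 + η / 8))) ≤ 2 ^ w ∧
      k ≤ n ∧ n * (u + 1) * 4 + C₀ * (k * w) ≤ C₀ * (n * (u + 1)) ∧
      3 * n + 4 ≤ 8 * (C₀ * n) * 2 ^ u ∧
      (2 * (4 * n * (8 * (C₀ * n) * 2 ^ u + 1) + 1) + 2 : ℝ) ≤ (m : ℝ) ^ (μ + η) ∧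
      (2 ^ (n - k) * (8 * (C₀ * n) * 2 ^ u + 1) : ℝ) ≤ 2 ^ ((1 - μ + η) * n)) :
    ∃ L₁ : Finset (Finset (Fin n → Bool)),
      (∀ M : ℕ, (m : ℝ) ^ (μ + η) ≤ M → (L₁.card + 1) ^ 2 ≤ 2 ^ M) ∧
      ∀ (L : ℕ → Finset (Finset (Fin n → Bool))) (p : ℕ → ℕ),
        (∀ M, ((L M).card + 1) ^ p M ≤ 2 ^ M) →
        ∃ B : Finset (Fin m → Cl n w), 4 ^ n * B.card ≤ 2 * Fintype.card (Cl n w) ^ m ∧
          ∀ F, F ∉ B →
            (∀ M : ℕ, (M : ℝ) ≤ (m : ℝ) ^ (μ - η) →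
              ∀ (N q e : ℕ) (R : Derivation (fun j => VC (F j)) (L M) N (p M) q e),
                (q : ℝ) ≤ (m : ℝ) ^ (μ - η) → (e : ℝ) ≤ 2 ^ ((μ - η) * n) →
                ∀ i, ((R.A i).card : ℝ) ≤
                  max (2 ^ n / (m : ℝ) ^ (1 - μ)) (N * 2 ^ (μ * n))) ∧
            ∃ (N : ℕ) (R : Derivation (fun j => VC (F j)) L₁ N 2 1 0),
              (N : ℝ) ≤ 2 ^ ((1 - μ + η) * n) ∧ ∃ i, R.A i = univ := by
  classical
  obtain ⟨h, T, g, K, u, k, G, hT1, ⟨hg1, hg2⟩, hqT, hroot, hMT, hKT,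
    ⟨hG1, hG2⟩, hmain, hkn, hmark, hQn, hmem, htime⟩ := hnum
  obtain ⟨hp1, hp2, hp3, hp4⟩ := hPRS n w hwn
  have hclpos : 0 < Fintype.card (Cl n w) := by
    rw [hp1]
    exact Nat.mul_pos (Nat.choose_pos hwn) (by positivity)
  have hm1 : 1 ≤ m := by
    rw [hm]
    exact Nat.mul_pos (Nat.mul_pos hC₀ hn1) (by positivity)
  have hmr : (1 : ℝ) ≤ m := by exact_mod_cast hm1
  obtain ⟨U, -, hU⟩ := Finset.exists_subset_card_eq (s := (univ : Finset (Fin n))) (n := k)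
    (by rw [card_univ, Fintype.card_fin]; exact hkn)
  set Q : ℕ := 8 * (C₀ * n) * 2 ^ u with hQ
  refine ⟨Lup n w U Q, ?_, ?_⟩
  · intro M hM
    have h1 := hUPL n w Q U hn1 hwn
    have h2 : (2 * (4 * n * (Q + 1) + 1) + 2 : ℝ) ≤ M := by
      refine le_trans (le_of_eq ?_) (hmem.trans hM)
      rw [hQ]
      push_cast
      ring
    have h3 : 2 * (4 * n * (Q + 1) + 1) + 2 ≤ M := by exact_mod_cast h2
    calc ((Lup n w U Q).card + 1) ^ 2 ≤ (2 ^ (4 * n * (Q + 1) + 1) + 1) ^ 2 :=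
          Nat.pow_le_pow_left (Nat.add_le_add_right h1 1) 2
      _ ≤ (2 ^ (4 * n * (Q + 1) + 1 + 1)) ^ 2 := by
          refine Nat.pow_le_pow_left ?_ 2
          have : 1 ≤ 2 ^ (4 * n * (Q + 1) + 1) := Nat.one_le_two_pow
          rw [pow_succ 2 (4 * n * (Q + 1) + 1)]
          omega
      _ = 2 ^ (2 * (4 * n * (Q + 1) + 1) + 2) := by
          rw [← pow_mul]
          congr 1
          ring
      _ ≤ 2 ^ M := Nat.pow_le_pow_right (by norm_num) h3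
  intro L p hL
  set M₀ : ℕ := ⌊(m : ℝ) ^ (μ - η)⌋₊ with hM₀
  have hM₀le : (M₀ : ℝ) ≤ (m : ℝ) ^ (μ - η) := Nat.floor_le (by positivity)
  have hM₀2 : M₀ ≤ 2 ^ n := by
    have h1 : (m : ℝ) ^ (μ - η) ≤ m := by
      calc (m : ℝ) ^ (μ - η) ≤ (m : ℝ) ^ (1 : ℝ) :=
            Real.rpow_le_rpow_of_exponent_le hmr (by linarith)
        _ = m := Real.rpow_one _
    have h2 : (M₀ : ℝ) ≤ m := hM₀le.trans h1
    have h3 : M₀ ≤ m := by exact_mod_cast h2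
    exact h3.trans hm2
  obtain ⟨B₁, hB₁, hB₁'⟩ := hGOO (Fin n → Bool) (Cl n w) VC
    ((range (M₀ + 1)).biUnion (fun M => PS (DLF (L M) (p M * (2 * n + 1))) (4 * n + 3)))
    m g (2 ^ h) T K (4 ^ n) hT1 (few_dense hDEN h0 hη1 hwn hG1 hG2 hmain) hKT
    (count_all hPSC hDLC L p n M₀ T hL hM₀2 (hMT M₀ hM₀le))
  obtain ⟨B₂, hB₂, hB₂'⟩ := hUPR n w u C₀ Q U hn1 hwn (by rw [hU]; exact hmark) (le_refl _) hQn
  subst hm
  refine ⟨B₁ ∪ B₂, ?_, ?_⟩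
  · calc 4 ^ n * (B₁ ∪ B₂).card ≤ 4 ^ n * (B₁.card + B₂.card) :=
          Nat.mul_le_mul_left _ (card_union_le _ _)
      _ = 4 ^ n * B₁.card + 4 ^ n * B₂.card := Nat.mul_add _ _ _
      _ ≤ _ := by omega
  intro F hF
  rw [mem_union, not_or] at hF
  refine ⟨?_, ?_⟩
  · intro M hM N q e R hq he i
    have hM2 : M ≤ M₀ := Nat.le_floor hM
    refine low_bound hLOW (by linarith) hm1 hp4 F (L M) ?_ hg1 (hg2 e he) (hqT q hq) hroot R i
    intro P hP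
    exact hB₁' F hF.1 P (mem_biUnion.2 ⟨M, mem_range.2 (by omega), hP⟩)
  · obtain ⟨hup1, hup2⟩ := hB₂' F hF.2
    obtain ⟨N, R, hN, i, hi⟩ := hUPC n w u _ Q U F hup1 hup2
    refine ⟨N, R, ?_, i, hi⟩
    refine le_trans ?_ htime
    rw [hU, hQ] at hN
    have h1 : ((N : ℕ) : ℝ) ≤ ((2 ^ (n - k) * (8 * (C₀ * n) * 2 ^ u + 1) : ℕ) : ℝ) := by
      exact_mod_cast hN
    refine h1.trans (le_of_eq ?_)
    push_cast
    ring

/-- the choice of the exponents: `j = ⌊4 μ / η⌋ + 2` (lower bound) and `⌊4 μ / η⌋ - 1` (upper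
bound) -/
lemma grid {η μ : ℝ} (h0 : 0 < η) (hμ0 : 0 ≤ μ) (hμ : μ ≤ 1 - η) :
    (∃ j : ℕ, j < ⌈4 / η⌉₊ + 3 ∧ η / 4 < j * (η / 4) ∧ (j * (η / 4) : ℝ) < 1 ∧
      μ + η / 4 ≤ j * (η / 4) ∧ (j * (η / 4) : ℝ) ≤ μ + η / 2) ∧
    (η ≤ μ → ∃ j : ℕ, j < ⌈4 / η⌉₊ + 3 ∧ η / 4 < j * (η / 4) ∧ (j * (η / 4) : ℝ) < 1 ∧
      (j * (η / 4) : ℝ) + η / 4 ≤ μ ∧ μ - η / 2 ≤ j * (η / 4)) := by
  have h4 : 0 < η / 4 := by positivity
  set y : ℝ := μ / (η / 4) with hy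
  have hy0 : 0 ≤ y := by positivity
  have hyμ : y * (η / 4) = μ := by
    rw [hy]
    field_simp
  have hf1 : (⌊y⌋₊ : ℝ) ≤ y := Nat.floor_le hy0
  have hf2 : y < ⌊y⌋₊ + 1 := Nat.lt_floor_add_one y
  have hy4 : y ≤ 4 / η := by
    rw [hy, div_div_eq_mul_div]
    refine div_le_div_of_nonneg_right ?_ h0.le
    nlinarith
  have hc : (⌊y⌋₊ : ℕ) ≤ ⌈4 / η⌉₊ := by
    have h1 : (⌊y⌋₊ : ℝ) ≤ ⌈4 / η⌉₊ := (hf1.trans hy4).trans (Nat.le_ceil _)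
    exact_mod_cast h1
  refine ⟨⟨⌊y⌋₊ + 2, by omega, ?_, ?_, ?_, ?_⟩, ?_⟩
  · push_cast
    have : (0 : ℝ) ≤ ⌊y⌋₊ := Nat.cast_nonneg _
    nlinarith
  · push_cast
    nlinarith
  · push_cast
    nlinarith
  · push_cast
    nlinarith
  · intro hημ
    have hy4' : 4 ≤ y := by
      rw [hy, le_div_iff₀ h4]
      linarith
    have hf4 : 4 ≤ ⌊y⌋₊ := Nat.le_floor hy4'
    refine ⟨⌊y⌋₊ - 1, by omega, ?_, ?_, ?_, ?_⟩
    · rw [Nat.cast_sub (by omega)]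
      have : (4 : ℝ) ≤ ⌊y⌋₊ := by exact_mod_cast hf4
      push_cast
      nlinarith
    · rw [Nat.cast_sub (by omega)]
      push_cast
      nlinarith
    · rw [Nat.cast_sub (by omega)]
      push_cast
      nlinarith
    · rw [Nat.cast_sub (by omega)]
      push_cast
      nlinarith

theorem curve (hGOO : T_GOO3) (hDEN : T_DEN) (hLOW : T_LOW) (hPSC : T_PSC) (hDLC : T_DLC)
    (hPRS : T_PRS) (hFAR : T_FAR3) (hNUM : T_NUM3) (hUPR : T_UPR3) (hUPC : T_UPC)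
    (hUPL : T_UPL) (hCLA : T_CLA) : CurveStatement := by
  classical
  intro η h0 hη1
  obtain ⟨C₁, hC₁, hfar⟩ := hFAR η h0
  obtain ⟨C₀, C, hC₀C₁, hC₀, hnum⟩ := hNUM (η / 4) (by positivity) (by linarith) C₁
  set J : ℕ := ⌈4 / η⌉₊ + 3 with hJ
  refine ⟨C₀, max C (2 * J + 1), hC₀, ?_⟩
  intro n w m hn hnw hwn' hm
  have hnC : C ≤ n := (le_max_left _ _).trans hn
  have hnJ : 2 * J + 1 ≤ n := (le_max_right _ _).trans hn
  have hn1' : 1 ≤ n := by omega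
  obtain ⟨hn1, hwn, hm2, hexp⟩ := hnum n w hnC
    ((Nat.pow_le_pow_right hn1' (le_max_left _ _)).trans hnw)
    ((Nat.mul_le_mul_right _ (le_max_left _ _)).trans hwn')
  rw [← hm] at hm2
  have hm1 : 1 ≤ m := by
    rw [hm]
    exact Nat.mul_pos (Nat.mul_pos hC₀ hn1) (by positivity)
  have hmr : (1 : ℝ) ≤ m := by exact_mod_cast hm1
  have h2m : 2 ≤ m := by
    rw [hm]
    have h1 : n ≤ C₀ * n := Nat.le_mul_of_pos_left _ hC₀
    have h2 : C₀ * n ≤ C₀ * n * 2 ^ w := Nat.le_mul_of_pos_right _ (by positivity)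
    omega
  have hm1r : (1 : ℝ) < m := by exact_mod_cast h2m
  -- the families for the exponents of the grid
  have hone : ∀ j : ℕ, ∃ L₁ : Finset (Finset (Fin n → Bool)),
      (η / 4 < j * (η / 4) → (j * (η / 4) : ℝ) < 1 →
        ∀ M : ℕ, (m : ℝ) ^ ((j * (η / 4) : ℝ) + η / 4) ≤ M → (L₁.card + 1) ^ 2 ≤ 2 ^ M) ∧
      ∀ (L : ℕ → Finset (Finset (Fin n → Bool))) (p : ℕ → ℕ),
        (∀ M, ((L M).card + 1) ^ p M ≤ 2 ^ M) →
        ∃ B : Finset (Fin m → Cl n w), 4 ^ n * B.card ≤ 2 * Fintype.card (Cl n w) ^ m ∧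
          ∀ F, F ∉ B → η / 4 < j * (η / 4) → (j * (η / 4) : ℝ) < 1 →
            (∀ M : ℕ, (M : ℝ) ≤ (m : ℝ) ^ ((j * (η / 4) : ℝ) - η / 4) →
              ∀ (N q e : ℕ) (R : Derivation (fun j => VC (F j)) (L M) N (p M) q e),
                (q : ℝ) ≤ (m : ℝ) ^ ((j * (η / 4) : ℝ) - η / 4) →
                (e : ℝ) ≤ 2 ^ (((j * (η / 4) : ℝ) - η / 4) * n) →
                ∀ i, ((R.A i).card : ℝ) ≤
                  max (2 ^ n / (m : ℝ) ^ (1 - (j * (η / 4) : ℝ)))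
                    (N * 2 ^ ((j * (η / 4) : ℝ) * n))) ∧
            ∃ (N : ℕ) (R : Derivation (fun j => VC (F j)) L₁ N 2 1 0),
              (N : ℝ) ≤ 2 ^ ((1 - (j * (η / 4) : ℝ) + η / 4) * n) ∧ ∃ i, R.A i = univ := by
    intro j
    by_cases hj : η / 4 < j * (η / 4) ∧ (j * (η / 4) : ℝ) < 1
    · have hex := hexp (j * (η / 4)) hj.1 hj.2
      rw [← hm] at hex
      obtain ⟨L₁, hL₁, hrest⟩ := one_exponent hGOO hDEN hLOW hPSC hDLC hPRS hUPR hUPC hUPL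
        (η := η / 4) (by positivity) (by linarith) hC₀ hn1 hwn hm hm2 hj.1 hj.2 hex
      refine ⟨L₁, fun _ _ => hL₁, ?_⟩
      intro L p hL
      obtain ⟨B, hB, hB'⟩ := hrest L p hL
      exact ⟨B, hB, fun F hF _ _ => hB' F hF⟩
    · refine ⟨∅, fun h1 h2 => absurd ⟨h1, h2⟩ hj, ?_⟩
      intro L p _
      exact ⟨∅, by simp, fun F _ h1 h2 => absurd ⟨h1, h2⟩ hj⟩
  choose Lj hLj hLj' using hone
  -- the exponent of `M`
  have hlog : ∀ M : ℕ, 1 ≤ M → (M : ℝ) ≤ (m : ℝ) ^ (1 - η) →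
      0 ≤ Real.logb m M ∧ Real.logb m M ≤ 1 - η ∧ (M : ℝ) = (m : ℝ) ^ (Real.logb m M) := by
    intro M hM1 hM
    have hM1r : (1 : ℝ) ≤ M := by exact_mod_cast hM1
    refine ⟨Real.logb_nonneg hm1r hM1r, ?_, ?_⟩
    · rw [Real.logb_le_iff_le_rpow hm1r (by linarith)]
      exact hM
    · rw [Real.rpow_logb (by linarith) (by linarith) (by linarith)]
  have hup : ∀ M : ℕ, ∃ j : ℕ, (m : ℝ) ^ η ≤ M → (M : ℝ) ≤ (m : ℝ) ^ (1 - η) →
      j < J ∧ η / 4 < j * (η / 4) ∧ (j * (η / 4) : ℝ) < 1 ∧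
      (j * (η / 4) : ℝ) + η / 4 ≤ Real.logb m M ∧ Real.logb m M - η / 2 ≤ j * (η / 4) := by
    intro M
    by_cases hM : (m : ℝ) ^ η ≤ M ∧ (M : ℝ) ≤ (m : ℝ) ^ (1 - η)
    · have hMr : (1 : ℝ) ≤ M := (Real.one_le_rpow hmr h0.le).trans hM.1
      have hM1 : 1 ≤ M := by exact_mod_cast hMr
      obtain ⟨h1, h2, h3⟩ := hlog M hM1 hM.2
      obtain ⟨-, hg⟩ := grid h0 h1 h2
      have h4 : η ≤ Real.logb m M := by
        rw [Real.le_logb_iff_rpow_le hm1r (by linarith)]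
        exact hM.1
      obtain ⟨j, hj⟩ := hg h4
      exact ⟨j, fun _ _ => hj⟩
    · exact ⟨0, fun h1 h2 => absurd ⟨h1, h2⟩ hM⟩
  choose jup hjup using hup
  refine ⟨fun M => Lj (jup M), ?_, ?_⟩
  · intro M hM1 hM2
    obtain ⟨-, h1, h2, h3, -⟩ := hjup M hM1 hM2
    have hMr : (1 : ℝ) ≤ M := (Real.one_le_rpow hmr h0.le).trans hM1
    have hMnat : 1 ≤ M := by exact_mod_cast hMr
    obtain ⟨-, -, h4⟩ := hlog M hMnat hM2
    refine hLj (jup M) h1 h2 M ?_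
    calc (m : ℝ) ^ ((jup M * (η / 4) : ℝ) + η / 4) ≤ (m : ℝ) ^ (Real.logb m M) :=
          Real.rpow_le_rpow_of_exponent_le hmr h3
      _ = M := h4.symm
  intro L p hL
  have hB := fun j => hLj' j L p hL
  choose Bj hBj hBj' using hB
  -- the formulas in which some point violates few clauses
  obtain ⟨hp1, hp2, hp3, hp4⟩ := hPRS n w hwn
  have hclpos : 0 < Fintype.card (Cl n w) := by
    rw [hp1]
    exact Nat.mul_pos (Nat.choose_pos hwn) (by positivity)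
  have : Nonempty (Cl n w) := Fintype.card_pos_iff.mp hclpos
  have hcube : Fintype.card (Fin n → Bool) = 2 ^ n := by simp
  obtain ⟨B₀, hB₀, hB₀'⟩ : ∃ B₀ : Finset (Fin m → Cl n w),
      4 ^ n * B₀.card ≤ Fintype.card (Cl n w) ^ m ∧
      ∀ F, F ∉ B₀ → ∀ x, (1 - η) * (C₀ * n : ℝ) ≤
        ((univ.filter (fun j => x ∈ VC (F j))).card : ℝ) := by
    rw [hm]
    exact hfar C₀ hC₀C₁ (Fin n → Bool) (Cl n w) VC n w hn1 hcube hp3
  have hBcard : 2 ^ n * (B₀ ∪ (range J).biUnion Bj).card ≤ Fintype.card (Cl n w) ^ m := by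
    have h1 : 4 ^ n * (B₀ ∪ (range J).biUnion Bj).card ≤
        (2 * J + 1) * Fintype.card (Cl n w) ^ m := by
      calc 4 ^ n * (B₀ ∪ (range J).biUnion Bj).card
          ≤ 4 ^ n * (B₀.card + ∑ j ∈ range J, (Bj j).card) :=
            Nat.mul_le_mul_left _ ((card_union_le _ _).trans
              (Nat.add_le_add_left card_biUnion_le _))
        _ = 4 ^ n * B₀.card + ∑ j ∈ range J, 4 ^ n * (Bj j).card := by
            rw [Nat.mul_add, mul_sum]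
        _ ≤ Fintype.card (Cl n w) ^ m + ∑ _j ∈ range J, 2 * Fintype.card (Cl n w) ^ m :=
            Nat.add_le_add hB₀ (sum_le_sum fun j _ => hBj j)
        _ = (2 * J + 1) * Fintype.card (Cl n w) ^ m := by
            rw [sum_const, card_range, smul_eq_mul]
            ring
    have h2 : 2 * J + 1 ≤ 2 ^ n := hnJ.trans (Nat.lt_two_pow_self).le
    have h3 : 2 ^ n * (2 ^ n * (B₀ ∪ (range J).biUnion Bj).card) ≤
        2 ^ n * Fintype.card (Cl n w) ^ m := by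
      calc 2 ^ n * (2 ^ n * (B₀ ∪ (range J).biUnion Bj).card)
          = 4 ^ n * (B₀ ∪ (range J).biUnion Bj).card := by
            rw [← mul_assoc, ← mul_pow]
            norm_num
        _ ≤ (2 * J + 1) * Fintype.card (Cl n w) ^ m := h1
        _ ≤ 2 ^ n * Fintype.card (Cl n w) ^ m := Nat.mul_le_mul_right _ h2
    exact Nat.le_of_mul_le_mul_left h3 (by positivity)
  obtain ⟨B', hB', hlift⟩ := hCLA n w m (2 ^ n) hwn (B₀ ∪ (range J).biUnion Bj) hBcard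
  refine ⟨B', hB', ?_⟩
  intro F hF hFB
  obtain ⟨F', hF', hFF'⟩ := hlift F hF hFB
  have hFeq : F = fun j => toClause (F' j) := by
    funext j
    exact (hFF' j).symm
  subst hFeq
  clear hF hFB hFF'
  rw [mem_union, not_or] at hF'
  obtain ⟨hF0, hFj⟩ := hF'
  have hFj' : ∀ j, j < J → F' ∉ Bj j := by
    intro j hj hmem
    exact hFj (mem_biUnion.2 ⟨j, mem_range.2 hj, hmem⟩)
  refine ⟨?_, ?_⟩
  · intro x
    have h := hB₀' F' hF0 x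
    have e1 : ((m : ℝ) / 2 ^ w) = (C₀ * n : ℝ) := by
      rw [hm]
      push_cast
      field_simp
    rw [e1]
    simpa only [viol_toClause] using h
  · intro M hM1 hM2
    obtain ⟨hl0, hl1, hl2⟩ := hlog M hM1 hM2
    rw [viol_eq]
    refine ⟨?_, ?_⟩
    · intro N q e R hq he i
      obtain ⟨⟨j, hjJ, hj1, hj2, hj3, hj4⟩, -⟩ := grid h0 hl0 hl1
      have hMj : (M : ℝ) ≤ (m : ℝ) ^ ((j * (η / 4) : ℝ) - η / 4) := by
        calc (M : ℝ) = (m : ℝ) ^ (Real.logb m M) := hl2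
          _ ≤ _ := Real.rpow_le_rpow_of_exponent_le hmr (by linarith)
      have hqr : (q : ℝ) ≤ M := by exact_mod_cast hq
      have hmain := (hBj' j F' (hFj' j hjJ) hj1 hj2).1 M hMj N q e R (hqr.trans hMj) (by
        refine he.trans (two_hpow ?_)
        exact mul_le_mul_of_nonneg_right (by linarith) (Nat.cast_nonneg n)) i
      refine hmain.trans (max_le_max ?_ ?_)
      · have h1 : (M * (m : ℝ) ^ η / m) = (m : ℝ) ^ (Real.logb m M + η - 1) := by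
          rw [Real.rpow_sub (by linarith), Real.rpow_add (by linarith), Real.rpow_one, ← hl2]
        rw [h1, div_eq_mul_inv, ← Real.rpow_neg (by linarith)]
        refine mul_le_mul_of_nonneg_left ?_ (by positivity)
        exact Real.rpow_le_rpow_of_exponent_le hmr (by linarith)
      · refine mul_le_mul_of_nonneg_left (two_hpow ?_) (Nat.cast_nonneg N)
        exact mul_le_mul_of_nonneg_right (by linarith) (Nat.cast_nonneg n)
    · intro hMη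
      obtain ⟨hjJ, hj1, hj2, hj3, hj4⟩ := hjup M hMη hM2
      obtain ⟨N, R, hN, i, hi⟩ := (hBj' (jup M) F' (hFj' _ hjJ) hj1 hj2).2
      refine ⟨N, R, hN.trans (two_hpow ?_), i, hi⟩
      exact mul_le_mul_of_nonneg_right (by linarith) (Nat.cast_nonneg n)

end Pool.Agent.H40.TW
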