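import Pool.Agent.H40.TW.Curve2

/-!
# The exact tradeoff between time and memory for machines and derivations (FIN4)
-/

namespace Pool.Agent.H40.TW

open Finset Pool.Agent.H80.SH

/-- the numerics of the final assembly -/
lemma fin4_num {η : ℝ} (h0 : 0 < η) : ∃ C₂ : ℕ, ∀ n m : ℕ, C₂ ≤ n → n ≤ m →
    1 ≤ n ∧ 1 < m ∧ (12 : ℝ) ≤ (m : ℝ) ^ (η / 4) ∧ (1 : ℝ) ≤ η / 4 * n := by
  refine ⟨⌈(12 : ℝ) ^ (4 / η)⌉₊ + ⌈4 / η⌉₊ + 2, ?_⟩
  intro n m hn hnm
  have h1 : (12 : ℝ) ^ (4 / η) ≤ n := by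
    refine (Nat.le_ceil _).trans ?_
    have : ⌈(12 : ℝ) ^ (4 / η)⌉₊ ≤ n := by omega
    exact_mod_cast this
  have h2 : 4 / η ≤ n := by
    refine (Nat.le_ceil _).trans ?_
    have : ⌈4 / η⌉₊ ≤ n := by omega
    exact_mod_cast this
  have hnmr : (n : ℝ) ≤ m := by exact_mod_cast hnm
  refine ⟨by omega, by omega, ?_, ?_⟩
  · have h3 : (12 : ℝ) ^ (4 / η) ≤ m := h1.trans hnmr
    have h4 : ((12 : ℝ) ^ (4 / η)) ^ (η / 4) ≤ (m : ℝ) ^ (η / 4) :=
      Real.rpow_le_rpow (by positivity) h3 (by positivity)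
    have h5 : ((12 : ℝ) ^ (4 / η)) ^ (η / 4) = 12 := by
      rw [← Real.rpow_mul (by norm_num)]
      have : 4 / η * (η / 4) = 1 := by field_simp
      rw [this, Real.rpow_one]
    linarith
  · have h3 : 4 ≤ η * n := by
      rw [div_le_iff₀ h0] at h2
      linarith
    linarith

theorem fin4 (hTRE : T_TRE) (hPDT : T_PDT) (hNFU : T_NFU) (hC : CurveStatement2) :
    MachineStatement := by
  classical
  intro η h0 hη1
  obtain ⟨C₀, C₁, hC₀, hcurve⟩ := hC (η / 2) (by positivity) (by linarith)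
  obtain ⟨C₂, hC₂⟩ := fin4_num h0
  refine ⟨C₀, max C₁ C₂, hC₀, ?_⟩
  intro n w m hn hnw hwn hm
  have hnC1 : C₁ ≤ n := (le_max_left _ _).trans hn
  have hnC2 : C₂ ≤ n := (le_max_right _ _).trans hn
  have hnm : n ≤ m := by
    rw [hm]
    have h1 : n ≤ C₀ * n := Nat.le_mul_of_pos_left _ hC₀
    have h2 : C₀ * n ≤ C₀ * n * 2 ^ w := Nat.le_mul_of_pos_right _ (by positivity)
    omega
  obtain ⟨hn1, hm1, h12, hn4⟩ := hC₂ n m hnC2 hnm
  have hm1r : (1 : ℝ) < m := by exact_mod_cast hm1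
  have hm0 : (0 : ℝ) < m := by linarith
  obtain ⟨L₁, hL₁, hrest⟩ := hcurve n w m hnC1
    ((Nat.pow_le_pow_right hn1 (le_max_left _ _)).trans hnw)
    ((Nat.mul_le_mul_right _ (le_max_left _ _)).trans hwn) hm
  -- the machines of the upper bound
  have hmach : ∀ M : ℕ, ∃ A : Machine (Clause n) (Fin (2 ^ M)) Empty, A.Sound ∧
      ((L₁ M).card + 1 ≤ 2 ^ M →
      ∀ (ι : Type) (F : ι → Clause n) (N : ℕ)
        (R : Derivation (fun j => (F j).Viol) (L₁ M) N 2 1 0), (∃ i, R.A i = univ) →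
        ∃ l : List (Clause n), A.Accepts l ∧ (∀ c ∈ l, ∃ j, F j = c) ∧ l.length ≤ N + 1) := by
    intro M
    by_cases hM : (L₁ M).card + 1 ≤ 2 ^ M
    · obtain ⟨A, hA1, hA2⟩ := hNFU (Fin n → Bool) (Clause n) (fun c => c.Viol) (L₁ M) (2 ^ M) hM
      exact ⟨A, hA1, fun _ => hA2⟩
    · obtain ⟨A, hA1, -⟩ := hNFU (Fin n → Bool) (Clause n) (fun c => c.Viol) ∅ (2 ^ M) (by
        rw [card_empty]
        exact Nat.one_le_two_pow)
      exact ⟨A, hA1, fun h => absurd h hM⟩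
  choose A₁ hA₁ hA₁' using hmach
  refine ⟨A₁, hA₁, ?_⟩
  intro Γ A L p hA hL
  -- the families of the machines
  have hfam : ∀ M : ℕ, ∃ K : Finset (Finset (Fin n → Bool)), K.card ≤ (2 ^ M) ^ 2 + 2 ^ M ∧
      ∀ (ι : Type) (F : ι → Clause n) (l : List (Clause n)), (A M).Accepts l →
        (∀ c ∈ l, ∃ j, F j = c) → ∃ s, s ≤ 2 * l.length ∧ TL (fun j => (F j).Viol) K s univ := by
    intro M
    obtain ⟨K, hK1, hK2⟩ := hPDT (Fin n → Bool) (Clause n) (Fin (2 ^ M)) (Γ M)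
      (fun c => c.Viol) (A M) (hA M)
    rw [Fintype.card_fin] at hK1
    exact ⟨K, hK1, hK2⟩
  choose K hK hK' using hfam
  obtain ⟨B₁, hB₁, hB₁'⟩ := hrest L p hL
  obtain ⟨B₂, hB₂, hB₂'⟩ := hrest (fun k => if k / 12 = 0 then ∅ else K (k / 12)) (fun _ => 3) (by
    intro k
    by_cases hk : k / 12 = 0
    · simp only [hk, if_true, card_empty]
      rw [zero_add, one_pow]
      exact Nat.one_le_two_pow
    · simp only [hk, if_false]
      set M := k / 12 with hM
      have hM1 : 1 ≤ M := Nat.one_le_iff_ne_zero.2 hk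
      have h1 : (K M).card + 1 ≤ 2 ^ (2 * M + 2) := by
        have h2 := hK M
        have h3 : 1 ≤ 2 ^ M := Nat.one_le_two_pow
        have h4 : (2 : ℕ) ^ (2 * M + 2) = 4 * (2 ^ M) ^ 2 := by
          rw [pow_add, mul_comm 2 M, pow_mul]
          ring
        rw [h4]
        nlinarith
      calc ((K M).card + 1) ^ 3 ≤ (2 ^ (2 * M + 2)) ^ 3 := Nat.pow_le_pow_left h1 3
        _ = 2 ^ (6 * M + 6) := by
            rw [← pow_mul]
            congr 1
            ring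
        _ ≤ 2 ^ k := Nat.pow_le_pow_right (by norm_num) (by omega))
  refine ⟨B₁ ∪ B₂, ?_, ?_⟩
  · have h1 : (B₁ ∪ B₂).card ≤ B₁.card + B₂.card := card_union_le _ _
    have h2 : 2 ^ n * (B₁ ∪ B₂).card ≤ 2 ^ n * B₁.card + 2 ^ n * B₂.card := by
      rw [← Nat.mul_add]
      exact Nat.mul_le_mul_left _ h1
    rw [pow_succ, mul_comm (2 ^ n) 2, mul_assoc] at hB₁ hB₂
    omega
  intro F hF hFB
  rw [mem_union, not_or] at hFB
  obtain ⟨hgap, hmain⟩ := hB₁' F hF hFB.1
  obtain ⟨-, hmain2⟩ := hB₂' F hF hFB.2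
  have hmono : (m : ℝ) ^ (1 - η) ≤ (m : ℝ) ^ (1 - η / 2) :=
    Real.rpow_le_rpow_of_exponent_le hm1r.le (by linarith)
  refine ⟨?_, ?_⟩
  · intro x
    refine le_trans ?_ (hgap x)
    have h1 : (0 : ℝ) ≤ (m : ℝ) / 2 ^ w := by positivity
    exact mul_le_mul_of_nonneg_right (by linarith) h1
  intro M hM1 hM
  have hM1r : (1 : ℝ) ≤ M := by exact_mod_cast hM1
  have hM0 : (0 : ℝ) < M := by linarith
  obtain ⟨hd, hu⟩ := hmain M hM1 (hM.trans hmono)
  have hu0 : 0 ≤ Real.logb m M := Real.logb_nonneg hm1r hM1r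
  have hu1 : Real.logb m M ≤ 1 - η := by
    rw [Real.logb_le_iff_le_rpow hm1r hM0]
    exact hM
  have hnr : (0 : ℝ) ≤ n := Nat.cast_nonneg n
  refine ⟨?_, ?_, ?_⟩
  · -- the lower bound for machines
    intro l hl hlF
    obtain ⟨s, hs, htl⟩ := hK' M (Fin m) F l hl hlF
    obtain ⟨R, i, hi⟩ := hTRE _ _ _ _ _ _ htl
    have hk : (12 * M) / 12 = M := Nat.mul_div_cancel_left M (by norm_num)
    have h12M : ((12 * M : ℕ) : ℝ) ≤ (m : ℝ) ^ (1 - η / 2) := by
      have h1 : (m : ℝ) ^ (1 - η / 2) = (m : ℝ) ^ (η / 4) * ((m : ℝ) ^ (η / 4) *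
          (m : ℝ) ^ (1 - η)) := by
        rw [← Real.rpow_add hm0, ← Real.rpow_add hm0]
        congr 1
        ring
      have h2 : (1 : ℝ) ≤ (m : ℝ) ^ (η / 4) := by linarith
      have h3 : (0 : ℝ) < (m : ℝ) ^ (1 - η) := Real.rpow_pos_of_pos hm0 _
      push_cast
      rw [h1]
      calc (12 : ℝ) * M ≤ (m : ℝ) ^ (η / 4) * (m : ℝ) ^ (1 - η) :=
            mul_le_mul h12 hM hM0.le (by linarith)
        _ ≤ (m : ℝ) ^ (η / 4) * ((m : ℝ) ^ (η / 4) * (m : ℝ) ^ (1 - η)) := by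
            refine mul_le_mul_of_nonneg_left ?_ (by linarith)
            nlinarith
    obtain ⟨hd2, -⟩ := hmain2 (12 * M) (by omega) h12M
    have hne : ¬ ((12 * M) / 12 = 0) := by
      rw [hk]
      omega
    have hfameq : (if (12 * M) / 12 = 0 then (∅ : Finset (Finset (Fin n → Bool)))
        else K ((12 * M) / 12)) = K M := by
      rw [if_neg hne, hk]
    have hbound : ∀ (L' : Finset (Finset (Fin n → Bool))), L' = (if (12 * M) / 12 = 0 then
        (∅ : Finset (Finset (Fin n → Bool))) else K ((12 * M) / 12)) →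
        ∀ (R : Derivation (fun j => (F j).Viol) L' s 3 1 0) (i : Fin R.T), ((R.A i).card : ℝ) ≤
          max (2 ^ n * (((12 * M : ℕ) : ℝ) * (m : ℝ) ^ (η / 2) / m))
            (s * 2 ^ ((Real.logb m ((12 * M : ℕ) : ℝ) + η / 2) * n)) := by
      intro L' hL' R i
      subst hL'
      refine hd2 s 1 0 R (by omega) ?_ i
      rw [Nat.cast_zero]
      positivity
    have hb := hbound (K M) hfameq.symm R i
    have huniv : ((R.A i).card : ℝ) = 2 ^ n := by
      rw [hi, card_univ]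
      simp
    rw [huniv] at hb
    have hfirst : 2 ^ n * (((12 * M : ℕ) : ℝ) * (m : ℝ) ^ (η / 2) / m) < (2 : ℝ) ^ n := by
      have h1 : ((12 * M : ℕ) : ℝ) * (m : ℝ) ^ (η / 2) / m < 1 := by
        rw [div_lt_one hm0]
        have h2 : (m : ℝ) = (m : ℝ) ^ (η / 4) * ((m : ℝ) ^ (η / 4) *
            ((m : ℝ) ^ (η / 2) * (m : ℝ) ^ (1 - η))) := by
          rw [← Real.rpow_add hm0, ← Real.rpow_add hm0, ← Real.rpow_add hm0]
          conv_lhs => rw [← Real.rpow_one (m : ℝ)]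
          congr 1
          ring
        have h3 : (0 : ℝ) < (m : ℝ) ^ (1 - η) := Real.rpow_pos_of_pos hm0 _
        have h4 : (0 : ℝ) < (m : ℝ) ^ (η / 2) := Real.rpow_pos_of_pos hm0 _
        push_cast
        calc (12 : ℝ) * M * (m : ℝ) ^ (η / 2) = 12 * ((m : ℝ) ^ (η / 2) * M) := by ring
          _ ≤ (m : ℝ) ^ (η / 4) * ((m : ℝ) ^ (η / 2) * (m : ℝ) ^ (1 - η)) := by
              refine mul_le_mul h12 (mul_le_mul_of_nonneg_left hM h4.le) (by positivity)
                (by linarith)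
          _ < (m : ℝ) ^ (η / 4) * ((m : ℝ) ^ (η / 4) *
              ((m : ℝ) ^ (η / 2) * (m : ℝ) ^ (1 - η))) := by
              refine mul_lt_mul_of_pos_left ?_ (by linarith)
              have h5 : (0 : ℝ) < (m : ℝ) ^ (η / 2) * (m : ℝ) ^ (1 - η) := mul_pos h4 h3
              nlinarith
          _ = m := h2.symm
      have h2 : (0 : ℝ) < 2 ^ n := by positivity
      nlinarith
    have hsec : (2 : ℝ) ^ n ≤ s * 2 ^ ((Real.logb m ((12 * M : ℕ) : ℝ) + η / 2) * n) := by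
      rcases le_max_iff.1 hb with h | h
      · exact absurd h (not_le.2 hfirst)
      · exact h
    have hlog12 : Real.logb m ((12 * M : ℕ) : ℝ) ≤ Real.logb m M + η / 4 := by
      push_cast
      rw [Real.logb_mul (by norm_num) hM0.ne']
      have h1 : Real.logb m 12 ≤ η / 4 := by
        rw [Real.logb_le_iff_le_rpow hm1r (by norm_num)]
        exact h12
      linarith
    have hs2 : (s : ℝ) ≤ 2 * l.length := by exact_mod_cast hs
    set E : ℝ := (Real.logb m M + η / 4 + η / 2) * n with hE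
    have h1 : (2 : ℝ) ^ n ≤ 2 * l.length * 2 ^ E := by
      refine hsec.trans (mul_le_mul hs2 (two_hpow ?_) (by positivity) (by positivity))
      rw [hE]
      exact mul_le_mul_of_nonneg_right (by linarith) hnr
    have h2 : (2 : ℝ) ^ ((1 - Real.logb m M - η) * n) * (2 * 2 ^ E) ≤ 2 ^ n := by
      have h3 : (2 : ℝ) * 2 ^ E = 2 ^ (1 + E) := by
        rw [Real.rpow_add (by norm_num), Real.rpow_one]
      rw [h3, ← Real.rpow_add (by norm_num), ← Real.rpow_natCast]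
      refine two_hpow ?_
      rw [hE]
      nlinarith
    have h3 : (0 : ℝ) < 2 * 2 ^ E := by positivity
    have h4 : (2 : ℝ) ^ ((1 - Real.logb m M - η) * n) * (2 * 2 ^ E) ≤ l.length * (2 * 2 ^ E) := by
      refine h2.trans (h1.trans (le_of_eq ?_))
      ring
    exact le_of_mul_le_mul_right h4 h3
  · -- the upper bound
    intro hMη
    have hη2 : (m : ℝ) ^ (η / 2) ≤ M :=
      (Real.rpow_le_rpow_of_exponent_le hm1r.le (by linarith)).trans hMη
    obtain ⟨N, R, hN, hi⟩ := hu hη2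
    have hcard : (L₁ M).card + 1 ≤ 2 ^ M := by
      have h1 := hL₁ M hη2 (hM.trans hmono)
      have h2 : (L₁ M).card + 1 ≤ ((L₁ M).card + 1) ^ 2 := by nlinarith
      exact h2.trans h1
    obtain ⟨l, hl1, hl2, hl3⟩ := hA₁' M hcard (Fin m) F N R hi
    refine ⟨l, hl1, hl2, ?_⟩
    have h1 : (l.length : ℝ) ≤ N + 1 := by exact_mod_cast hl3
    have h2 : (1 : ℝ) ≤ 2 ^ ((1 - Real.logb m M + η / 2) * n) := by
      refine Real.one_le_rpow (by norm_num) ?_
      refine mul_nonneg ?_ hnr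
      linarith
    calc (l.length : ℝ) ≤ 2 * 2 ^ ((1 - Real.logb m M + η / 2) * n) := by linarith
      _ = 2 ^ (1 + (1 - Real.logb m M + η / 2) * n) := by
          rw [Real.rpow_add (by norm_num), Real.rpow_one]
      _ ≤ 2 ^ ((1 - Real.logb m M + η) * n) := by
          refine two_hpow ?_
          nlinarith
  · -- derivations
    intro N q e R hq he i
    refine (hd N q e R hq he i).trans (max_le_max ?_ ?_)
    · refine mul_le_mul_of_nonneg_left ?_ (by positivity)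
      refine div_le_div_of_nonneg_right ?_ hm0.le
      refine mul_le_mul_of_nonneg_left ?_ hM0.le
      exact Real.rpow_le_rpow_of_exponent_le hm1r.le (by linarith)
    · refine mul_le_mul_of_nonneg_left (two_hpow ?_) (Nat.cast_nonneg N)
      exact mul_le_mul_of_nonneg_right (by linarith) hnr

end Pool.Agent.H40.TW
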