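import Pool.Agent.H40.TW.Stmt4

/-!
# The exact tradeoff between time and memory for CNF-SAT (MP_c62aed_lc): verifiers
-/

namespace Pool.Agent.H40.TW

open Pool.Agent.H80.SH

/-- A machine which reads sets `D` of assignments (the fact that no assignment in `D` satisfies the
formula) is a verifier of unsatisfiability if every sequence which it accepts covers all
assignments. -/
def Machine.Verifier {n : ℕ} {Q Γ : Type} (A : Machine (Finset (Fin n → Bool)) Q Γ) : Prop :=
  ∀ l, A.Accepts l → ∀ x, ∃ D ∈ l, x ∈ D

/-- Easy facts on the formula `F`: apart from at most `e` assignments, every assignment in `D`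
violates one of at most `q` clauses of `F`, which are chosen in advance. -/
def Easy {n m : ℕ} (F : Fin m → Clause n) (q e : ℝ) (D : Finset (Fin n → Bool)) : Prop :=
  ∃ (J : Finset (Fin m)) (E : Finset (Fin n → Bool)), (J.card : ℝ) ≤ q ∧ (E.card : ℝ) ≤ e ∧
    ∀ x ∈ D, (∃ j ∈ J, x ∈ (F j).Viol) ∨ x ∈ E

end Pool.Agent.H40.TW
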