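import Pool.Agent.H40.TW.Targets4
import Pool.Agent.H40.TW.Stmt5

/-!
# The exact tradeoff between time and memory: the final statement for verifiers
-/

namespace Pool.Agent.H40.TW

open Finset Pool.Agent.H80.SH

/-- The final theorem: verifiers. -/
def VerifierStatement : Prop :=
  ∀ η : ℝ, 0 < η → η < 1 → ∃ C₀ C : ℕ, 1 ≤ C₀ ∧
    ∀ n w m : ℕ, C ≤ n → n ^ C ≤ 2 ^ w → C * w ≤ n → m = C₀ * n * 2 ^ w →
    ∃ A₁ : ∀ M : ℕ, Machine (Finset (Fin n → Bool)) (Fin (2 ^ M)) Empty,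
      (∀ M, (A₁ M).Verifier) ∧
    ∀ (Γ : ℕ → Type) (A : ∀ M : ℕ, Machine (Finset (Fin n → Bool)) (Fin (2 ^ M)) (Γ M)),
      (∀ M, (A M).Verifier) →
      ∃ B : Finset (Fin m → Clause n), 2 ^ n * B.card ≤ (clausesOf n w).card ^ m ∧
        ∀ F : Fin m → Clause n, (∀ j, F j ∈ clausesOf n w) → F ∉ B →
          (∀ x, (1 - η) * (m / 2 ^ w) ≤ ((univ.filter (fun j => x ∈ (F j).Viol)).card : ℝ)) ∧
          ∀ M : ℕ, 1 ≤ M → (M : ℝ) ≤ (m : ℝ) ^ (1 - η) →
            (∀ l, (A M).Accepts l → (∀ D ∈ l, Easy F M (2 ^ (Real.logb m M * n)) D) →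
              (2 : ℝ) ^ ((1 - Real.logb m M - η) * n) ≤ l.length) ∧
            ((m : ℝ) ^ η ≤ M → ∃ l, (A₁ M).Accepts l ∧ (∀ D ∈ l, ∃ j, D = (F j).Viol) ∧
              (l.length : ℝ) ≤ 2 ^ ((1 - Real.logb m M + η) * n))

/-- a derivation from facts is a derivation from clauses -/
lemma derivation_of_easy {n m : ℕ} (F : Fin m → Clause n) {q e : ℕ}
    (L : Finset (Finset (Fin n → Bool))) {N p : ℕ} {ι : Type} (W : ι → Finset (Fin n → Bool))
    (hW : ∀ k, ∃ (J : Finset (Fin m)) (E : Finset (Fin n → Bool)), J.card ≤ q ∧ E.card ≤ e ∧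
      ∀ x ∈ W k, (∃ j ∈ J, x ∈ (F j).Viol) ∨ x ∈ E)
    (R : Derivation W L N p 1 0) :
    ∃ R' : Derivation (fun j => (F j).Viol) L N p q e, ∀ i, R.A i = univ → ∃ i', R'.A i' = univ := by
  classical
  have hJ : ∀ t, ∃ (J : Finset (Fin m)) (E : Finset (Fin n → Bool)), J.card ≤ q ∧ E.card ≤ e ∧
      ∀ k ∈ R.J t, ∀ x ∈ W k, (∃ j ∈ J, x ∈ (F j).Viol) ∨ x ∈ E := by
    intro t
    rcases Nat.le_one_iff_eq_zero_or_eq_one.1 (R.card_J t) with h | h
    · refine ⟨∅, ∅, by simp, by simp, ?_⟩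
      intro k hk
      rw [card_eq_zero.1 h] at hk
      exact absurd hk (notMem_empty _)
    · obtain ⟨k₀, hk₀⟩ := card_eq_one.1 h
      obtain ⟨J, E, h1, h2, h3⟩ := hW k₀
      refine ⟨J, E, h1, h2, ?_⟩
      intro k hk
      rw [hk₀, mem_singleton] at hk
      subst hk
      exact h3
  choose J E hJ1 hE1 hJE using hJ
  refine ⟨{ T := R.T, A := R.A, P := R.P, par := R.par, bag := R.bag, J := J, E := E,
            home := R.home, top := R.top, mem := R.mem, lt := R.lt, sound := ?_,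
            card_bag := R.card_bag, card_J := hJ1, card_E := hE1, home_mem := R.home_mem,
            prem_mem := R.prem_mem, par_le := R.par_le, conn := R.conn }, fun i hi => ⟨i, hi⟩⟩
  intro i x hx
  rcases R.sound i x hx with h | ⟨k, hk, h⟩ | h
  · exact Or.inl h
  · exact Or.inr (hJE _ k hk x h)
  · have hE0 : R.E (R.home i) = ∅ := card_eq_zero.1 (Nat.le_zero.1 (R.card_E _))
    rw [hE0] at h
    exact absurd h (notMem_empty _)

end Pool.Agent.H40.TW
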