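import Pool.Agent.H40.TW.Final4
import Pool.Agent.H40.TW.Targets5

/-!
# The exact tradeoff between time and memory for verifiers (FIN5)
-/

namespace Pool.Agent.H40.TW

open Finset Pool.Agent.H80.SH

theorem fin5 (hTRE : T_TRE) (hPDT : T_PDT) (hNFU : T_NFU) (hC : CurveStatement2) :
    VerifierStatement := by
  classical
  intro η h0 hη1
  obtain ⟨C₀, C₁, hC₀, hcurve⟩ := hC (η / 2) (by positivity) (by linarith)
  obtain ⟨C₂, hC₂⟩ := fin4_num h0
  refine ⟨C₀, max C₁ C₂, hC₀, ?_⟩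
  intro n w m hn hnw hwn hm
  have hnC1 : C₁ ≤ n := (le_max_left _ _).trans hn
  have hnC2 : C₂ ≤ n := (le_max_right _ _).trans hn
  have hnm : n ≤ m := by
    rw [hm]
    have h1 : n ≤ C₀ * n := Nat.le_mul_of_pos_left _ hC₀
    have h2 : C₀ * n ≤ C₀ * n * 2 ^ w := Nat.le_mul_of_pos_right _ (by positivity)
    omega
  obtain ⟨hn1, hm1, h12, hn4⟩ := hC₂ n m hnC2 hnm
  have hm1r : (1 : ℝ) < m := by exact_mod_cast hm1
  have hm0 : (0 : ℝ) < m := by linarith
  obtain ⟨L₁, hL₁, hrest⟩ := hcurve n w m hnC1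
    ((Nat.pow_le_pow_right hn1 (le_max_left _ _)).trans hnw)
    ((Nat.mul_le_mul_right _ (le_max_left _ _)).trans hwn) hm
  -- the machines of the upper bound
  have hmach : ∀ M : ℕ, ∃ A : Machine (Finset (Fin n → Bool)) (Fin (2 ^ M)) Empty, A.Verifier ∧
      ((L₁ M).card + 1 ≤ 2 ^ M →
      ∀ (ι : Type) (F : ι → Finset (Fin n → Bool)) (N : ℕ)
        (R : Derivation F (L₁ M) N 2 1 0), (∃ i, R.A i = univ) →
        ∃ l : List (Finset (Fin n → Bool)), A.Accepts l ∧ (∀ c ∈ l, ∃ j, F j = c) ∧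
          l.length ≤ N + 1) := by
    intro M
    by_cases hM : (L₁ M).card + 1 ≤ 2 ^ M
    · obtain ⟨A, hA1, hA2⟩ := hNFU (Fin n → Bool) (Finset (Fin n → Bool)) (fun D => D) (L₁ M) (2 ^ M) hM
      exact ⟨A, hA1, fun _ => hA2⟩
    · obtain ⟨A, hA1, -⟩ := hNFU (Fin n → Bool) (Finset (Fin n → Bool)) (fun D => D) ∅ (2 ^ M) (by
        rw [card_empty]
        exact Nat.one_le_two_pow)
      exact ⟨A, hA1, fun h => absurd h hM⟩
  choose A₁ hA₁ hA₁' using hmach
  refine ⟨A₁, hA₁, ?_⟩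
  intro Γ A hA
  -- the families of the machines
  have hfam : ∀ M : ℕ, ∃ K : Finset (Finset (Fin n → Bool)), K.card ≤ (2 ^ M) ^ 2 + 2 ^ M ∧
      ∀ (ι : Type) (F : ι → Finset (Fin n → Bool)) (l : List (Finset (Fin n → Bool))),
        (A M).Accepts l → (∀ c ∈ l, ∃ j, F j = c) → ∃ s, s ≤ 2 * l.length ∧ TL F K s univ := by
    intro M
    obtain ⟨K, hK1, hK2⟩ := hPDT (Fin n → Bool) (Finset (Fin n → Bool)) (Fin (2 ^ M)) (Γ M)
      (fun D => D) (A M) (hA M)
    rw [Fintype.card_fin] at hK1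
    exact ⟨K, hK1, hK2⟩
  choose K hK hK' using hfam
  obtain ⟨B₂, hB₂, hB₂'⟩ := hrest (fun k => if k / 12 = 0 then ∅ else K (k / 12)) (fun _ => 3) (by
    intro k
    by_cases hk : k / 12 = 0
    · simp only [hk, if_true, card_empty]
      rw [zero_add, one_pow]
      exact Nat.one_le_two_pow
    · simp only [hk, if_false]
      set M := k / 12 with hM
      have hM1 : 1 ≤ M := Nat.one_le_iff_ne_zero.2 hk
      have h1 : (K M).card + 1 ≤ 2 ^ (2 * M + 2) := by
        have h2 := hK M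
        have h3 : 1 ≤ 2 ^ M := Nat.one_le_two_pow
        have h4 : (2 : ℕ) ^ (2 * M + 2) = 4 * (2 ^ M) ^ 2 := by
          rw [pow_add, mul_comm 2 M, pow_mul]
          ring
        rw [h4]
        nlinarith
      calc ((K M).card + 1) ^ 3 ≤ (2 ^ (2 * M + 2)) ^ 3 := Nat.pow_le_pow_left h1 3
        _ = 2 ^ (6 * M + 6) := by
            rw [← pow_mul]
            congr 1
            ring
        _ ≤ 2 ^ k := Nat.pow_le_pow_right (by norm_num) (by omega))
  refine ⟨B₂, ?_, ?_⟩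
  · rw [pow_succ, mul_comm (2 ^ n) 2, mul_assoc] at hB₂
    omega
  intro F hF hFB
  obtain ⟨hgap, hmain2⟩ := hB₂' F hF hFB
  have hmono : (m : ℝ) ^ (1 - η) ≤ (m : ℝ) ^ (1 - η / 2) :=
    Real.rpow_le_rpow_of_exponent_le hm1r.le (by linarith)
  refine ⟨?_, ?_⟩
  · intro x
    refine le_trans ?_ (hgap x)
    have h1 : (0 : ℝ) ≤ (m : ℝ) / 2 ^ w := by positivity
    exact mul_le_mul_of_nonneg_right (by linarith) h1
  intro M hM1 hM
  have hM1r : (1 : ℝ) ≤ M := by exact_mod_cast hM1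
  have hM0 : (0 : ℝ) < M := by linarith
  obtain ⟨-, hu⟩ := hmain2 M hM1 (hM.trans hmono)
  have hu0 : 0 ≤ Real.logb m M := Real.logb_nonneg hm1r hM1r
  have hu1 : Real.logb m M ≤ 1 - η := by
    rw [Real.logb_le_iff_le_rpow hm1r hM0]
    exact hM
  have hnr : (0 : ℝ) ≤ n := Nat.cast_nonneg n
  refine ⟨?_, ?_⟩
  · -- the lower bound for verifiers
    intro l hl hlF
    set e : ℕ := ⌊(2 : ℝ) ^ (Real.logb m M * n)⌋₊ with he
    have hee : (e : ℝ) ≤ 2 ^ (Real.logb m M * n) := Nat.floor_le (by positivity)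
    obtain ⟨s, hs, htl⟩ := hK' M
      {D : Finset (Fin n → Bool) // Easy F M (2 ^ (Real.logb m M * n)) D} Subtype.val l hl
      (fun D hD => ⟨⟨D, hlF D hD⟩, rfl⟩)
    obtain ⟨R₀, i₀, hi₀⟩ := hTRE _ _ _ _ _ _ htl
    obtain ⟨R, hR⟩ := derivation_of_easy F (q := M) (e := e) (K M) _ (by
      rintro ⟨D, J, E, hJ, hE, hJE⟩
      exact ⟨J, E, by exact_mod_cast hJ, Nat.le_floor hE, hJE⟩) R₀
    obtain ⟨i, hi⟩ := hR i₀ hi₀
    have hk : (12 * M) / 12 = M := Nat.mul_div_cancel_left M (by norm_num)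
    have h12M : ((12 * M : ℕ) : ℝ) ≤ (m : ℝ) ^ (1 - η / 2) := by
      have h1 : (m : ℝ) ^ (1 - η / 2) = (m : ℝ) ^ (η / 4) * ((m : ℝ) ^ (η / 4) *
          (m : ℝ) ^ (1 - η)) := by
        rw [← Real.rpow_add hm0, ← Real.rpow_add hm0]
        congr 1
        ring
      have h2 : (1 : ℝ) ≤ (m : ℝ) ^ (η / 4) := by linarith
      have h3 : (0 : ℝ) < (m : ℝ) ^ (1 - η) := Real.rpow_pos_of_pos hm0 _
      push_cast
      rw [h1]
      calc (12 : ℝ) * M ≤ (m : ℝ) ^ (η / 4) * (m : ℝ) ^ (1 - η) :=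
            mul_le_mul h12 hM hM0.le (by linarith)
        _ ≤ (m : ℝ) ^ (η / 4) * ((m : ℝ) ^ (η / 4) * (m : ℝ) ^ (1 - η)) := by
            refine mul_le_mul_of_nonneg_left ?_ (by linarith)
            nlinarith
    obtain ⟨hd2, -⟩ := hmain2 (12 * M) (by omega) h12M
    have hne : ¬ ((12 * M) / 12 = 0) := by
      rw [hk]
      omega
    have hfameq : (if (12 * M) / 12 = 0 then (∅ : Finset (Finset (Fin n → Bool)))
        else K ((12 * M) / 12)) = K M := by
      rw [if_neg hne, hk]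
    have hbound : ∀ (L' : Finset (Finset (Fin n → Bool))), L' = (if (12 * M) / 12 = 0 then
        (∅ : Finset (Finset (Fin n → Bool))) else K ((12 * M) / 12)) →
        ∀ (R : Derivation (fun j => (F j).Viol) L' s 3 M e) (i : Fin R.T), ((R.A i).card : ℝ) ≤
          max (2 ^ n * (((12 * M : ℕ) : ℝ) * (m : ℝ) ^ (η / 2) / m))
            (s * 2 ^ ((Real.logb m ((12 * M : ℕ) : ℝ) + η / 2) * n)) := by
      intro L' hL' R i
      subst hL'
      refine hd2 s M e R (by omega) ?_ i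
      refine hee.trans (two_hpow ?_)
      refine mul_le_mul_of_nonneg_right ?_ hnr
      refine Real.logb_le_logb_of_le hm1r hM0 ?_
      push_cast
      linarith
    have hb := hbound (K M) hfameq.symm R i
    have huniv : ((R.A i).card : ℝ) = 2 ^ n := by
      rw [hi, card_univ]
      simp
    rw [huniv] at hb
    have hfirst : 2 ^ n * (((12 * M : ℕ) : ℝ) * (m : ℝ) ^ (η / 2) / m) < (2 : ℝ) ^ n := by
      have h1 : ((12 * M : ℕ) : ℝ) * (m : ℝ) ^ (η / 2) / m < 1 := by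
        rw [div_lt_one hm0]
        have h2 : (m : ℝ) = (m : ℝ) ^ (η / 4) * ((m : ℝ) ^ (η / 4) *
            ((m : ℝ) ^ (η / 2) * (m : ℝ) ^ (1 - η))) := by
          rw [← Real.rpow_add hm0, ← Real.rpow_add hm0, ← Real.rpow_add hm0]
          conv_lhs => rw [← Real.rpow_one (m : ℝ)]
          congr 1
          ring
        have h3 : (0 : ℝ) < (m : ℝ) ^ (1 - η) := Real.rpow_pos_of_pos hm0 _
        have h4 : (0 : ℝ) < (m : ℝ) ^ (η / 2) := Real.rpow_pos_of_pos hm0 _
        push_cast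
        calc (12 : ℝ) * M * (m : ℝ) ^ (η / 2) = 12 * ((m : ℝ) ^ (η / 2) * M) := by ring
          _ ≤ (m : ℝ) ^ (η / 4) * ((m : ℝ) ^ (η / 2) * (m : ℝ) ^ (1 - η)) := by
              refine mul_le_mul h12 (mul_le_mul_of_nonneg_left hM h4.le) (by positivity)
                (by linarith)
          _ < (m : ℝ) ^ (η / 4) * ((m : ℝ) ^ (η / 4) *
              ((m : ℝ) ^ (η / 2) * (m : ℝ) ^ (1 - η))) := by
              refine mul_lt_mul_of_pos_left ?_ (by linarith)
              have h5 : (0 : ℝ) < (m : ℝ) ^ (η / 2) * (m : ℝ) ^ (1 - η) := mul_pos h4 h3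
              nlinarith
          _ = m := h2.symm
      have h2 : (0 : ℝ) < 2 ^ n := by positivity
      nlinarith
    have hsec : (2 : ℝ) ^ n ≤ s * 2 ^ ((Real.logb m ((12 * M : ℕ) : ℝ) + η / 2) * n) := by
      rcases le_max_iff.1 hb with h | h
      · exact absurd h (not_le.2 hfirst)
      · exact h
    have hlog12 : Real.logb m ((12 * M : ℕ) : ℝ) ≤ Real.logb m M + η / 4 := by
      push_cast
      rw [Real.logb_mul (by norm_num) hM0.ne']
      have h1 : Real.logb m 12 ≤ η / 4 := by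
        rw [Real.logb_le_iff_le_rpow hm1r (by norm_num)]
        exact h12
      linarith
    have hs2 : (s : ℝ) ≤ 2 * l.length := by exact_mod_cast hs
    set E : ℝ := (Real.logb m M + η / 4 + η / 2) * n with hE
    have h1 : (2 : ℝ) ^ n ≤ 2 * l.length * 2 ^ E := by
      refine hsec.trans (mul_le_mul hs2 (two_hpow ?_) (by positivity) (by positivity))
      rw [hE]
      exact mul_le_mul_of_nonneg_right (by linarith) hnr
    have h2 : (2 : ℝ) ^ ((1 - Real.logb m M - η) * n) * (2 * 2 ^ E) ≤ 2 ^ n := by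
      have h3 : (2 : ℝ) * 2 ^ E = 2 ^ (1 + E) := by
        rw [Real.rpow_add (by norm_num), Real.rpow_one]
      rw [h3, ← Real.rpow_add (by norm_num), ← Real.rpow_natCast]
      refine two_hpow ?_
      rw [hE]
      nlinarith
    have h3 : (0 : ℝ) < 2 * 2 ^ E := by positivity
    have h4 : (2 : ℝ) ^ ((1 - Real.logb m M - η) * n) * (2 * 2 ^ E) ≤ l.length * (2 * 2 ^ E) := by
      refine h2.trans (h1.trans (le_of_eq ?_))
      ring
    exact le_of_mul_le_mul_right h4 h3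
  · -- the upper bound
    intro hMη
    have hη2 : (m : ℝ) ^ (η / 2) ≤ M :=
      (Real.rpow_le_rpow_of_exponent_le hm1r.le (by linarith)).trans hMη
    obtain ⟨N, R, hN, hi⟩ := hu hη2
    have hcard : (L₁ M).card + 1 ≤ 2 ^ M := by
      have h1 := hL₁ M hη2 (hM.trans hmono)
      have h2 : (L₁ M).card + 1 ≤ ((L₁ M).card + 1) ^ 2 := by nlinarith
      exact h2.trans h1
    obtain ⟨l, hl1, hl2, hl3⟩ := hA₁' M hcard (Fin m) (fun j => (F j).Viol) N R hi
    refine ⟨l, hl1, ?_, ?_⟩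
    · intro D hD
      obtain ⟨j, hj⟩ := hl2 D hD
      exact ⟨j, hj.symm⟩
    have h1 : (l.length : ℝ) ≤ N + 1 := by exact_mod_cast hl3
    have h2 : (1 : ℝ) ≤ 2 ^ ((1 - Real.logb m M + η / 2) * n) := by
      refine Real.one_le_rpow (by norm_num) ?_
      refine mul_nonneg ?_ hnr
      linarith
    calc (l.length : ℝ) ≤ 2 * 2 ^ ((1 - Real.logb m M + η / 2) * n) := by linarith
      _ = 2 ^ (1 + (1 - Real.logb m M + η / 2) * n) := by
          rw [Real.rpow_add (by norm_num), Real.rpow_one]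
      _ ≤ 2 ^ ((1 - Real.logb m M + η) * n) := by
          refine two_hpow ?_
          nlinarith

end Pool.Agent.H40.TW
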