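import Pool.Agent.H40.TW.Targets
import Pool.Agent.H80.SH.Targets

/-!
# The exact tradeoff between time and memory: the bound for a good formula (LOW)
-/

namespace Pool.Agent.H40.TW

open Finset Pool.Agent.H80.SH

theorem low (hPOT : T_POT) (hSRC : T_SRC) (hDLC : T_DLC) (hPSC : T_PSC) : T_LOW := by
  classical
  intro X ι _ _ _ _ V L N p q e g H T n R hgood hN hn he hH i hdense
  obtain ⟨-, hmono, -, hL1, -⟩ := hDLC X L
  obtain ⟨-, hpmono, hint, -⟩ := hPSC X (DLF L (p * (2 * n + 1)))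
  have hp : 1 ≤ p := by
    have h1 : 0 < (R.bag (R.home i)).card := card_pos.2 ⟨i, R.home_mem i⟩
    exact h1.trans_le (R.card_bag _)
  -- the search tree
  have hd : N * 2 ^ (2 * n) ≤ 3 ^ (2 * n) := by
    calc N * 2 ^ (2 * n) ≤ 2 ^ n * 2 ^ (2 * n) := Nat.mul_le_mul_right _ hN
      _ = 8 ^ n := by
        rw [pow_mul, ← mul_pow]
        norm_num
      _ ≤ 9 ^ n := Nat.pow_le_pow_left (by norm_num) n
      _ = 3 ^ (2 * n) := by
        rw [pow_mul]
        norm_num
  have htree := hSRC X ι V L N p q e R (2 * n) hd i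
  -- the set `A i` is a path set
  have hAL : R.A i ∈ DLF L (p * (2 * n + 1)) := by
    refine hmono 1 _ ?_ (hL1 (R.mem i))
    exact Nat.one_le_iff_ne_zero.2 (by positivity)
  have hP : R.A i ∈ PS (DLF L (p * (2 * n + 1))) 1 := by
    have h0 : (univ : Finset X) ∈ PS (DLF L (p * (2 * n + 1))) 0 := by simp [PS]
    have h1 := hint 0 univ (R.A i) h0 hAL
    rw [univ_inter] at h1
    exact h1
  have hpot : pot V H (R.A i) = 0 := by
    unfold pot
    have : dense V H (R.A i) = ∅ := by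
      unfold dense
      rw [filter_eq_empty_iff]
      intro j _ hj
      have h1 := hdense j
      have h2 : H * (R.A i ∩ V j).card ≤ H * (V j).card :=
        Nat.mul_le_mul_left _ (card_le_card inter_subset_right)
      omega
    rw [this, sum_empty]
  have hmain := hPOT X ι V (DLF L (p * (2 * n + 1))) q e g H T (4 * n + 3) hgood (2 * n + 1)
    (2 * N + 1) (R.A i) htree 1 (R.A i) hP (by omega) (Subset.refl _)
  rw [hpot] at hmain
  simp only [mul_zero, add_zero] at hmain
  -- the coefficient is at most `H / 2`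
  have h1 : 2 * (2 * (2 * n + 1 + 1) ^ 2 * (q + T) * (R.A i).card) ≤ H * (R.A i).card := by
    calc 2 * (2 * (2 * n + 1 + 1) ^ 2 * (q + T) * (R.A i).card)
        = 4 * (2 * n + 2) ^ 2 * (q + T) * (R.A i).card := by ring
      _ ≤ H * (R.A i).card := Nat.mul_le_mul_right _ hH
  have h2 : H * ((2 * N + 1) * (2 ^ g + e)) ≤ H * (2 * (2 * N + 1) * 2 ^ g) := by
    refine Nat.mul_le_mul_left _ ?_
    calc (2 * N + 1) * (2 ^ g + e) ≤ (2 * N + 1) * (2 ^ g + 2 ^ g) :=
          Nat.mul_le_mul_left _ (Nat.add_le_add_left he _)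
      _ = 2 * (2 * N + 1) * 2 ^ g := by ring
  have h3 : H * (R.A i).card ≤ H * (4 * (2 * N + 1) * 2 ^ g) := by
    have h4 : H * (4 * (2 * N + 1) * 2 ^ g) = 2 * (H * (2 * (2 * N + 1) * 2 ^ g)) := by ring
    omega
  exact Nat.le_of_mul_le_mul_left h3 hn

end Pool.Agent.H40.TW
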