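import Pool.Agent.H40.TW.Targets
import Pool.Agent.H19.SH.FAR

/-!
# The exact tradeoff between time and memory: a one-step inequality (ONE)
-/

namespace Pool.Agent.H40.TW

lemma mul_log_sq_le {q : ℝ} (h0 : 0 < q) (h1 : q ≤ 1) : q * (Real.log q) ^ 2 ≤ 1 := by
  set s : ℝ := Real.sqrt (Real.sqrt q) with hs
  have hs0 : 0 < s := Real.sqrt_pos.2 (Real.sqrt_pos.2 h0)
  have hs4 : s ^ 4 = q := by
    have e1 : s ^ 2 = Real.sqrt q := Real.sq_sqrt (Real.sqrt_nonneg _)
    have e2 : (Real.sqrt q) ^ 2 = q := Real.sq_sqrt h0.le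
    calc s ^ 4 = (s ^ 2) ^ 2 := by ring
      _ = q := by rw [e1, e2]
  have hlog : Real.log q = 4 * Real.log s := by
    rw [← hs4, Real.log_pow]
    norm_num
  have hs1 : s ≤ 1 := by
    by_contra hcon
    rw [not_le] at hcon
    have : 1 < s ^ 4 := one_lt_pow₀ hcon (by norm_num)
    linarith
  have h2 := Real.one_sub_inv_le_log_of_pos hs0
  have h3 : Real.log s ≤ 0 := Real.log_nonpos hs0.le hs1
  -- `|4 s² log s| ≤ 4 s (1 - s) ≤ 1`
  have h4 : 0 ≤ -(4 * s ^ 2 * Real.log s) := by nlinarith [sq_nonneg s]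
  have h5 : -(4 * s ^ 2 * Real.log s) ≤ 1 := by
    have h6 : s ^ 2 * (1 - s⁻¹) ≤ s ^ 2 * Real.log s := mul_le_mul_of_nonneg_left h2 (sq_nonneg s)
    have h7 : s ^ 2 * (1 - s⁻¹) = s ^ 2 - s := by
      field_simp
    nlinarith [sq_nonneg (2 * s - 1)]
  have h6 : q * (Real.log q) ^ 2 = (-(4 * s ^ 2 * Real.log s)) ^ 2 := by
    rw [hlog, ← hs4]
    ring
  rw [h6]
  exact pow_le_one₀ h4 h5

lemma one_aux {q t : ℝ} (h0 : 0 ≤ q) (h1 : q ≤ 1) (ht : 0 ≤ t) :
    q ^ (1 + t) ≤ q - t * Real.negMulLog q + t ^ 2 / 2 := by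
  rcases h0.eq_or_lt with h | h
  · rw [← h, Real.zero_rpow (by linarith)]
    simp only [Real.negMulLog_zero, mul_zero, sub_zero, zero_add]
    positivity
  · rw [Real.rpow_add h, Real.rpow_one, Real.rpow_def_of_pos h]
    have hl : Real.log q ≤ 0 := Real.log_nonpos h.le h1
    have h2 := Pool.Agent.H19.SH.exp_neg_le (x := -(Real.log q * t)) (by nlinarith)
    rw [neg_neg] at h2
    have h3 := mul_le_mul_of_nonneg_left h2 h.le
    have h4 := mul_log_sq_le h h1
    have h5 : t ^ 2 / 2 * (q * (Real.log q) ^ 2) ≤ t ^ 2 / 2 * 1 :=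
      mul_le_mul_of_nonneg_left h4 (by positivity)
    refine h3.trans ?_
    rw [Real.negMulLog]
    linarith

theorem one : T_ONE := by
  intro a b t ha hb hab ht _
  have hN := hab
  set N : ℝ := a + b with hNdef
  set q : ℝ := a / N with hq
  have hq0 : 0 ≤ q := by positivity
  have hq1 : q ≤ 1 := by
    rw [hq, div_le_one hN]
    linarith
  have e1 : a = N * q := by
    rw [hq]
    field_simp
  have e2 : b = N * (1 - q) := by
    rw [mul_sub, mul_one, ← e1]
    linarith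
  have h1 := one_aux hq0 hq1 ht
  have h2 := one_aux (q := 1 - q) (by linarith) (by linarith) ht
  have h3 : Real.binEntropy q = Real.negMulLog q + Real.negMulLog (1 - q) :=
    Real.binEntropy_eq_negMulLog_add_negMulLog_one_sub q
  have h4 : a ^ (1 + t) + b ^ (1 + t) = N ^ (1 + t) * (q ^ (1 + t) + (1 - q) ^ (1 + t)) := by
    calc a ^ (1 + t) + b ^ (1 + t) = (N * q) ^ (1 + t) + (N * (1 - q)) ^ (1 + t) := by
          rw [← e1, ← e2]
      _ = _ := by
          rw [Real.mul_rpow hN.le hq0, Real.mul_rpow hN.le (by linarith)]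
          ring
  rw [h4]
  refine mul_le_mul_of_nonneg_left ?_ (by positivity)
  rw [h3]
  linarith

end Pool.Agent.H40.TW
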