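import Pool.Agent.H40.TW.Targets
import Pool.Agent.H80.SH.Targets

/-!
# The exact tradeoff between time and memory: the potential argument (POT)
-/

namespace Pool.Agent.H40.TW

open Finset Pool.Agent.H80.SH

theorem pot' (hSTP : T_STP) (hUNB : T_UNB) (hPSC : T_PSC) : T_POT := by
  classical
  intro X ι _ _ _ _ V L q e g H T M hgood d l A hT
  obtain ⟨-, hmono, hint, hfil⟩ := hPSC X L
  -- the bound for the points eliminated at a node
  have hexit : ∀ (P : Finset X) (J : Finset ι) (E : Finset X), J.card ≤ q → E.card ≤ e →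
      H * (P.filter (fun x => (∃ j ∈ J, x ∈ V j) ∨ x ∈ E)).card ≤
        H * pot V H P + q * P.card + H * e := by
    intro P J E hJ hE
    have h1 : P.filter (fun x => (∃ j ∈ J, x ∈ V j) ∨ x ∈ E) ⊆
        P.filter (fun x => ∃ j ∈ J, x ∈ V j) ∪ E := by
      intro x hx
      rw [mem_filter] at hx
      rw [mem_union, mem_filter]
      rcases hx.2 with h | h
      · exact Or.inl ⟨hx.1, h⟩
      · exact Or.inr h
    have h2 := (card_le_card h1).trans (card_union_le _ _)
    have h3 := hUNB X ι V H P J
    have h4 : J.card * P.card ≤ q * P.card := Nat.mul_le_mul_right _ hJ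
    calc H * (P.filter (fun x => (∃ j ∈ J, x ∈ V j) ∨ x ∈ E)).card
        ≤ H * ((P.filter (fun x => ∃ j ∈ J, x ∈ V j)).card + E.card) := Nat.mul_le_mul_left _ h2
      _ = H * (P.filter (fun x => ∃ j ∈ J, x ∈ V j)).card + H * E.card := Nat.mul_add _ _ _
      _ ≤ (H * pot V H P + q * P.card) + H * e :=
        Nat.add_le_add (h3.trans (Nat.add_le_add_left h4 _)) (Nat.mul_le_mul_left _ hE)
  induction hT with
  | leaf d A J E hJ hE hcov =>
    intro r P _ _ hPA
    have h1 := hexit P J E hJ hE
    have h2 : P.filter (fun x => (∃ j ∈ J, x ∈ V j) ∨ x ∈ E) = P := by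
      rw [filter_eq_self]
      intro x hx
      exact hcov x (hPA hx)
    rw [h2] at h1
    have h3 : q * P.card ≤ 2 * (d + 1) ^ 2 * (q + T) * P.card := by
      refine Nat.mul_le_mul_right _ ?_
      have : 1 ≤ (d + 1) ^ 2 := Nat.one_le_pow _ _ (Nat.succ_pos _)
      nlinarith
    have h4 : H * pot V H P ≤ (d + 1) * (H * pot V H P) :=
      Nat.le_mul_of_pos_left _ (Nat.succ_pos _)
    have h5 : H * e ≤ H * (1 * (2 ^ g + e)) := Nat.mul_le_mul_left _ (by rw [one_mul]; exact Nat.le_add_left _ _)
    omega
  | node d l₁ l₂ A A₁ A₂ J E hJ hE hA₁ hA₂ hT₁ hT₂ hcov ih₁ ih₂ =>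
    intro r P hP hr hPA
    by_cases hsmall : P.card < 2 ^ g
    · have h1 : P.card ≤ (l₁ + l₂ + 1) * (2 ^ g + e) := by nlinarith
      have h2 := Nat.mul_le_mul_left H h1
      omega
    · rw [not_lt] at hsmall
      set P₁ := P ∩ A₁ with hP₁
      set P₂ := (P.filter (fun x => x ∉ A₁)) ∩ A₂ with hP₂
      have hmem₁ : P₁ ∈ PS L (r + 2) := hmono _ _ (by omega) (hint r P A₁ hP hA₁)
      have hmem₂ : P₂ ∈ PS L (r + 2) := by
        have h1 := hfil 1 (fun _ => A₁) univ r P (fun _ => hA₁) hP
        have h2 : P.filter (fun x => ∀ a ∈ (univ : Finset (Fin 1)), x ∉ A₁) =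
            P.filter (fun x => x ∉ A₁) := by
          ext x
          simp
        rw [h2, card_univ, Fintype.card_fin] at h1
        exact hint (r + 1) _ A₂ h1 hA₂
      have hdis : Disjoint P₁ P₂ := by
        rw [Finset.disjoint_left]
        intro x hx hx2
        rw [hP₁, mem_inter] at hx
        rw [hP₂, mem_inter, mem_filter] at hx2
        exact hx2.1.2 hx.2
      have hsub₁ : P₁ ⊆ P := inter_subset_left
      have hsub₂ : P₂ ⊆ P := inter_subset_left.trans (filter_subset _ _)
      -- the splitting
      have hstp := hSTP X ι V H T 2 P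
        ((univ : Finset (Fin 2)).filter (fun a => 2 ^ g ≤ (![P₁, P₂] a).card)) ![P₁, P₂]
        (by
          intro a _
          fin_cases a
          · exact hsub₁
          · exact hsub₂)
        (by
          intro a _ b _ hab
          fin_cases a <;> fin_cases b
          · exact absurd rfl hab
          · exact hdis
          · exact hdis.symm
          · exact absurd rfl hab)
        (by
          intro a ha
          rw [mem_filter] at ha
          refine hgood _ ?_ ha.2
          fin_cases a
          · exact hmono _ _ (by omega) hmem₁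
          · exact hmono _ _ (by omega) hmem₂)
      -- a bound for one child
      have hl₁ : 1 ≤ l₁ := by cases hT₁ <;> omega
      have hl₂ : 1 ≤ l₂ := by cases hT₂ <;> omega
      set Q : ℕ := (d + 1) * (H * pot V H P) + 2 * (d + 1) * T * P.card with hQ
      set f : Fin 2 → ℕ := fun a => if 2 ^ g ≤ (![P₁, P₂] a).card then
        H * pot V H (![P₁, P₂] a) else 0 with hf
      have hsum : f 0 + f 1 ≤ H * pot V H P + 2 * T * P.card := by
        have h1 : H * ∑ a ∈ (univ : Finset (Fin 2)).filter (fun a => 2 ^ g ≤ (![P₁, P₂] a).card),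
            pot V H (![P₁, P₂] a) = f 0 + f 1 := by
          rw [Finset.mul_sum, Finset.sum_filter, Fin.sum_univ_two]
        have h2 : ((univ : Finset (Fin 2)).filter
            (fun a => 2 ^ g ≤ (![P₁, P₂] a).card)).card ≤ 2 := by
          refine (card_filter_le _ _).trans ?_
          simp
        rw [h1] at hstp
        refine hstp.trans (Nat.add_le_add_left ?_ _)
        exact Nat.mul_le_mul_right _ (Nat.mul_le_mul_right _ h2)
      have hc₁ : H * P₁.card ≤ H * (l₁ * (2 ^ g + e)) + (d + 1) * f 0 +
          2 * (d + 1) ^ 2 * (q + T) * P₁.card := by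
        by_cases hs : 2 ^ g ≤ P₁.card
        · have h1 := ih₁ (r + 2) P₁ hmem₁ (by omega) inter_subset_right
          have h2 : f 0 = H * pot V H P₁ := if_pos hs
          rw [h2]
          exact h1
        · have h1 : P₁.card ≤ l₁ * (2 ^ g + e) := by nlinarith
          have h2 := Nat.mul_le_mul_left H h1
          omega
      have hc₂ : H * P₂.card ≤ H * (l₂ * (2 ^ g + e)) + (d + 1) * f 1 +
          2 * (d + 1) ^ 2 * (q + T) * P₂.card := by
        by_cases hs : 2 ^ g ≤ P₂.card
        · have h1 := ih₂ (r + 2) P₂ hmem₂ (by omega) inter_subset_right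
          have h2 : f 1 = H * pot V H P₂ := if_pos hs
          rw [h2]
          exact h1
        · have h1 : P₂.card ≤ l₂ * (2 ^ g + e) := by nlinarith
          have h2 := Nat.mul_le_mul_left H h1
          omega
      -- the cover
      have hcover : P ⊆ (P.filter (fun x => (∃ j ∈ J, x ∈ V j) ∨ x ∈ E)) ∪ (P₁ ∪ P₂) := by
        intro x hx
        rw [mem_union, mem_union, hP₁, hP₂, mem_inter, mem_inter, mem_filter, mem_filter]
        rcases hcov x (hPA hx) with h | h | h | h
        · exact Or.inr (Or.inl ⟨hx, h⟩)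
        · by_cases h1 : x ∈ A₁
          · exact Or.inr (Or.inl ⟨hx, h1⟩)
          · exact Or.inr (Or.inr ⟨⟨hx, h1⟩, h⟩)
        · exact Or.inl ⟨hx, Or.inl h⟩
        · exact Or.inl ⟨hx, Or.inr h⟩
      have hcard : P.card ≤ (P.filter (fun x => (∃ j ∈ J, x ∈ V j) ∨ x ∈ E)).card +
          (P₁.card + P₂.card) := by
        refine (card_le_card hcover).trans ((card_union_le _ _).trans ?_)
        exact Nat.add_le_add_left (card_union_le _ _) _
      have hP12 : P₁.card + P₂.card ≤ P.card := by
        rw [← card_union_of_disjoint hdis]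
        exact card_le_card (union_subset hsub₁ hsub₂)
      have h1 := hexit P J E hJ hE
      have h2 : H * P.card ≤ H * (P.filter (fun x => (∃ j ∈ J, x ∈ V j) ∨ x ∈ E)).card +
          (H * P₁.card + H * P₂.card) := by
        calc H * P.card ≤ H * ((P.filter (fun x => (∃ j ∈ J, x ∈ V j) ∨ x ∈ E)).card +
              (P₁.card + P₂.card)) := Nat.mul_le_mul_left _ hcard
          _ = _ := by ring
      have h3 : (d + 1) * (f 0 + f 1) ≤ (d + 1) * (H * pot V H P + 2 * T * P.card) :=
        Nat.mul_le_mul_left _ hsum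
      have h4 : 2 * (d + 1) ^ 2 * (q + T) * (P₁.card + P₂.card) ≤
          2 * (d + 1) ^ 2 * (q + T) * P.card := Nat.mul_le_mul_left _ hP12
      have h5 : (q + 2 * (d + 1) * T + 2 * (d + 1) ^ 2 * (q + T)) * P.card ≤
          2 * (d + 1 + 1) ^ 2 * (q + T) * P.card := by
        refine Nat.mul_le_mul_right _ ?_
        nlinarith [Nat.zero_le (d * q), Nat.zero_le (d * T), Nat.zero_le q, Nat.zero_le T]
      calc H * P.card ≤ (H * pot V H P + q * P.card + H * e) +
            ((H * (l₁ * (2 ^ g + e)) + (d + 1) * f 0 + 2 * (d + 1) ^ 2 * (q + T) * P₁.card) +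
            (H * (l₂ * (2 ^ g + e)) + (d + 1) * f 1 + 2 * (d + 1) ^ 2 * (q + T) * P₂.card)) := by
              omega
        _ = H * pot V H P + (d + 1) * (f 0 + f 1) + H * e +
            H * ((l₁ + l₂) * (2 ^ g + e)) + q * P.card +
            2 * (d + 1) ^ 2 * (q + T) * (P₁.card + P₂.card) := by ring
        _ ≤ H * pot V H P + (d + 1) * (H * pot V H P + 2 * T * P.card) + H * e +
            H * ((l₁ + l₂) * (2 ^ g + e)) + q * P.card +
            2 * (d + 1) ^ 2 * (q + T) * P.card := by omega
        _ = (d + 1 + 1) * (H * pot V H P) + H * ((l₁ + l₂) * (2 ^ g + e) + e) +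
            (q + 2 * (d + 1) * T + 2 * (d + 1) ^ 2 * (q + T)) * P.card := by ring
        _ ≤ (d + 1 + 1) * (H * pot V H P) + H * ((l₁ + l₂ + 1) * (2 ^ g + e)) +
            2 * (d + 1 + 1) ^ 2 * (q + T) * P.card := by
              have h6 : H * ((l₁ + l₂) * (2 ^ g + e) + e) ≤
                  H * ((l₁ + l₂ + 1) * (2 ^ g + e)) := by
                refine Nat.mul_le_mul_left _ ?_
                have h7 : (l₁ + l₂ + 1) * (2 ^ g + e) =
                  (l₁ + l₂) * (2 ^ g + e) + (2 ^ g + e) := by ring
                rw [h7]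
                exact Nat.add_le_add_left (Nat.le_add_left _ _) _
              omega
        _ = _ := by ring

end Pool.Agent.H40.TW
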