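import Pool.Agent.H40.TW.COV

/-!
# The exact tradeoff between time and memory: the search tree of a derivation (SRC)
-/

namespace Pool.Agent.H40.TW

open Finset

/-- a search tree has at least one node -/
lemma STree.one_le {X ι : Type} {V : ι → Finset X} {L : Finset (Finset X)} {q e d l : ℕ}
    {A : Finset X} (h : STree V L q e d l A) : 1 ≤ l := by
  cases h <;> omega

lemma closed_empty {N : ℕ} (par : Fin N → Fin N) (Z : Finset (Fin N)) : Closed par Z ∅ :=
  ⟨fun t ht => absurd ht (notMem_empty t), fun t _ _ _ => by simp⟩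

theorem src (hDLC : T_DLC) (hCOV : T_COV) (hCUT : T_CUT) : T_SRC := by
  classical
  intro X ι _ _ V L N p q e R d hN i
  obtain ⟨-, hmono, hempty, -, hmem⟩ := hDLC X L
  obtain ⟨hc1, hc2, hc3⟩ := hCOV X ι V L N p q e R
  have hlines : ∀ Z : Finset (Fin N), (lines R Z).card ≤ p * Z.card := by
    intro Z
    refine card_biUnion_le.trans ((sum_le_card_nsmul _ _ p fun t _ => R.card_bag t).trans ?_)
    rw [smul_eq_mul, mul_comm]
  have hL : ∀ (Z U : Finset (Fin N)) (k : ℕ), p * Z.card ≤ k → LZU R Z U ∈ DLF L k := by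
    intro Z U k hk
    refine hmono _ _ ((hlines Z).trans hk) ?_
    exact hmem R.T R.A (lines R Z) (fun j => R.home j ∈ U) (LZU R Z U) R.mem
      fun x => mem_LZU R
  have hLempty : ∀ Z : Finset (Fin N), LZU R Z ∅ = ∅ := by
    intro Z
    ext x
    rw [mem_LZU]
    simp
  have key : ∀ (d : ℕ) (Z U : Finset (Fin N)), Closed R.par Z U → U.card * 2 ^ d < 3 ^ d →
      STree V (DLF L (p * (Z.card + d))) q e d (2 * U.card + 1) (LZU R Z U) := by
    intro d
    induction d with
    | zero =>
      intro Z U _ hU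
      have hU0 : U = ∅ := by
        rw [pow_zero, pow_zero, mul_one] at hU
        exact card_eq_zero.1 (by omega)
      subst hU0
      rw [hLempty]
      exact STree.leaf 0 ∅ ∅ ∅ (by simp) (by simp) (by simp)
    | succ d ih =>
      intro Z U hcl hU
      rcases U.eq_empty_or_nonempty with h0 | hne
      · subst h0
        rw [hLempty]
        exact STree.leaf (d + 1) ∅ ∅ ∅ (by simp) (by simp) (by simp)
      · obtain ⟨c, hc, U₁, U₂, hUU, hdis, hcl1, hcl2, h1, h2⟩ := hCUT N R.par Z U R.par_le hcl hne
        have hcZ : c ∉ Z := hcl.1 c hc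
        have hZc : (insert c Z).card = Z.card + 1 := card_insert_of_notMem hcZ
        have hcard : U₁.card + U₂.card + 1 = U.card := by
          rw [← card_union_of_disjoint hdis, hUU, card_erase_of_mem hc]
          have := card_pos.2 hne
          omega
        have hb : ∀ u : ℕ, 3 * u ≤ 2 * U.card → u * 2 ^ d < 3 ^ d := by
          intro u hu
          have h3 : 3 * (u * 2 ^ d) ≤ U.card * 2 ^ (d + 1) := by
            calc 3 * (u * 2 ^ d) = 3 * u * 2 ^ d := by ring
              _ ≤ 2 * U.card * 2 ^ d := Nat.mul_le_mul_right _ hu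
              _ = U.card * 2 ^ (d + 1) := by ring
          have h4 : (3 : ℕ) ^ (d + 1) = 3 * 3 ^ d := by ring
          omega
        have ih1 := ih (insert c Z) U₁ hcl1 (hb _ h1)
        have ih2 := ih (insert c Z) U₂ hcl2 (hb _ h2)
        rw [hZc] at ih1 ih2
        have he : Z.card + 1 + d = Z.card + (d + 1) := by omega
        rw [he] at ih1 ih2
        have hl : 2 * U.card + 1 = (2 * U₁.card + 1) + (2 * U₂.card + 1) + 1 := by omega
        rw [hl]
        refine STree.node d _ _ _ _ _ (R.J c) (R.E c) (R.card_J c) (R.card_E c) ?_ ?_ ih1 ih2 ?_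
        · exact hL _ _ _ (Nat.mul_le_mul_left p (by rw [hZc]; omega))
        · exact hL _ _ _ (Nat.mul_le_mul_left p (by rw [hZc]; omega))
        · intro x hx
          rcases hc1 Z U c hcl hc x hx with h | h | h
          · rw [← hUU, hc3, mem_union] at h
            tauto
          · exact Or.inr (Or.inr (Or.inl h))
          · exact Or.inr (Or.inr (Or.inr h))
  have hNpos : 1 ≤ N := Nat.succ_le_of_lt (lt_of_le_of_lt (Nat.zero_le _) (R.home i).2)
  have hUc : (univ.erase (R.home i)).card = N - 1 := by
    rw [card_erase_of_mem (mem_univ _), card_univ, Fintype.card_fin]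
  have hcl : Closed R.par {R.home i} (univ.erase (R.home i)) := by
    refine ⟨fun t ht => ?_, fun t _ h2 h3 => ?_⟩
    · rw [mem_singleton]
      exact (mem_erase.1 ht).1
    · rw [mem_singleton] at h2 h3
      simp [h2, h3]
  have h1 := key d {R.home i} (univ.erase (R.home i)) hcl (by
    rw [hUc]
    have h2 : (N - 1) * 2 ^ d + 2 ^ d = N * 2 ^ d := by
      rw [← Nat.succ_mul]
      congr 1
      omega
    have h3 : 0 < 2 ^ d := by positivity
    omega)
  rw [hUc, card_singleton, Nat.add_comm 1 d] at h1
  have hl : 2 * N + 1 = (2 * (N - 1) + 1) + 1 + 1 := by omega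
  rw [hl]
  refine STree.node d _ 1 _ _ ∅ (R.J (R.home i)) (R.E (R.home i)) (R.card_J _) (R.card_E _) ?_
    (hempty _) h1 (STree.leaf d ∅ ∅ ∅ (by simp) (by simp) (by simp)) ?_
  · exact hL _ _ _ (Nat.mul_le_mul_left p (by rw [card_singleton]; omega))
  · intro x hx
    rcases hc2 i x hx with h | h | h
    · exact Or.inl h
    · exact Or.inr (Or.inr (Or.inl h))
    · exact Or.inr (Or.inr (Or.inr h))

end Pool.Agent.H40.TW
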