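import Pool.Agent.H40.TW.Final
import Pool.Agent.H40.TW.NUM
import Pool.Agent.H40.TW.SRC
import Pool.Agent.H40.TW.CUT
import Pool.Agent.H40.TW.DLC
import Pool.Agent.H40.TW.POT
import Pool.Agent.H40.TW.LOW
import Pool.Agent.H40.TW.ENT
import Pool.Agent.H40.TW.ONE
import Pool.Agent.H1.TW.DBL
import Pool.Agent.H1.TW.REC
import Pool.Agent.H1.TW.DEN
import Pool.Agent.H1.TW.PTH
import Pool.Agent.H1.TW.UPC
import Pool.Agent.H1.TW.UPL
import Pool.Agent.H1.TW.UPR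
import Pool.Agent.H59.TW.TAI
import Pool.Agent.H59.TW.FAR2
import Pool.Agent.H59.SH.STP
import Pool.Agent.H50.SH.UNB
import Pool.Agent.H71.SH.PSC
import Pool.Agent.H13.SH.PRS

/-!
# The exact tradeoff between time and memory for CNF-SAT: assembly
-/

namespace Pool.Agent.H40.TW

theorem main : TradeoffStatement := by
  have hPRS := Pool.Agent.H13.SH.pf_PRS
  have hPSC := Pool.Agent.H71.SH.psc
  have hDEN : T_DEN := Pool.Agent.H1.TW.den
    (Pool.Agent.H1.TW.rec_ ent one Pool.Agent.H1.TW.dbl) hPRS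
  have hLOW : T_LOW := low (pot' Pool.Agent.H59.SH.stp Pool.Agent.H50.SH.unb hPSC)
    (src dlc cov cut) dlc hPSC
  exact tradeoff Pool.Agent.H59.TW.pf_GOO hDEN hLOW hPSC dlc hPRS Pool.Agent.H59.TW.pf_FAR2 num
    (Pool.Agent.H1.TW.upr Pool.Agent.H59.TW.pf_TAI hPRS) (Pool.Agent.H1.TW.upc Pool.Agent.H1.TW.pth)
    (Pool.Agent.H1.TW.upl hPRS)

end Pool.Agent.H40.TW
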