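import Pool.Agent.H40.TW.NumT3
import Pool.Agent.H40.TW.NUM

/-!
# The exact tradeoff between time and memory: parameters (NUM3)
-/

namespace Pool.Agent.H40.TW

/-- consequences of the assumptions on `n`, `w` -/
lemma num3_w (η : ℝ) (h0 : 0 < η) (h1 : η < 1) (C₀ : ℕ) (hC₀ : 1 ≤ C₀) :
    ∃ C : ℕ, ∀ n w : ℕ, C ≤ n → n ^ C ≤ 2 ^ w → C * w ≤ n →
      1 ≤ n ∧ 1 ≤ w ∧ (2 : ℝ) ^ 20 * C₀ * n ^ 5 ≤ 2 ^ (η ^ 2 / 160 * w) ∧
        (64 / η * w : ℝ) ≤ n ∧ (64 / η : ℝ) ≤ n ∧ C₀ * n * 2 ^ w ≤ 2 ^ (2 * w) ∧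
        (64 / η : ℝ) * (2 * w) ≤ n := by
  obtain ⟨C, hC⟩ := exists_nat_ge (160 * 30 / η ^ 2 + 128 / η + 2 * C₀ + 4)
  have hη2 : 0 < 160 * 30 / η ^ 2 := by positivity
  have hη1 : 0 < 128 / η := by positivity
  have hη3 : 64 / η = 128 / η / 2 := by ring
  have hC0r : (1 : ℝ) ≤ C₀ := by exact_mod_cast hC₀
  refine ⟨C, ?_⟩
  intro n w hn hnw hwn
  have hCn : (C : ℝ) ≤ n := by exact_mod_cast hn
  have hC4 : (2 * C₀ + 4 : ℝ) ≤ C := by linarith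
  have hC4' : 2 * C₀ + 4 ≤ C := by exact_mod_cast hC4
  have hn1 : 1 ≤ n := by omega
  have hnr : (1 : ℝ) ≤ n := by exact_mod_cast hn1
  have hw1 : 1 ≤ w := by
    by_contra hcon
    have hw0 : w = 0 := by omega
    rw [hw0, pow_zero] at hnw
    have h2 : 2 ^ C ≤ n ^ C := Nat.pow_le_pow_left (by omega) C
    have h3 : 2 ^ 1 ≤ 2 ^ C := Nat.pow_le_pow_right (by norm_num) (by omega)
    omega
  have hwnr : (C : ℝ) * w ≤ n := by exact_mod_cast hwn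
  have hwr : (0 : ℝ) ≤ w := Nat.cast_nonneg w
  have h128 : 128 / η ≤ (C : ℝ) := by linarith
  have h6 : 128 / η * (w : ℝ) ≤ n := (mul_le_mul_of_nonneg_right h128 hwr).trans hwnr
  have h7 : 64 / η * (w : ℝ) = 128 / η * w / 2 := by ring
  have h8 : 0 ≤ 128 / η * (w : ℝ) := by positivity
  refine ⟨hn1, hw1, ?_, by linarith, by linarith, ?_, ?_⟩
  · have h5 : ((n : ℝ) ^ C) ≤ (2 : ℝ) ^ (w : ℝ) := by
      rw [Real.rpow_natCast]
      exact_mod_cast hnw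
    have h6 : ((n : ℝ) ^ C) ^ (η ^ 2 / 160) ≤ (2 : ℝ) ^ (η ^ 2 / 160 * w) := by
      rw [mul_comm, Real.rpow_mul (by norm_num)]
      exact Real.rpow_le_rpow (by positivity) h5 (by positivity)
    refine le_trans ?_ h6
    have h7 : ((n : ℝ) ^ C) ^ (η ^ 2 / 160) = (n : ℝ) ^ ((C : ℝ) * (η ^ 2 / 160)) := by
      rw [← Real.rpow_natCast, ← Real.rpow_mul (by positivity)]
    rw [h7]
    have h8 : ((26 : ℕ) : ℝ) ≤ (C : ℝ) * (η ^ 2 / 160) := by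
      have h10 : 160 * 30 / η ^ 2 * (η ^ 2 / 160) = 30 := by field_simp
      have h11 : 160 * 30 / η ^ 2 ≤ (C : ℝ) := by linarith
      have h12 : 160 * 30 / η ^ 2 * (η ^ 2 / 160) ≤ (C : ℝ) * (η ^ 2 / 160) :=
        mul_le_mul_of_nonneg_right h11 (by positivity)
      push_cast
      linarith
    calc (2 : ℝ) ^ 20 * C₀ * n ^ 5 ≤ (n : ℝ) ^ 20 * n * n ^ 5 := by
          have h9 : (2 : ℝ) ≤ n := by linarith
          have h10 : (C₀ : ℝ) ≤ n := by linarith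
          gcongr
      _ = (n : ℝ) ^ 26 := by ring
      _ = (n : ℝ) ^ ((26 : ℕ) : ℝ) := (Real.rpow_natCast _ _).symm
      _ ≤ _ := Real.rpow_le_rpow_of_exponent_le hnr h8
  · have h2 : C₀ * n ≤ 2 ^ w := by
      calc C₀ * n ≤ n * n := Nat.mul_le_mul_right _ (by omega)
        _ = n ^ 2 := by ring
        _ ≤ n ^ C := Nat.pow_le_pow_right hn1 (by omega)
        _ ≤ 2 ^ w := hnw
    calc C₀ * n * 2 ^ w ≤ 2 ^ w * 2 ^ w := Nat.mul_le_mul_right _ h2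
      _ = 2 ^ (2 * w) := by
        rw [← pow_add]
        congr 1
        ring
  · have h9 : 64 / η * (2 * (w : ℝ)) = 128 / η * w := by ring
    linarith

/-- the bound for the number of the dense clauses -/
lemma num3_T {S Z : ℝ} {C₀ n h : ℕ} (hC₀ : 1 ≤ C₀) (hn : 1 ≤ n)
    (hS : (2 : ℝ) ^ 20 * C₀ * n ^ 5 ≤ S) (hSZ : S ≤ Z)
    (hZ1 : (2 : ℝ) ^ h ≤ Z) (hZ2 : Z < 2 * 2 ^ h) :
    ∀ M : ℕ, (M : ℝ) * S ≤ 2 * (C₀ * n) * Z →
      4 * n + 2 + (2 * M * (2 * n + 1) + 2) * (4 * n + 3) ≤ 2 ^ h / (8 * (2 * n + 2) ^ 2) := by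
  have hC : (1 : ℝ) ≤ C₀ := by exact_mod_cast hC₀
  have hn' : (1 : ℝ) ≤ n := by exact_mod_cast hn
  set T : ℕ := 2 ^ h / (8 * (2 * n + 2) ^ 2) with hT
  have hS5 : (2 : ℝ) ^ 20 * n ^ 5 ≤ S := by
    refine le_trans ?_ hS
    have : (0 : ℝ) ≤ 2 ^ 20 * n ^ 5 := by positivity
    nlinarith
  have hSpos : 0 < S := lt_of_lt_of_le (by positivity) hS5
  have hZpos : 0 < Z := hSpos.trans_le hSZ
  have hdpos : 0 < 8 * (2 * n + 2) ^ 2 := by positivity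
  have hT2 : 2 ^ h < 8 * (2 * n + 2) ^ 2 * (T + 1) := by
    have := Nat.lt_succ_self (2 ^ h / (8 * (2 * n + 2) ^ 2))
    rw [Nat.div_lt_iff_lt_mul hdpos] at this
    rw [mul_comm]
    exact this
  have hT3 : Z < 256 * (n ^ 2 * ((T : ℝ) + 1)) := by
    have h1 : ((2 : ℝ) ^ h) < 8 * (2 * n + 2) ^ 2 * (T + 1) := by exact_mod_cast hT2
    have h2 : (8 * (2 * n + 2) ^ 2 : ℝ) ≤ 128 * n ^ 2 := by nlinarith
    have h3 : (8 * (2 * n + 2) ^ 2 * (T + 1) : ℝ) ≤ 128 * n ^ 2 * (T + 1) :=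
      mul_le_mul_of_nonneg_right h2 (by positivity)
    nlinarith
  have hkey : ∀ q : ℕ, (q : ℝ) * S ≤ 2 * (C₀ * n) * Z → (q : ℝ) * (2 ^ 19 * n ^ 4) ≤ Z := by
    intro q hq
    have h1 : (q : ℝ) * (2 ^ 20 * C₀ * n ^ 5) ≤ 2 * (C₀ * n) * Z :=
      (mul_le_mul_of_nonneg_left hS (by positivity)).trans hq
    have h2 : (2 * (C₀ * n) : ℝ) * ((q : ℝ) * (2 ^ 19 * n ^ 4)) ≤ 2 * (C₀ * n) * Z := by
      calc (2 * (C₀ * n) : ℝ) * ((q : ℝ) * (2 ^ 19 * n ^ 4)) = q * (2 ^ 20 * C₀ * n ^ 5) := by ring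
        _ ≤ _ := h1
    exact le_of_mul_le_mul_left h2 (by positivity)
  have hn35 : (n : ℝ) ^ 3 ≤ n ^ 5 := pow_le_pow_right₀ hn' (by norm_num)
  intro M hM
  have h1 := hkey M hM
  have h2 : (M : ℝ) * n ^ 4 ≤ Z / 2 ^ 19 := by
    rw [le_div_iff₀ (by positivity)]
    linarith
  have h3 : (n : ℝ) ^ 3 ≤ Z / 2 ^ 20 := by
    rw [le_div_iff₀ (by positivity)]
    nlinarith
  have h4 : ((4 * n + 2 + (2 * M * (2 * n + 1) + 2) * (4 * n + 3) : ℕ) : ℝ) + 1 ≤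
      42 * (M * n ^ 2) + 21 * n := by
    push_cast
    have h5 : (2 * n + 1 : ℝ) ≤ 3 * n := by linarith
    have h6 : (4 * n + 3 : ℝ) ≤ 7 * n := by linarith
    have h7 : (2 * M * (2 * n + 1) + 2 : ℝ) ≤ 6 * (M * n) + 2 := by nlinarith
    have h8 : ((2 * M * (2 * n + 1) + 2) * (4 * n + 3) : ℝ) ≤ (6 * (M * n) + 2) * (7 * n) :=
      mul_le_mul h7 h6 (by positivity) (by positivity)
    nlinarith
  have h5 : (((4 * n + 2 + (2 * M * (2 * n + 1) + 2) * (4 * n + 3) : ℕ) : ℝ) + 1) * n ^ 2 <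
      (T + 1) * n ^ 2 := by
    calc (((4 * n + 2 + (2 * M * (2 * n + 1) + 2) * (4 * n + 3) : ℕ) : ℝ) + 1) * n ^ 2
        ≤ (42 * (M * n ^ 2) + 21 * n) * n ^ 2 := mul_le_mul_of_nonneg_right h4 (by positivity)
      _ = 42 * (M * n ^ 4) + 21 * n ^ 3 := by ring
      _ ≤ 42 * (Z / 2 ^ 19) + 21 * (Z / 2 ^ 20) := by linarith
      _ ≤ Z / 256 := by linarith
      _ < (T + 1) * n ^ 2 := by
        rw [div_lt_iff₀ (by norm_num)]
        linarith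
  have h6 := lt_of_mul_lt_mul_right h5 (by positivity)
  have h7 : ((4 * n + 2 + (2 * M * (2 * n + 1) + 2) * (4 * n + 3) : ℕ) : ℝ) < T := by linarith
  exact_mod_cast h7.le

/-- the memory of the upper bound -/
lemma num3_mem {μ η S : ℝ} {C₀ n m w u : ℕ} (h0 : 0 < η) (hη1 : η < 1) (hμ0 : 0 ≤ μ)
    (hC₀ : 1 ≤ C₀) (hn1 : 1 ≤ n)
    (hw3 : (2 : ℝ) ^ 20 * C₀ * n ^ 5 ≤ S) (hS : S = 2 ^ (η ^ 2 / 160 * (w : ℝ)))
    (h2wmr : (2 : ℝ) ^ w ≤ m) (hu1 : (u : ℝ) ≤ (μ + η / 2) * w) :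
    (2 * (4 * n * (8 * (C₀ * n) * 2 ^ u + 1) + 1) + 2 : ℝ) ≤ (m : ℝ) ^ (μ + η) := by
  have hnr : (1 : ℝ) ≤ n := by exact_mod_cast hn1
  have hC₀r : (1 : ℝ) ≤ C₀ := by exact_mod_cast hC₀
  have hwr : (0 : ℝ) ≤ w := Nat.cast_nonneg w
  have h5' : η ^ 2 / 160 * (w : ℝ) ≤ η / 2 * w := by
    refine mul_le_mul_of_nonneg_right ?_ hwr
    nlinarith
  have h1 : (2 : ℝ) ^ u * S ≤ 2 ^ ((μ + η) * (w : ℝ)) := by
    rw [two_h2h, hS, two_hadd]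
    exact two_hpow (by linarith)
  have h2 : (2 : ℝ) ^ ((μ + η) * (w : ℝ)) ≤ (m : ℝ) ^ (μ + η) := by
    calc (2 : ℝ) ^ ((μ + η) * (w : ℝ)) = ((2 : ℝ) ^ w) ^ (μ + η) := by
          rw [two_h2h w, ← Real.rpow_mul (by norm_num), mul_comm]
      _ ≤ _ := Real.rpow_le_rpow (by positivity) h2wmr (by linarith)
  refine le_trans ?_ (h1.trans h2)
  have h3 : (2 : ℝ) ^ u * (2 ^ 20 * C₀ * n ^ 5) ≤ 2 ^ u * S :=
    mul_le_mul_of_nonneg_left hw3 (by positivity)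
  refine le_trans ?_ h3
  have h4 : (1 : ℝ) ≤ 2 ^ u := one_le_pow₀ (by norm_num)
  have h5 : (n : ℝ) ^ 2 ≤ n ^ 5 := pow_le_pow_right₀ hnr (by norm_num)
  have h6 : (2 : ℝ) ^ u * (C₀ * (n : ℝ) ^ 2) ≤ 2 ^ u * (C₀ * (n : ℝ) ^ 5) :=
    mul_le_mul_of_nonneg_left (mul_le_mul_of_nonneg_left h5 (by positivity)) (by positivity)
  have h9 : (1 : ℝ) ≤ 2 ^ u * C₀ := by nlinarith
  have h10 : (n : ℝ) ≤ n ^ 2 := by
    calc (n : ℝ) = n ^ 1 := (pow_one _).symm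
      _ ≤ n ^ 2 := pow_le_pow_right₀ hnr (by norm_num)
  have h7 : (n : ℝ) ≤ 2 ^ u * (C₀ * (n : ℝ) ^ 2) := by
    calc (n : ℝ) ≤ 1 * n ^ 2 := by rw [one_mul]; exact h10
      _ ≤ (2 ^ u * C₀) * n ^ 2 := mul_le_mul_of_nonneg_right h9 (by positivity)
      _ = _ := by ring
  have h8 : (2 * (4 * n * (8 * (C₀ * n) * 2 ^ u + 1) + 1) + 2 : ℝ) =
      64 * (2 ^ u * (C₀ * (n : ℝ) ^ 2)) + 8 * n + 4 := by ring
  have h11 : (2 : ℝ) ^ u * (2 ^ 20 * C₀ * (n : ℝ) ^ 5) =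
      2 ^ 20 * (2 ^ u * (C₀ * (n : ℝ) ^ 5)) := by ring
  rw [h8, h11]
  linarith

theorem num3 : T_NUM3 := by
  intro η h0 hη1 C₁
  obtain ⟨C₂, hC₂⟩ := exists_nat_ge (16 / η)
  set C₀ : ℕ := max (max C₁ C₂) 1 with hC₀def
  have hC₀ : 1 ≤ C₀ := le_max_right _ _
  have hC₀r : (1 : ℝ) ≤ C₀ := by exact_mod_cast hC₀
  have hC₀η : 16 / η ≤ (C₀ : ℝ) := by
    refine hC₂.trans ?_
    have : C₂ ≤ C₀ := (le_max_right _ _).trans (le_max_left _ _)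
    exact_mod_cast this
  obtain ⟨C, hC⟩ := num3_w η h0 hη1 C₀ hC₀
  refine ⟨C₀, C, (le_max_left _ _).trans (le_max_left _ _), hC₀, ?_⟩
  clear_value C₀
  intro n w hn hnw hwn'
  obtain ⟨hn1, hw1', hw3, hw4, hn64, h2w2, hm64⟩ := hC n w hn hnw hwn'
  clear hC hn hnw hwn'
  have hnr : (1 : ℝ) ≤ n := by exact_mod_cast hn1
  have hnpos : (0 : ℝ) < n := by linarith
  have hwr : (0 : ℝ) ≤ w := Nat.cast_nonneg w
  have hηn : 64 ≤ η * n := by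
    rw [div_le_iff₀ h0] at hn64
    linarith
  have hηw : 64 * (w : ℝ) ≤ η * n := by
    have h1 : 64 / η * (w : ℝ) * η ≤ n * η := mul_le_mul_of_nonneg_right hw4 h0.le
    have h2 : 64 / η * (w : ℝ) * η = 64 * w := by field_simp
    linarith
  have hwn : 2 * w ≤ n := by
    have h1 : η * (n : ℝ) ≤ 1 * n := mul_le_mul_of_nonneg_right hη1.le hnpos.le
    have h2 : (2 * w : ℝ) ≤ n := by linarith
    exact_mod_cast h2
  set m : ℕ := C₀ * n * 2 ^ w with hm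
  have h2wm : 2 ^ w ≤ m := Nat.le_mul_of_pos_left _ (by positivity)
  have hm1 : 1 ≤ m := Nat.one_le_two_pow.trans h2wm
  have hmr : (1 : ℝ) ≤ m := by exact_mod_cast hm1
  have hm2w : m ≤ 2 ^ (2 * w) := h2w2
  refine ⟨hn1, by omega, hm2w.trans (Nat.pow_le_pow_right (by norm_num) hwn), ?_⟩
  have hw2 : m < 2 * (C₀ * n) * 2 ^ w := by
    have h1 : 0 < C₀ * n * 2 ^ w := by positivity
    have h2 : 2 * (C₀ * n) * 2 ^ w = 2 * (C₀ * n * 2 ^ w) := by ring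
    omega
  have hlogm : 64 / η * Real.logb 2 m ≤ (n : ℝ) := by
    refine le_trans (mul_le_mul_of_nonneg_left ?_ (by positivity)) hm64
    have h1 : (m : ℝ) ≤ 2 ^ (2 * w) := by exact_mod_cast hm2w
    have h2 := Real.logb_le_logb_of_le (b := 2) (by norm_num) (by positivity) h1
    rw [Real.logb_pow, Real.logb_self_eq_one (by norm_num)] at h2
    push_cast at h2
    linarith
  clear_value m
  intro μ hημ hμ
  set S : ℝ := 2 ^ (η ^ 2 / 160 * (w : ℝ)) with hS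
  set Z : ℝ := 2 ^ ((μ - η / 2) * (w : ℝ)) with hZ
  have hηsq : η ^ 2 / 160 ≤ η / 2 := by nlinarith
  have hηsqw : η ^ 2 / 160 * (w : ℝ) ≤ η / 2 * w := mul_le_mul_of_nonneg_right hηsq hwr
  have hSZ : S ≤ Z := two_hpow (hηsqw.trans (mul_le_mul_of_nonneg_right (by linarith) hwr))
  have hS20 : (2 : ℝ) ^ 20 ≤ S := by
    refine le_trans ?_ hw3
    have hn5 : (1 : ℝ) ≤ (n : ℝ) ^ 5 := one_le_pow₀ hnr
    nlinarith
  have hSpos : 0 < S := by positivity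
  have hZpos : 0 < Z := by positivity
  set h : ℕ := ⌊(μ - η / 2) * (w : ℝ)⌋₊ with hh
  have hexp0 : 0 ≤ (μ - η / 2) * (w : ℝ) := mul_nonneg (by linarith) hwr
  have hh1 : (h : ℝ) ≤ (μ - η / 2) * w := Nat.floor_le hexp0
  have hh2 : (μ - η / 2) * (w : ℝ) < h + 1 := Nat.lt_floor_add_one _
  have hZ1 : (2 : ℝ) ^ h ≤ Z := by
    rw [two_h2h]
    exact two_hpow hh1
  have hZ2 : Z < 2 * 2 ^ h := by
    have h1 : Z < 2 ^ ((h : ℝ) + 1) := Real.rpow_lt_rpow_of_exponent_lt (by norm_num) hh2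
    rw [Real.rpow_add (by norm_num), Real.rpow_one, ← two_h2h] at h1
    linarith
  clear_value h
  obtain ⟨hq, -, hT5⟩ := num_T (C₀ := C₀) (n := n) (h := h) hC₀ hn1 hw3 hSZ hZ1 hZ2
  have hM := num3_T (C₀ := C₀) (n := n) (h := h) hC₀ hn1 hw3 hSZ hZ1 hZ2
  set T : ℕ := 2 ^ h / (8 * (2 * n + 2) ^ 2) with hT
  clear_value T
  -- powers of `m`
  have hmu : (m : ℝ) ^ (μ - η) * S ≤ 2 * (C₀ * n) * Z := by
    have h1 := num_pow hC₀ hn1 hw2 (a := μ - η) (by linarith) (by linarith)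
    calc (m : ℝ) ^ (μ - η) * S ≤ (2 * (C₀ * n) * (2 : ℝ) ^ ((μ - η) * w)) * S :=
          mul_le_mul_of_nonneg_right h1 hSpos.le
      _ = 2 * (C₀ * n) * ((2 : ℝ) ^ ((μ - η) * (w : ℝ)) * S) := by ring
      _ ≤ 2 * (C₀ * n) * Z := by
        refine mul_le_mul_of_nonneg_left ?_ (by positivity)
        rw [hS, two_hadd]
        exact two_hpow (by linarith)
  have hmul : ∀ q : ℕ, (q : ℝ) ≤ (m : ℝ) ^ (μ - η) → (q : ℝ) * S ≤ 2 * (C₀ * n) * Z :=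
    fun q hq => (mul_le_mul_of_nonneg_right hq hSpos.le).trans hmu
  have hT1 : 1 ≤ T := by
    have h1 := hM 0 (hmul 0 (by rw [Nat.cast_zero]; positivity))
    omega
  have h2wmr : (2 : ℝ) ^ w ≤ m := by exact_mod_cast h2wm
  set R : ℝ := 2 ^ w * S / (2 * 2 ^ h) with hR
  have hR2 : 2 ≤ R := by
    have hhw : (2 : ℝ) ^ h ≤ 2 ^ w := by
      have h1 : (h : ℝ) ≤ w := by
        have : (μ - η / 2) * (w : ℝ) ≤ 1 * w := mul_le_mul_of_nonneg_right (by linarith) hwr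
        linarith
      have h2 : h ≤ w := by exact_mod_cast h1
      exact pow_le_pow_right₀ (by norm_num) h2
    rw [hR, le_div_iff₀ (by positivity)]
    have h4 : (4 : ℝ) ≤ S := by linarith
    calc 2 * (2 * (2 : ℝ) ^ h) = 2 ^ h * 4 := by ring
      _ ≤ 2 ^ w * S := mul_le_mul hhw h4 (by norm_num) (by positivity)
  have hkn : ⌊μ * (n : ℝ)⌋₊ ≤ n := by
    have h1 : (⌊μ * (n : ℝ)⌋₊ : ℝ) ≤ μ * n :=
      Nat.floor_le (mul_nonneg (by linarith) hnpos.le)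
    have h2 : μ * (n : ℝ) ≤ 1 * n := mul_le_mul_of_nonneg_right hμ.le hnpos.le
    have h3 : (⌊μ * (n : ℝ)⌋₊ : ℝ) ≤ n := by linarith
    exact_mod_cast h3
  have hlogG : Real.log ((2 : ℝ) ^ ((μ - η / 4) * (n : ℝ))) / n = (μ - η / 4) * Real.log 2 := by
    rw [Real.log_rpow (by norm_num)]
    field_simp
  have hbase : 1 + (η / 8) ^ 2 - η / 8 * Real.log ((2 : ℝ) ^ ((μ - η / 4) * (n : ℝ))) / n =
      1 + (η / 8) ^ 2 - η / 8 * ((μ - η / 4) * Real.log 2) := by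
    rw [← hlogG]
    ring
  refine ⟨h, T, ⌊(μ - η / 8) * (n : ℝ)⌋₊, ⌊R⌋₊, ⌊(μ + η / 2) * (w : ℝ)⌋₊, ⌊μ * (n : ℝ)⌋₊,
    2 ^ ((μ - η / 4) * (n : ℝ)), hT1, ?_, ?_, ?_, ?_, ?_, ⟨?_, ?_⟩,
    ?_, hkn, ?_, ?_, ?_, ?_⟩
  · exact num_g h0 hηn (Nat.floor_le (mul_nonneg (by linarith) hnpos.le))
      (Nat.lt_floor_add_one _)
  · intro q hq'
    exact hq q (hmul q hq')
  · exact num_root h0 (by linarith) hμ.le hη1 hC₀ hn1 hw2 hw3 hS hZ hZ1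
  · intro M hM'
    exact hM M (hmul M hM')
  · have h1 := num_KT (K := (⌊R⌋₊ : ℝ)) hn1 hw3 hZ1 hT5 hR hR2 (Nat.lt_floor_add_one _)
    rw [hm]
    exact_mod_cast h1
  · exact Real.one_le_rpow (by norm_num) (mul_nonneg (by linarith) hnpos.le)
  · rw [hbase]
    exact (num_rho h0 hημ hμ w).1
  · rw [hbase]
    exact num_main h0 hημ hμ hηn hηw hS hh1 rfl (Nat.lt_floor_add_one _) hR
      (Nat.cast_nonneg _) (Nat.floor_le (by linarith))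
  · exact num_markov h0 hη1 (by linarith) hμ hC₀η
      (Nat.floor_le (mul_nonneg (by linarith) hnpos.le)) (Nat.lt_floor_add_one _)
  · have h1 : 1 ≤ 2 ^ ⌊(μ + η / 2) * (w : ℝ)⌋₊ := Nat.one_le_two_pow
    have h2 : n ≤ C₀ * n := Nat.le_mul_of_pos_left _ hC₀
    calc 3 * n + 4 ≤ 8 * (C₀ * n) * 1 := by omega
      _ ≤ _ := Nat.mul_le_mul_left _ h1
  · exact num3_mem h0 hη1 (by linarith) hC₀ hn1 hw3 hS h2wmr
      (Nat.floor_le (mul_nonneg (by linarith) hwr))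
  · exact num_time h0 hη1 hμ hm1 (le_of_eq hm.symm) hηn hlogm h2wmr
      (Nat.floor_le (mul_nonneg (by linarith) hwr)) hkn (Nat.lt_floor_add_one _)

end Pool.Agent.H40.TW
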