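import Pool.Agent.H1.TW.UPR
import Pool.Agent.H40.TW.Targets3

/-!
# Random part of the upper bound, almost all formulas (UPR3)
-/

namespace Pool.Agent.H40.TW

open Finset Pool.Agent.H80.SH Pool.Agent.H1.TW

theorem upr3 (hTAI : T_TAI) (hPRS : T_PRS) : T_UPR3 := by
  classical
  intro n w u C Q U hn hw hC hQ hnQ
  set r := C * n * 2 ^ w with hr
  have hcard : 0 < Fintype.card (Cl n w) := by
    rw [(hPRS n w hw).1]
    exact Nat.mul_pos (Nat.choose_pos hw) (by positivity)
  -- first event
  let S : (Fin n → Bool) → Finset (Cl n w) := fun x =>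
    univ.filter (fun c : Cl n w => Slim U u c ∧ x ∈ VC c)
  let B1 : (Fin n → Bool) → Finset (Fin r → Cl n w) := fun x =>
    univ.filter (fun F => ∀ j, F j ∉ S x)
  have hB1 : ∀ x, ((B1 x).card : ℝ) ≤ Real.exp (-(4 * n)) * (Fintype.card (Cl n w) : ℝ) ^ r := by
    intro x
    have h1 := card_avoid (S x) r
    have h2 := card_slim U hn hw hPRS hC x
    have hS : (S x).card ≤ Fintype.card (Cl n w) := card_le_univ _
    have hc : (0 : ℝ) < Fintype.card (Cl n w) := by exact_mod_cast hcard
    have h3 : ((B1 x).card : ℝ) = ((Fintype.card (Cl n w) : ℝ) - (S x).card) ^ r := by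
      change ((univ.filter (fun F : Fin r → Cl n w => ∀ j, F j ∉ S x)).card : ℝ) = _
      rw [h1]
      push_cast [Nat.cast_sub hS]
      ring
    have h4 : (4 : ℝ) * Fintype.card (Cl n w) ≤ C * ((S x).card * 2 ^ w) := by exact_mod_cast h2
    have hCpos : (0 : ℝ) < C := by
      rcases Nat.eq_zero_or_pos C with h0 | h0
      · subst h0
        simp only [Nat.cast_zero, zero_mul] at h4
        linarith
      · exact_mod_cast h0
    have h5 : ((Fintype.card (Cl n w) : ℝ) - (S x).card) ≤
        Real.exp (-(4 / (C * 2 ^ w))) * Fintype.card (Cl n w) := by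
      have h6 : 1 - 4 / (C * 2 ^ w : ℝ) ≤ Real.exp (-(4 / (C * 2 ^ w))) := by
        have := Real.add_one_le_exp (-(4 / (C * 2 ^ w) : ℝ))
        linarith
      have h7 : (4 / (C * 2 ^ w : ℝ)) * Fintype.card (Cl n w) ≤ (S x).card := by
        rw [div_mul_eq_mul_div, div_le_iff₀ (by positivity)]
        linarith
      have h8 := mul_le_mul_of_nonneg_right h6 hc.le
      linarith
    have h9 : (0 : ℝ) ≤ (Fintype.card (Cl n w) : ℝ) - (S x).card := by
      have : ((S x).card : ℝ) ≤ Fintype.card (Cl n w) := by exact_mod_cast hS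
      linarith
    rw [h3]
    calc _ ≤ (Real.exp (-(4 / (C * 2 ^ w))) * Fintype.card (Cl n w)) ^ r :=
          pow_le_pow_left₀ h9 h5 r
      _ = Real.exp (-(4 * n)) * (Fintype.card (Cl n w) : ℝ) ^ r := by
          rw [mul_pow, ← Real.exp_nat_mul]
          congr 2
          rw [hr]
          push_cast
          field_simp
  -- second event
  let D : (Fin n → Bool) → Finset (Cl n w) := fun x =>
    univ.filter (fun c : Cl n w => Slim U u c ∧ ∀ i ∈ c.1.1, i ∉ U → x i = c.2 i)
  have hT : ∀ x, ∃ B : Finset (Fin r → Cl n w), 2 ^ (Q + 1) * B.card ≤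
      Fintype.card (Cl n w) ^ r ∧
      ∀ F, F ∉ B → (univ.filter (fun j => F j ∈ D x)).card < Q + 1 := by
    intro x
    refine hTAI (Cl n w) r (Q + 1) (2 ^ (w - u)) (D x) (by omega) (card_meet U hw hPRS x) ?_
    have h1 : 2 ^ w ≤ 2 ^ u * 2 ^ (w - u) := by
      rw [← pow_add]
      exact Nat.pow_le_pow_right (by norm_num) (by omega)
    calc 8 * r = 8 * (C * n) * 2 ^ w := by rw [hr]; ring
      _ ≤ 8 * (C * n) * (2 ^ u * 2 ^ (w - u)) := Nat.mul_le_mul_left _ h1
      _ = 2 ^ (w - u) * (8 * (C * n) * 2 ^ u) := by ring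
      _ ≤ 2 ^ (w - u) * (Q + 1) := Nat.mul_le_mul_left _ (by omega)
  choose B2 hB2 hB2' using hT
  refine ⟨univ.biUnion B1 ∪ univ.biUnion B2, ?_, ?_⟩
  · have hM : (0 : ℝ) ≤ (Fintype.card (Cl n w) : ℝ) ^ r := by positivity
    have h1 : ((univ.biUnion B1).card : ℝ) ≤
        2 ^ n * (Real.exp (-(4 * n)) * (Fintype.card (Cl n w) : ℝ) ^ r) := by
      calc ((univ.biUnion B1).card : ℝ) ≤ ∑ x, ((B1 x).card : ℝ) := by
            exact_mod_cast card_biUnion_le
        _ ≤ ∑ x : Fin n → Bool, Real.exp (-(4 * n)) * (Fintype.card (Cl n w) : ℝ) ^ r :=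
            sum_le_sum fun x _ => hB1 x
        _ = _ := by
            rw [sum_const, card_univ, Fintype.card_fun, Fintype.card_bool, Fintype.card_fin,
              nsmul_eq_mul]
            push_cast
            ring
    have h2 : 4 ^ n * ((2 : ℝ) ^ n * Real.exp (-(4 * n))) ≤ 1 / 2 := by
      have h3 : Real.exp (-(4 * n)) = Real.exp (-4) ^ n := by
        rw [← Real.exp_nat_mul]
        congr 1
        ring
      rw [h3, ← mul_pow, ← mul_pow]
      have h4 : 4 * ((2 : ℝ) * Real.exp (-4)) ≤ 1 / 2 := by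
        have h5 : Real.exp (-4) = (Real.exp 1)⁻¹ ^ 4 := by
          rw [← Real.exp_neg, ← Real.exp_nat_mul]
          norm_num
        have h6 : (Real.exp 1)⁻¹ ≤ 1 / 2 := by
          rw [inv_eq_one_div]
          refine one_div_le_one_div_of_le (by norm_num) ?_
          have := Real.exp_one_gt_d9
          linarith
        rw [h5]
        calc 4 * (2 * (Real.exp 1)⁻¹ ^ 4) ≤ 4 * (2 * (1 / 2 : ℝ) ^ 4) := by
              have := pow_le_pow_left₀ (by positivity) h6 4
              linarith
          _ = 1 / 2 := by norm_num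
      calc (4 * (2 * Real.exp (-4))) ^ n ≤ (4 * (2 * Real.exp (-4))) ^ 1 :=
            pow_le_pow_of_le_one (by positivity) (by linarith) hn
        _ ≤ _ := by rw [pow_one]; exact h4
    have h3 : 2 * (4 ^ n * (univ.biUnion B2).card) ≤ Fintype.card (Cl n w) ^ r := by
      have h4 : 2 ^ (Q + 1) * (univ.biUnion B2).card ≤ 2 ^ n * Fintype.card (Cl n w) ^ r := by
        calc 2 ^ (Q + 1) * (univ.biUnion B2).card ≤ 2 ^ (Q + 1) * ∑ x, (B2 x).card :=
              Nat.mul_le_mul_left _ card_biUnion_le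
          _ = ∑ x, 2 ^ (Q + 1) * (B2 x).card := mul_sum _ _ _
          _ ≤ ∑ x : Fin n → Bool, Fintype.card (Cl n w) ^ r := sum_le_sum fun x _ => hB2 x
          _ = _ := by
              rw [sum_const, card_univ, Fintype.card_fun, Fintype.card_bool, Fintype.card_fin,
                smul_eq_mul]
      have h5 : 2 ^ n * (2 * 4 ^ n) ≤ 2 ^ (Q + 1) := by
        rw [show (4 : ℕ) = 2 ^ 2 by norm_num, ← pow_mul, ← pow_succ', ← pow_add]
        exact Nat.pow_le_pow_right (by norm_num) (by omega)
      have h6 : 2 ^ n * (2 * (4 ^ n * (univ.biUnion B2).card)) ≤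
          2 ^ n * Fintype.card (Cl n w) ^ r := by
        calc _ = 2 ^ n * (2 * 4 ^ n) * (univ.biUnion B2).card := by ring
          _ ≤ 2 ^ (Q + 1) * (univ.biUnion B2).card := Nat.mul_le_mul_right _ h5
          _ ≤ _ := h4
      exact Nat.le_of_mul_le_mul_left h6 (by positivity)
    have h4 : (4 : ℝ) ^ n * ((univ.biUnion B1 ∪ univ.biUnion B2).card : ℝ) ≤
        (Fintype.card (Cl n w) : ℝ) ^ r := by
      have h5 : ((univ.biUnion B1 ∪ univ.biUnion B2).card : ℝ) ≤
          (univ.biUnion B1).card + (univ.biUnion B2).card := by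
        exact_mod_cast card_union_le _ _
      have h6 : 2 * ((4 : ℝ) ^ n * ((univ.biUnion B2).card : ℝ)) ≤
          (Fintype.card (Cl n w) : ℝ) ^ r := by exact_mod_cast h3
      have h7 := mul_le_mul_of_nonneg_right h2 hM
      have h8 : (0 : ℝ) < 4 ^ n := by positivity
      have h9 := mul_le_mul_of_nonneg_left h1 h8.le
      have h10 := mul_le_mul_of_nonneg_left h5 h8.le
      calc (4 : ℝ) ^ n * ((univ.biUnion B1 ∪ univ.biUnion B2).card : ℝ)
          ≤ 4 ^ n * ((univ.biUnion B1).card + (univ.biUnion B2).card) := h10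
        _ = 4 ^ n * (univ.biUnion B1).card + 4 ^ n * (univ.biUnion B2).card := by ring
        _ ≤ 4 ^ n * (2 ^ n * (Real.exp (-(4 * n)) * (Fintype.card (Cl n w) : ℝ) ^ r)) +
            4 ^ n * (univ.biUnion B2).card := by linarith
        _ = 4 ^ n * (2 ^ n * Real.exp (-(4 * n))) * (Fintype.card (Cl n w) : ℝ) ^ r +
            4 ^ n * (univ.biUnion B2).card := by ring
        _ ≤ _ := by linarith
    exact_mod_cast h4
  · intro F hF
    simp only [mem_union, mem_biUnion, mem_univ, true_and, not_or, not_exists] at hF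
    obtain ⟨hF1, hF2⟩ := hF
    constructor
    · intro x
      have h1 := hF1 x
      simp only [B1, mem_filter, mem_univ, true_and, not_forall, not_not] at h1
      obtain ⟨j, hj⟩ := h1
      exact ⟨j, (mem_filter.1 hj).2⟩
    · intro x
      have h1 := hB2' x F (hF2 x)
      have h2 : ({j | Slim U u (F j) ∧ ∀ i ∈ (F j).1.1, i ∉ U → x i = (F j).2 i} :
          Set (Fin r)) = ((univ.filter (fun j => F j ∈ D x) : Finset (Fin r)) : Set (Fin r)) := by
        ext j
        simp [D]
      rw [h2, Set.ncard_coe_finset]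
      omega

end Pool.Agent.H40.TW
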