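import Pool.Agent.H40.TW.Main
import Pool.Agent.H40.TW.Final3
import Pool.Agent.H40.TW.NUM3
import Pool.Agent.H40.TW.FAR3
import Pool.Agent.H40.TW.UPR3
import Pool.Agent.H40.TW.CLA

/-!
# The exact tradeoff between time and memory for CNF-SAT: assembly, all memory sizes and almost all
formulas at once
-/

namespace Pool.Agent.H40.TW

theorem main3 : CurveStatement := by
  have hPRS := Pool.Agent.H13.SH.pf_PRS
  have hPSC := Pool.Agent.H71.SH.psc
  have hDEN : T_DEN := Pool.Agent.H1.TW.den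
    (Pool.Agent.H1.TW.rec_ ent one Pool.Agent.H1.TW.dbl) hPRS
  have hLOW : T_LOW := low (pot' Pool.Agent.H59.SH.stp Pool.Agent.H50.SH.unb hPSC)
    (src dlc cov cut) dlc hPSC
  exact curve (goo3 Pool.Agent.H59.TW.pf_TAI) hDEN hLOW hPSC dlc hPRS far3 num3
    (upr3 Pool.Agent.H59.TW.pf_TAI hPRS) (Pool.Agent.H1.TW.upc Pool.Agent.H1.TW.pth)
    (Pool.Agent.H1.TW.upl hPRS) cla

end Pool.Agent.H40.TW
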