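import Pool.Agent.H80.SH.Stmt

/-!
# The exact tradeoff between time and memory for CNF-SAT (MP_c62aed_lc): definitions
-/

namespace Pool.Agent.H40.TW

/-- A semantic derivation from the clauses `j : ι`, where `V j` is the set of the assignments
violating the clause `j`.  The line `i` is given by the set `A i`, a member of `L`, of the
assignments which falsify it; `P i` is the set of its premises.  The derivation comes with a tree
decomposition with `N` bags of at most `p` lines each: `par t` is the parent of the bag `t`
(`par t = t` for the roots) and the bags containing the line `i` form a connected part of the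
forest, with the top `top i`.  The premises of the line `i` are in the bag `home i`, together with
`i`: every assignment which falsifies the line `i` falsifies one of the premises, or violates one of
the at most `q` clauses in `J (home i)`, or is one of the at most `e` assignments in
`E (home i)`. -/
structure Derivation {X ι : Type} (V : ι → Finset X) (L : Finset (Finset X)) (N p q e : ℕ) where
  /-- the number of the lines -/
  T : ℕ
  /-- the set of the assignments which falsify a line -/
  A : Fin T → Finset X
  /-- the premises of a line -/
  P : Fin T → Finset (Fin T)
  /-- the parent of a bag -/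
  par : Fin N → Fin N
  /-- the lines in a bag -/
  bag : Fin N → Finset (Fin T)
  /-- the clauses used in a bag -/
  J : Fin N → Finset ι
  /-- the assignments treated by brute force in a bag -/
  E : Fin N → Finset X
  /-- the bag in which a line is derived -/
  home : Fin T → Fin N
  /-- the topmost bag containing a line -/
  top : Fin T → Fin N
  mem : ∀ i, A i ∈ L
  lt : ∀ i, ∀ a ∈ P i, a < i
  sound : ∀ i, ∀ x ∈ A i, (∃ a ∈ P i, x ∈ A a) ∨ (∃ j ∈ J (home i), x ∈ V j) ∨ x ∈ E (home i)
  card_bag : ∀ t, (bag t).card ≤ p
  card_J : ∀ t, (J t).card ≤ q
  card_E : ∀ t, (E t).card ≤ e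
  home_mem : ∀ i, i ∈ bag (home i)
  prem_mem : ∀ i, P i ⊆ bag (home i)
  par_le : ∀ t, par t ≤ t
  conn : ∀ t, ∀ i ∈ bag t, t ≠ top i → par t ≠ t ∧ i ∈ bag (par t)

/-- the clauses with exactly `w` variables -/
def clausesOf (n w : ℕ) : Finset (Pool.Agent.H80.SH.Clause n) :=
  Finset.univ.filter (fun C => C.card = w ∧ (C.image Prod.fst).card = w)

end Pool.Agent.H40.TW
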