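import Pool.Agent.H40.TW.Defs

/-!
# The exact tradeoff between time and memory: targets of the modules

Every other target may be used as a hypothesis.
-/

namespace Pool.Agent.H40.TW

open Finset Pool.Agent.H80.SH

/-! ## Moments of a random clause -/

/-- ENT: subadditivity of the entropy. Induction over the coordinates in which the points of `P`
differ (split `P` by one coordinate, concavity of `binEntropy`). -/
def T_ENT : Prop :=
  ∀ (n : ℕ) (P : Finset (Fin n → Bool)), P.Nonempty →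
    Real.log P.card ≤ ∑ i, Real.binEntropy (frac P i)

/-- ONE: `a ^ (1 + t) + b ^ (1 + t) ≤ (a + b) ^ (1 + t) (1 - t h(a / (a + b)) + t ^ 2)` -/
def T_ONE : Prop :=
  ∀ a b t : ℝ, 0 ≤ a → 0 ≤ b → 0 < a + b → 0 ≤ t → t ≤ 1 →
    a ^ (1 + t) + b ^ (1 + t) ≤
      (a + b) ^ (1 + t) * (1 - t * Real.binEntropy (a / (a + b)) + t ^ 2)

/-- DBL: the recursion of the moments, one coordinate fixed -/
def T_DBL : Prop :=
  ∀ (n w : ℕ) (t : ℝ) (I : Finset (Fin n)) (P : Finset (Fin n → Bool)),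
    ((w + 1 : ℕ) : ℝ) * mom t (w + 1) I P =
      ∑ i ∈ I, (mom t w (I.erase i) (P.filter (fun x => x i = true)) +
        mom t w (I.erase i) (P.filter (fun x => x i = false)))

/-- REC: bound for the moments -/
def T_REC : Prop :=
  ∀ (n w : ℕ) (t G : ℝ) (I : Finset (Fin n)) (P : Finset (Fin n → Bool)), 0 ≤ t → t ≤ 1 → 1 ≤ G →
    0 ≤ 1 + t ^ 2 - t * Real.log G / n → P.Nonempty →
    (∀ x ∈ P, ∀ y ∈ P, ∀ i, i ∉ I → x i = y i) →
    mom t w I P ≤ (I.card.choose w : ℝ) *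
      ((1 + t ^ 2 - t * Real.log G / n) ^ w * (P.card : ℝ) ^ (1 + t) + 2 ^ w * G ^ (1 + t))

/-- DEN: few clauses are dense in a large set -/
def T_DEN : Prop :=
  ∀ (n w H : ℕ) (t G : ℝ) (P : Finset (Fin n → Bool)), w ≤ n → 1 ≤ H → 0 ≤ t → t ≤ 1 → 1 ≤ G →
    0 ≤ 1 + t ^ 2 - t * Real.log G / n → P.Nonempty →
    ((dense (VC : Cl n w → _) H P).card : ℝ) * 2 ^ w ≤ (Fintype.card (Cl n w) : ℝ) *
      ((H : ℝ) ^ (1 + t) * ((1 + t ^ 2 - t * Real.log G / n) ^ w +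
        2 ^ w * (G / P.card) ^ (1 + t)))

/-! ## The random formula -/

/-- TAI: binomial tail -/
def T_TAI : Prop :=
  ∀ (α : Type) [Fintype α] [DecidableEq α] (r T K : ℕ) (D : Finset α), 1 ≤ T →
    K * D.card ≤ Fintype.card α → 8 * r ≤ K * T →
    ∃ B : Finset (Fin r → α), 2 ^ T * B.card ≤ Fintype.card α ^ r ∧
      ∀ F, F ∉ B → (univ.filter (fun j => F j ∈ D)).card < T

/-- GOO: most formulas have few dense clauses in all large path sets -/
def T_GOO : Prop :=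
  ∀ (X α : Type) [Fintype X] [DecidableEq X] [Fintype α] [DecidableEq α] (V : α → Finset X)
    (L : Finset (Finset X)) (r g H T M K : ℕ), 1 ≤ T →
    (∀ P : Finset X, 2 ^ g ≤ P.card → K * (dense V H P).card ≤ Fintype.card α) →
    8 * r ≤ K * T → 4 * (PS L M).card ≤ 2 ^ T →
    ∃ B : Finset (Fin r → α), 4 * B.card ≤ Fintype.card α ^ r ∧
      ∀ F, F ∉ B → ∀ P ∈ PS L M, 2 ^ g ≤ P.card →
        (dense (fun j => V (F j)) H P).card ≤ T

/-! ## Search trees -/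

/-- POT: the potential argument -/
def T_POT : Prop :=
  ∀ (X ι : Type) [Fintype X] [DecidableEq X] [Fintype ι] [DecidableEq ι] (V : ι → Finset X)
    (L : Finset (Finset X)) (q e g H T M : ℕ),
    (∀ P ∈ PS L M, 2 ^ g ≤ P.card → (dense V H P).card ≤ T) →
    ∀ (d l : ℕ) (A : Finset X), STree V L q e d l A →
    ∀ (r : ℕ) (P : Finset X), P ∈ PS L r → r + 2 * d ≤ M → P ⊆ A →
      H * P.card ≤ H * (l * (2 ^ g + e)) + (d + 1) * (H * pot V H P) +
        2 * (d + 1) ^ 2 * (q + T) * P.card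

/-- DLC: decision lists -/
def T_DLC : Prop :=
  ∀ (X : Type) [Fintype X] [DecidableEq X] (L : Finset (Finset X)),
    (∀ k, (DLF L k).card ≤ (2 * L.card + 1) ^ k) ∧
    (∀ k l, k ≤ l → DLF L k ⊆ DLF L l) ∧ (∀ k, ∅ ∈ DLF L k) ∧ (L ⊆ DLF L 1) ∧
    ∀ (T : ℕ) (A : Fin T → Finset X) (W : Finset (Fin T)) (h : Fin T → Prop) (B : Finset X),
      (∀ i, A i ∈ L) →
      (∀ x, x ∈ B ↔ ∃ i ∈ W, x ∈ A i ∧ (∀ j ∈ W, j < i → x ∉ A j) ∧ h i) →
      B ∈ DLF L W.card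

/-- COV: the covering lemmas -/
def T_COV : Prop :=
  ∀ (X ι : Type) [Fintype X] [DecidableEq X] (V : ι → Finset X) (L : Finset (Finset X))
    (N p q e : ℕ) (R : Derivation V L N p q e),
    (∀ (Z U : Finset (Fin N)) (c : Fin N), Closed R.par Z U → c ∈ U → ∀ x ∈ LZU R Z U,
      x ∈ LZU R (insert c Z) (U.erase c) ∨ (∃ j ∈ R.J c, x ∈ V j) ∨ x ∈ R.E c) ∧
    (∀ i, ∀ x ∈ R.A i, x ∈ LZU R {R.home i} (univ.erase (R.home i)) ∨
      (∃ j ∈ R.J (R.home i), x ∈ V j) ∨ x ∈ R.E (R.home i)) ∧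
    ∀ Z U₁ U₂ : Finset (Fin N), LZU R Z (U₁ ∪ U₂) = LZU R Z U₁ ∪ LZU R Z U₂

/-- CUT: balanced cuts of a forest -/
def T_CUT : Prop :=
  ∀ (N : ℕ) (par : Fin N → Fin N) (Z U : Finset (Fin N)), (∀ t, par t ≤ t) → Closed par Z U →
    U.Nonempty → ∃ c ∈ U, ∃ U₁ U₂ : Finset (Fin N), U₁ ∪ U₂ = U.erase c ∧ Disjoint U₁ U₂ ∧
      Closed par (insert c Z) U₁ ∧ Closed par (insert c Z) U₂ ∧
      3 * U₁.card ≤ 2 * U.card ∧ 3 * U₂.card ≤ 2 * U.card

/-- SRC: the search tree of a derivation -/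
def T_SRC : Prop :=
  ∀ (X ι : Type) [Fintype X] [DecidableEq X] (V : ι → Finset X) (L : Finset (Finset X))
    (N p q e : ℕ) (R : Derivation V L N p q e) (d : ℕ), N * 2 ^ d ≤ 3 ^ d →
    ∀ i, STree V (DLF L (p * (d + 1))) q e (d + 1) (2 * N + 1) (R.A i)

/-- LOW: the bound for the derivations from a good formula -/
def T_LOW : Prop :=
  ∀ (X ι : Type) [Fintype X] [DecidableEq X] [Fintype ι] [DecidableEq ι] (V : ι → Finset X)
    (L : Finset (Finset X)) (N p q e g H T n : ℕ) (R : Derivation V L N p q e),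
    (∀ P ∈ PS (DLF L (p * (2 * n + 1))) (4 * n + 3), 2 ^ g ≤ P.card →
      (dense V H P).card ≤ T) →
    N ≤ 2 ^ n → 1 ≤ H → e ≤ 2 ^ g → 4 * (2 * n + 2) ^ 2 * (q + T) ≤ H →
    ∀ i, (∀ j, H * (V j).card < (R.A i).card) → (R.A i).card ≤ 4 * (2 * N + 1) * 2 ^ g

end Pool.Agent.H40.TW
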